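import Pool.Agent.K6.H49.DC.Defs

/-!
# Directed cycle decompositions through a vertex met by all cycles
-/

set_option autoImplicit false

namespace Pool.Agent.K6.H49.DC

open Finset Equiv.Perm

variable {α V : Type}

/-- A small decomposition gives classes of arcs. -/
theorem exists_classes (tail head : α → V) {P : Finset (Set α)}
    (hP : IsDecomposition tail head P) (s : V) (S : Finset α) (hS : ∀ a ∈ S, tail a = s)
    (hcard : P.card ≤ S.card) :
    ∃ K : α → Set α, (∀ a, ∃ b, tail b = head a ∧ K b = K a) ∧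
      (∀ a b, a ≠ b → tail a = tail b → K a ≠ K b) ∧
      (∀ a b, a ≠ b → head a = head b → K a ≠ K b) ∧
      (∀ a b, a ≠ b → tail b = head a → tail a = head b → K a = K b → tail a = s ∨ tail b = s) := by
  classical
  obtain ⟨hcyc, huniq⟩ := hP
  choose K hK hKu using huniq
  have hmem : ∀ a, a ∈ K a := fun a => (hK a).2
  have hP : ∀ a, K a ∈ P := fun a => (hK a).1
  have heq : ∀ a C, C ∈ P → a ∈ C → K a = C := fun a C h1 h2 => (hKu a C ⟨h1, h2⟩).symm
  -- tails are different in a class
  have htail : ∀ a b, a ≠ b → tail a = tail b → K a ≠ K b := by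
    intro a b hab ht hKab
    obtain ⟨l, _, hl1, hl2, _⟩ := hcyc _ (hP a)
    have ha : a ∈ l := (hl1 a).1 (hmem a)
    have hb : b ∈ l := (hl1 b).1 (by rw [hKab]; exact hmem b)
    exact hab (List.inj_on_of_nodup_map hl2 ha hb ht)
  have hsurj : ∀ C ∈ P, ∃ a ∈ S, K a = C := by
    have h1 : S.image K ⊆ P := by
      intro C hC
      rw [mem_image] at hC
      obtain ⟨a, _, rfl⟩ := hC
      exact hP a
    have h2 : (S.image K).card = S.card := by
      refine card_image_of_injOn fun a ha b hb hab => ?_
      by_contra hne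
      exact htail a b hne ((hS a ha).trans (hS b hb).symm) hab
    have h3 : S.image K = P := eq_of_subset_of_card_le h1 (by rw [h2]; exact hcard)
    intro C hC
    rw [← h3, mem_image] at hC
    exact hC
  refine ⟨K, fun a => ?_, htail, fun a b hab hh hKab => ?_, fun a b hab h1 h2 hKab => ?_⟩
  · obtain ⟨l, hl0, hl1, hl2, hl3⟩ := hcyc _ (hP a)
    obtain ⟨i, hi, hia⟩ := List.getElem_of_mem ((hl1 a).1 (hmem a))
    refine ⟨l[(i + 1) % l.length]'(Nat.mod_lt _ (Nat.zero_lt_of_lt hi)), ?_, ?_⟩
    · rw [← hl3 i hi, hia]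
    · exact heq _ _ (hP a) ((hl1 _).2 (List.getElem_mem _))
  · obtain ⟨l, hl0, hl1, hl2, hl3⟩ := hcyc _ (hP a)
    obtain ⟨i, hi, hia⟩ := List.getElem_of_mem ((hl1 a).1 (hmem a))
    obtain ⟨j, hj, hjb⟩ := List.getElem_of_mem ((hl1 b).1 (by rw [hKab]; exact hmem b))
    have h1 := hl3 i hi
    have h2 := hl3 j hj
    rw [hia, hh, ← hjb, h2] at h1
    have h3 := List.inj_on_of_nodup_map hl2 (List.getElem_mem _) (List.getElem_mem _) h1
    have hnd := List.Nodup.of_map _ hl2
    have h4 := (List.Nodup.getElem_inj_iff hnd).1 h3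
    have h5 : i = j := by
      rcases Nat.lt_or_ge (i + 1) l.length with hi' | hi' <;>
        rcases Nat.lt_or_ge (j + 1) l.length with hj' | hj'
      · rw [Nat.mod_eq_of_lt hi', Nat.mod_eq_of_lt hj'] at h4
        omega
      · have hj2 : j + 1 = l.length := by omega
        rw [Nat.mod_eq_of_lt hi', hj2, Nat.mod_self] at h4
        omega
      · have hi2 : i + 1 = l.length := by omega
        rw [Nat.mod_eq_of_lt hj', hi2, Nat.mod_self] at h4
        omega
      · omega
    subst h5
    exact hab (hia.symm.trans hjb)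
  · obtain ⟨l, hl0, hl1, hl2, hl3⟩ := hcyc _ (hP a)
    obtain ⟨i, hi, hia⟩ := List.getElem_of_mem ((hl1 a).1 (hmem a))
    obtain ⟨j, hj, hjb⟩ := List.getElem_of_mem ((hl1 b).1 (by rw [hKab]; exact hmem b))
    have hnd := List.Nodup.of_map _ hl2
    have e1 := hl3 i hi
    have e2 := hl3 j hj
    rw [hia, ← h1, ← hjb] at e1
    rw [hjb, ← h2, ← hia] at e2
    have f1 := (List.Nodup.getElem_inj_iff hnd).1
      (List.inj_on_of_nodup_map hl2 (List.getElem_mem _) (List.getElem_mem _) e1)
    have f2 := (List.Nodup.getElem_inj_iff hnd).1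
      (List.inj_on_of_nodup_map hl2 (List.getElem_mem _) (List.getElem_mem _) e2)
    have hlen : l.length = 2 := by
      rcases Nat.lt_or_ge (i + 1) l.length with hi' | hi' <;>
        rcases Nat.lt_or_ge (j + 1) l.length with hj' | hj'
      · rw [Nat.mod_eq_of_lt hi'] at f1
        rw [Nat.mod_eq_of_lt hj'] at f2
        omega
      · have hj2 : j + 1 = l.length := by omega
        rw [Nat.mod_eq_of_lt hi'] at f1
        rw [hj2, Nat.mod_self] at f2
        omega
      · have hi2 : i + 1 = l.length := by omega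
        rw [hi2, Nat.mod_self] at f1
        rw [Nat.mod_eq_of_lt hj'] at f2
        omega
      · have hi2 : i + 1 = l.length := by omega
        have hj2 : j + 1 = l.length := by omega
        rw [hi2, Nat.mod_self] at f1
        omega
    obtain ⟨c, hc, hcK⟩ := hsurj _ (hP a)
    have hcl : c ∈ l := (hl1 c).1 (by rw [← hcK]; exact hmem c)
    have hij : i ≠ j := by
      rintro rfl
      exact hab (hia.symm.trans hjb)
    obtain ⟨q, hq, hqc⟩ := List.getElem_of_mem hcl
    have hq' : q = i ∨ q = j := by omega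
    rcases hq' with rfl | rfl
    · left
      rw [← hia, hqc]
      exact hS c hc
    · right
      rw [← hjb, hqc]
      exact hS c hc

/-- Colours and ranks give a decomposition. -/
theorem cycLE_of_colours [Finite α] {Γ : Type} (tail head : α → V) (s : V) (col : α → Γ)
    (rk : α → ℕ) (h1 : ∀ a, ∃ b, tail b = head a ∧ col b = col a ∧ (head a ≠ s → rk a < rk b))
    (h2 : ∀ a b, head a = head b → col a = col b → a = b) (h3 : ∀ a, tail a ≠ head a)
    (S : Finset α) (hS : ∀ a, tail a = s → a ∈ S) : CycLE tail head S.card := by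
  classical
  have := Fintype.ofFinite α
  choose σ hσ1 hσ2 hσ3 using h1
  have hinj : Function.Injective σ := by
    intro a b hab
    refine h2 a b ?_ ?_
    · rw [← hσ1 a, ← hσ1 b, hab]
    · rw [← hσ2 a, ← hσ2 b, hab]
  let p : Equiv.Perm α := Equiv.ofBijective σ (Finite.injective_iff_bijective.1 hinj)
  have hp : ∀ a, p a = σ a := fun _ => rfl
  have hne : ∀ a, p a ≠ a := by
    intro a h
    refine h3 a ?_
    rw [← hσ1 a, ← hp a, h]
  have hsupp : ∀ a, a ∈ p.support := fun a => mem_support.2 (hne a)
  have hcol : ∀ a b, p.SameCycle a b → col b = col a := by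
    rintro a b ⟨n, rfl⟩
    have key : ∀ (n : ℕ) (a : α), col ((p ^ n) a) = col a := by
      intro n
      induction n with
      | zero => intro a; rfl
      | succ n ih =>
        intro a
        rw [pow_succ', Equiv.Perm.mul_apply, hp, hσ2]
        exact ih a
    rcases n with n | n
    · exact key n a
    · have := key (n + 1) ((p ^ (Int.negSucc n)) a)
      rw [← this]
      congr 1
      rw [zpow_negSucc, ← Equiv.Perm.mul_apply]
      simp
  have htail : ∀ a b, tail a = tail b → col a = col b → a = b := by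
    intro a b h4 h5
    obtain ⟨a', rfl⟩ := p.surjective a
    obtain ⟨b', rfl⟩ := p.surjective b
    rw [hp, hp, hσ1, hσ1] at h4
    rw [hp, hp, hσ2, hσ2] at h5
    rw [h2 a' b' h4 h5]
  -- every class meets `s`
  have hmeet : ∀ a, ∃ b, p.SameCycle a b ∧ tail b = s := by
    intro a
    by_contra hno
    push Not at hno
    have hstep : ∀ n : ℕ, rk a + n ≤ rk ((p ^ n) a) := by
      intro n
      induction n with
      | zero => simp
      | succ n ih =>
        have h4 : head ((p ^ n) a) ≠ s := by
          intro h5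
          refine hno ((p ^ (n + 1)) a) ⟨((n + 1 : ℕ) : ℤ), by rw [zpow_natCast]⟩ ?_
          rw [pow_succ', Equiv.Perm.mul_apply, hp, hσ1, h5]
        have h5 := hσ3 _ h4
        rw [pow_succ', Equiv.Perm.mul_apply, hp]
        omega
    have h6 := hstep (orderOf p)
    rw [pow_orderOf_eq_one, Equiv.Perm.one_apply] at h6
    have h7 := orderOf_pos p
    omega
  let P : Finset (Set α) := Finset.univ.image fun a => {b | p.SameCycle a b}
  have hmemP : ∀ C, C ∈ P ↔ ∃ a, {b | p.SameCycle a b} = C := by
    intro C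
    simp [P]
  refine ⟨P, ⟨?_, ?_⟩, ?_⟩
  · intro C hC
    rw [hmemP] at hC
    obtain ⟨a, rfl⟩ := hC
    refine ⟨p.toList a, two_le_length_toList_iff_mem_support.2 (hsupp a), ?_, ?_, ?_⟩
    · intro b
      rw [mem_toList_iff]
      exact ⟨fun h => ⟨h, hsupp a⟩, fun h => h.1⟩
    · refine List.Nodup.map_on ?_ (nodup_toList p a)
      intro x hx y hy hxy
      rw [mem_toList_iff] at hx hy
      exact htail x y hxy ((hcol a x hx.1).trans (hcol a y hy.1).symm)
    · intro i hi
      rw [getElem_toList, getElem_toList]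
      have h4 := pow_mod_card_support_cycleOf_self_apply p (i + 1) a
      rw [← Equiv.Perm.length_toList] at h4
      rw [h4, pow_succ', Equiv.Perm.mul_apply, hp, hσ1]
  · intro a
    refine ⟨{b | p.SameCycle a b}, ⟨(hmemP _).2 ⟨a, rfl⟩, SameCycle.refl p a⟩, ?_⟩
    rintro C ⟨hC, ha⟩
    rw [hmemP] at hC
    obtain ⟨a', rfl⟩ := hC
    ext b
    exact ⟨fun h => (show p.SameCycle a' a from ha).symm.trans h,
      fun h => (show p.SameCycle a' a from ha).trans h⟩
  · have hsub : P ⊆ S.image fun a => {b | p.SameCycle a b} := by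
      intro C hC
      rw [hmemP] at hC
      obtain ⟨a, rfl⟩ := hC
      obtain ⟨b, hb1, hb2⟩ := hmeet a
      rw [mem_image]
      refine ⟨b, hS b hb2, ?_⟩
      ext c
      exact ⟨fun h => hb1.trans h, fun h => hb1.symm.trans h⟩
    exact (card_le_card hsub).trans card_image_le

end Pool.Agent.K6.H49.DC
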