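import Pool.Agent.K6.H49.DC.Snd

/-!
# A satisfying assignment gives a decomposition of the digraph of a formula
-/

set_option autoImplicit false

namespace Pool.Agent.K6.H49.DC

/-- The colour of the column `x` at the top. -/
def ini (τ : ℕ → Bool) (x : ℕ) : ℕ :=
  if τ (x / 4) = true then x / 2 else if x % 4 = 1 then x / 2 + 1 else x / 2 - 1

theorem ini_spec (τ : ℕ → Bool) {x : ℕ} (hx : x % 4 = 1 ∨ x % 4 = 2) :
    ini τ x / 2 = x / 4 ∧ (x % 4 = 1 → τ (x / 4) = true → ini τ x = 2 * (x / 4)) ∧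
      (x % 4 = 1 → τ (x / 4) = false → ini τ x = 2 * (x / 4) + 1) ∧
      (x % 4 = 2 → τ (x / 4) = true → ini τ x = 2 * (x / 4) + 1) ∧
      (x % 4 = 2 → τ (x / 4) = false → ini τ x = 2 * (x / 4)) := by
  unfold ini
  cases τ (x / 4) <;> simp only [Bool.false_eq_true, if_false, if_true, reduceCtorEq,
    IsEmpty.forall_iff, implies_true, true_and, and_true, forall_const]
  · split_ifs <;> omega
  · omega

theorem ini_inj (τ : ℕ → Bool) {x x' : ℕ} (hx : x % 4 = 1 ∨ x % 4 = 2)
    (hx' : x' % 4 = 1 ∨ x' % 4 = 2) (h : ini τ x = ini τ x') : x = x' := by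
  obtain ⟨a1, a2, a3, a4, a5⟩ := ini_spec τ hx
  obtain ⟨b1, b2, b3, b4, b5⟩ := ini_spec τ hx'
  have e : x / 4 = x' / 4 := by omega
  rw [← e] at b2 b3 b4 b5
  cases ht : τ (x / 4) <;> simp only [ht, reduceCtorEq, forall_const, IsEmpty.forall_iff,
    implies_true] at a2 a3 a4 a5 b2 b3 b4 b5 <;> omega

section
open Classical

/-- The colour of the column `x` below the positions `≥ r`. -/
noncomputable def fc (m : ℕ) (τ : ℕ → Bool) (sel : ℕ → ℕ) (x r : ℕ) : ℕ :=
  if h : ∃ j, j < m ∧ sel j = x ∧ r ≤ 4 * j + 1 then 6 * m + Nat.find h else ini τ x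

variable {m : ℕ} {τ : ℕ → Bool} {sel : ℕ → ℕ}

theorem fc_spec (m : ℕ) (τ : ℕ → Bool) (sel : ℕ → ℕ) (x r : ℕ) :
    (∃ j, j < m ∧ sel j = x ∧ r ≤ 4 * j + 1 ∧
      (∀ j' < m, sel j' = x → r ≤ 4 * j' + 1 → j ≤ j') ∧ fc m τ sel x r = 6 * m + j) ∨
    ((∀ j < m, sel j = x → ¬ r ≤ 4 * j + 1) ∧ fc m τ sel x r = ini τ x) := by
  unfold fc
  split_ifs with h
  · left
    refine ⟨Nat.find h, (Nat.find_spec h).1, (Nat.find_spec h).2.1, (Nat.find_spec h).2.2, ?_, rfl⟩
    intro j' h1 h2 h3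
    exact Nat.find_min' h ⟨h1, h2, h3⟩
  · right
    refine ⟨fun j h1 h2 h3 => h ⟨j, h1, h2, h3⟩, rfl⟩

theorem fc_congr {x r r' : ℕ}
    (h : ∀ j < m, sel j = x → (r ≤ 4 * j + 1 ↔ r' ≤ 4 * j + 1)) :
    fc m τ sel x r = fc m τ sel x r' := by
  rcases fc_spec m τ sel x r with ⟨j, h1, h2, h3, h4, h5⟩ | ⟨h1, h2⟩ <;>
    rcases fc_spec m τ sel x r' with ⟨j', k1, k2, k3, k4, k5⟩ | ⟨k1, k2⟩
  · rw [h5, k5, le_antisymm (h4 j' k1 k2 ((h j' k1 k2).2 k3)) (k4 j h1 h2 ((h j h1 h2).1 h3))]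
  · exact absurd ((h j h1 h2).1 h3) (k1 j h1 h2)
  · exact absurd ((h j' k1 k2).2 k3) (h1 j' k1 k2)
  · rw [h2, k2]

end

variable {m : ℕ} {lt : ℕ → ℕ → Bool → Bool} {τ : ℕ → Bool} {sel : ℕ → ℕ}

theorem fc_ne {j r r' : ℕ} (hj : j < m) (h1 : r ≤ 4 * j + 1) (h2 : 4 * j + 1 < r')
    (hs : sel j < 12 * m) (hd : sel j % 4 = 1 ∨ sel j % 4 = 2) :
    fc m τ sel (sel j) r ≠ fc m τ sel (sel j) r' := by
  have hi := (ini_spec τ hd).1
  rcases fc_spec m τ sel (sel j) r with ⟨j1, a1, a2, a3, a4, a5⟩ | ⟨a1, a2⟩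
  · have a6 := a4 j hj rfl h1
    rcases fc_spec m τ sel (sel j) r' with ⟨j2, b1, b2, b3, b4, b5⟩ | ⟨b1, b2⟩ <;> omega
  · exact absurd h1 (a1 j hj rfl)

theorem fc_lt {x r : ℕ} (hx : x < 12 * m) (hd : x % 4 = 1 ∨ x % 4 = 2) :
    fc m τ sel x r < 7 * m := by
  have hi := (ini_spec τ hd).1
  rcases fc_spec m τ sel x r with ⟨j1, a1, a2, a3, a4, a5⟩ | ⟨a1, a2⟩ <;> omega

theorem fc_col {x r x' r' : ℕ} (hx : x < 12 * m) (hd : x % 4 = 1 ∨ x % 4 = 2)
    (hx' : x' < 12 * m) (hd' : x' % 4 = 1 ∨ x' % 4 = 2)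
    (h : fc m τ sel x r = fc m τ sel x' r') : x = x' := by
  have hi := (ini_spec τ hd).1
  have hi' := (ini_spec τ hd').1
  rcases fc_spec m τ sel x r with ⟨j1, a1, a2, a3, a4, a5⟩ | ⟨a1, a2⟩ <;>
    rcases fc_spec m τ sel x' r' with ⟨j2, b1, b2, b3, b4, b5⟩ | ⟨b1, b2⟩
  · rw [a5, b5] at h
    rw [← a2, ← b2, show j1 = j2 by omega]
  · omega
  · omega
  · rw [a2, b2] at h
    exact ini_inj τ hd hd' h

theorem fc_pos {x r j : ℕ} (hx : x < 12 * m) (hd : x % 4 = 1 ∨ x % 4 = 2)
    (h : fc m τ sel x r = 6 * m + j) : r ≤ 4 * j + 1 := by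
  have hi := (ini_spec τ hd).1
  rcases fc_spec m τ sel x r with ⟨j1, a1, a2, a3, a4, a5⟩ | ⟨a1, a2⟩ <;> omega

theorem fc_sel {j : ℕ} (hj : j < m) : fc m τ sel (sel j) (4 * j + 1) = 6 * m + j := by
  rcases fc_spec m τ sel (sel j) (4 * j + 1) with ⟨j1, a1, a2, a3, a4, a5⟩ | ⟨a1, a2⟩
  · have := a4 j hj rfl le_rfl
    omega
  · exact absurd le_rfl (a1 j hj rfl)

/-- The colours. -/
noncomputable def kap (m : ℕ) (τ : ℕ → Bool) (sel : ℕ → ℕ) (w q : ℕ) : ℕ :=
  if w < 6 * m then (if q ≤ 4 * m + 1 then w else fc m τ sel (dc w) (8 * m + 3 - q))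
  else if q ≤ 24 * m + 5 + 2 * sel (w - 6 * m) then w
    else fc m τ sel (sel (w - 6 * m)) (4 * (w - 6 * m) + 2)

/-- The ranks. -/
def rnk (m w q : ℕ) : ℕ :=
  if w < 6 * m then (if q ≤ 4 * m + 1 then q else 24 * m + 8 + (q - (4 * m + 1)) + (2 * dc w + 1))
  else if q ≤ 24 * m + 3 then q
    else 24 * m + 8 + (4 * m - 4 * (w - 6 * m)) + (q - (24 * m + 4))

theorem kap_up {w q : ℕ} (hw : w < 6 * m) (hq : q ≤ 4 * m + 1) : kap m τ sel w q = w := by
  unfold kap
  rw [if_pos hw, if_pos hq]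

theorem kap_down {w q : ℕ} (hw : w < 6 * m) (hq : 4 * m + 1 < q) :
    kap m τ sel w q = fc m τ sel (dc w) (8 * m + 3 - q) := by
  unfold kap
  rw [if_pos hw, if_neg (by omega)]

theorem kap_left {j q : ℕ} (hq : q ≤ 24 * m + 5 + 2 * sel j) :
    kap m τ sel (6 * m + j) q = 6 * m + j := by
  unfold kap
  rw [if_neg (by omega), show 6 * m + j - 6 * m = j by omega, if_pos hq]

theorem kap_right {j q : ℕ} (hq : 24 * m + 5 + 2 * sel j < q) :
    kap m τ sel (6 * m + j) q = fc m τ sel (sel j) (4 * j + 2) := by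
  unfold kap
  rw [if_neg (by omega), show 6 * m + j - 6 * m = j by omega, if_neg (by omega)]

/-- The kinds of visits. -/
theorem kinds {w q : ℕ} (h : (net m lt).Ok w q) :
    (netVis m w q).1.1 ≤ 1 ∨
    (∃ x y, x < 12 * m ∧ y < 2 * m ∧ w = x / 2 ∧ q = vq m x y ∧
      netVis m w q = ((2, x, y), true)) ∨
    (∃ x y, x < 12 * m ∧ y < 2 * m ∧ w = 6 * m + y / 2 ∧ q = hq m x y ∧
      netVis m w q = ((2, x, y), false)) ∨
    (∃ j < m, w = 6 * m + j ∧ q = 1 ∧ netVis m w q = ((2, 12 * m, 2 * j), true)) ∨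
    (∃ j < m, w = 6 * m + j ∧ q = 48 * m + 5 ∧ netVis m w q = ((2, 12 * m, 2 * j), false)) ∨
    (∃ i < 3 * m, w = 2 * i ∧ q = 4 * m + 1 ∧ netVis m w q = ((3, i, 0), false)) ∨
    (∃ i < 3 * m, w = 2 * i + 1 ∧ q = 4 * m + 1 ∧ netVis m w q = ((3, i, 0), true)) := by
  obtain ⟨h1, h2⟩ := h
  change w < 7 * m at h1
  change q < netLen m w at h2
  rcases Nat.lt_or_ge w (6 * m) with hw | hw
  · rw [len_v hw] at h2
    rcases Nat.lt_trichotomy q (4 * m + 1) with h3 | h3 | h3
    · rcases Nat.even_or_odd' q with ⟨y, rfl | rfl⟩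
      · left
        rw [vis_v hw (by omega)]
      · right; left
        have hu := uc_spec w
        have e : 2 * y + 1 = vq m (uc w) y := by
          unfold vq
          rw [if_pos hu.1]
        refine ⟨uc w, y, by omega, by omega, by omega, e, ?_⟩
        rw [vis_u hw (by omega)]
    · subst h3
      rcases Nat.even_or_odd' w with ⟨i, rfl | rfl⟩
      · right; right; right; right; right; left
        refine ⟨i, by omega, rfl, rfl, ?_⟩
        rw [vis_p hw, show 2 * i / 2 = i by omega]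
        congr 1
        rw [decide_eq_false_iff_not]
        omega
      · right; right; right; right; right; right
        refine ⟨i, by omega, rfl, rfl, ?_⟩
        rw [vis_p hw, show (2 * i + 1) / 2 = i by omega]
        congr 1
        rw [decide_eq_true_eq]
        omega
    · rcases Nat.mod_two_eq_zero_or_one q with h5 | h5
      · obtain ⟨y, rfl, hy⟩ : ∃ y, q = 8 * m + 2 - 2 * y ∧ y ≤ 2 * m :=
          ⟨(8 * m + 2 - q) / 2, by omega, by omega⟩
        left
        rw [vis_w hw hy]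
      · obtain ⟨y, rfl, hy⟩ : ∃ y, q = 8 * m + 1 - 2 * y ∧ y < 2 * m :=
          ⟨(8 * m + 1 - q) / 2, by omega, by omega⟩
        right; left
        have hd := dc_spec w
        have e : 8 * m + 1 - 2 * y = vq m (dc w) y := by
          unfold vq
          rw [if_neg (by omega)]
        refine ⟨dc w, y, by omega, by omega, by omega, e, ?_⟩
        rw [vis_d hw hy]
  · obtain ⟨j, rfl⟩ : ∃ j, w = 6 * m + j := ⟨w - 6 * m, by omega⟩
    have hj : j < m := by omega
    rw [len_c] at h2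
    rcases Nat.lt_or_ge q 3 with h3 | h3
    · interval_cases q
      · left
        rw [vis_0]
      · right; right; right; left
        exact ⟨j, hj, rfl, rfl, vis_1 j⟩
      · left
        rw [vis_2]
    · rcases Nat.lt_or_ge q (24 * m + 4) with h4 | h4
      · rcases Nat.mod_two_eq_zero_or_one (24 * m + 3 - q) with h5 | h5
        · obtain ⟨x, rfl, hx⟩ : ∃ x, q = 24 * m + 3 - 2 * x ∧ x ≤ 12 * m :=
            ⟨(24 * m + 3 - q) / 2, by omega, by omega⟩
          left
          rw [vis_i j hx]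
          simp
        · obtain ⟨x, rfl, hx⟩ : ∃ x, q = 24 * m + 2 - 2 * x ∧ x < 12 * m :=
            ⟨(24 * m + 2 - q) / 2, by omega, by omega⟩
          right; right; left
          have e : 24 * m + 2 - 2 * x = hq m x (2 * j + 1) := by
            unfold hq
            rw [if_pos (by omega)]
          refine ⟨x, 2 * j + 1, hx, by omega, by omega, e, vis_ic j hx⟩
      · rcases Nat.mod_two_eq_zero_or_one q with h5 | h5
        · obtain ⟨x, rfl⟩ : ∃ x, q = 24 * m + 4 + 2 * x := ⟨(q - (24 * m + 4)) / 2, by omega⟩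
          left
          rw [vis_h]
          simp
        · obtain ⟨x, rfl⟩ : ∃ x, q = 24 * m + 5 + 2 * x := ⟨(q - (24 * m + 5)) / 2, by omega⟩
          rcases Nat.lt_or_ge x (12 * m) with h6 | h6
          · right; right; left
            have e : 24 * m + 5 + 2 * x = hq m x (2 * j) := by
              unfold hq
              rw [if_neg (by omega)]
            exact ⟨x, 2 * j, h6, by omega, by omega, e, vis_hc j x⟩
          · have : x = 12 * m := by omega
            subst this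
            right; right; right; right; left
            exact ⟨j, hj, rfl, by omega, vis_hc j (12 * m)⟩

/-- What is needed of the selected gadgets. -/
structure Sel (m : ℕ) (lt : ℕ → ℕ → Bool → Bool) (τ : ℕ → Bool) (sel : ℕ → ℕ) : Prop where
  lt12 : ∀ j < m, sel j < 12 * m
  opt : ∀ j < m, netOpt m lt (2, sel j, 2 * j) = true
  good : ∀ j < m, (sel j % 4 = 1 ∧ τ (sel j / 4) = true) ∨
    (sel j % 4 = 2 ∧ τ (sel j / 4) = false)

namespace Sel

theorem dn (h : Sel m lt τ sel) {j : ℕ} (hj : j < m) : sel j % 4 = 1 ∨ sel j % 4 = 2 := by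
  rcases h.good j hj with h | h
  · exact Or.inl h.1
  · exact Or.inr h.1

theorem ini_sel (h : Sel m lt τ sel) {j : ℕ} (hj : j < m) :
    ini τ (sel j) = 2 * (sel j / 4) := by
  have hi := ini_spec τ (h.dn hj)
  rcases h.good j hj with h | h
  · exact hi.2.1 h.1 h.2
  · exact hi.2.2.2.2 h.1 h.2

/-- Ports. -/
theorem port {w q : ℕ} (hok : (net m lt).Ok w q)
    (hp : (netVis m w q).1.1 ≤ 1) : kap m τ sel w (q + 1) = kap m τ sel w q := by
  obtain ⟨h1, h2⟩ := hok
  change w < 7 * m at h1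
  change q < netLen m w at h2
  rcases Nat.lt_or_ge w (6 * m) with hw | hw
  · rw [len_v hw] at h2
    rcases Nat.lt_or_ge q (4 * m + 1) with h3 | h3
    · rw [kap_up hw (by omega), kap_up hw (by omega)]
    · rcases Nat.eq_or_lt_of_le h3 with h4 | h4
      · rw [← h4, vis_p hw] at hp
        simp at hp
      · rw [kap_down hw (by omega), kap_down hw (by omega)]
        have hq2 : q % 2 = 0 := by
          by_contra hn
          obtain ⟨y, rfl, hy⟩ : ∃ y, q = 8 * m + 1 - 2 * y ∧ y < 2 * m :=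
            ⟨(8 * m + 1 - q) / 2, by omega, by omega⟩
          rw [vis_d hw hy] at hp
          simp at hp
        apply fc_congr
        intro j _ _
        omega
  · obtain ⟨j, rfl⟩ : ∃ j, w = 6 * m + j := ⟨w - 6 * m, by omega⟩
    have hj : j < m := by omega
    rw [len_c] at h2
    rcases Nat.lt_or_ge (24 * m + 5 + 2 * sel j) q with h3 | h3
    · rw [kap_right (by omega), kap_right (by omega)]
    · rcases Nat.eq_or_lt_of_le h3 with h4 | h4
      · rw [h4, vis_hc] at hp
        simp at hp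
      · rw [kap_left (by omega), kap_left (by omega)]

theorem kap_v {x y : ℕ} (hx : x < 12 * m) (hy : y < 2 * m) :
    ((x % 4 = 0 ∨ x % 4 = 3) ∧ kap m τ sel (x / 2) (vq m x y) = x / 2 ∧
      kap m τ sel (x / 2) (vq m x y + 1) = x / 2) ∨
    ((x % 4 = 1 ∨ x % 4 = 2) ∧ kap m τ sel (x / 2) (vq m x y) = fc m τ sel x (2 * y + 2) ∧
      kap m τ sel (x / 2) (vq m x y + 1) = fc m τ sel x (2 * y + 1)) := by
  unfold vq
  split_ifs with h
  · left
    refine ⟨h, ?_, ?_⟩
    · rw [kap_up (by omega) (by omega)]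
    · rw [kap_up (by omega) (by omega)]
  · right
    have e : dc (x / 2) = x := by
      unfold dc
      omega
    refine ⟨by omega, ?_, ?_⟩
    · rw [kap_down (by omega) (by omega), e,
        show 8 * m + 3 - (8 * m + 1 - 2 * y) = 2 * y + 2 by omega]
    · rw [kap_down (by omega) (by omega), e,
        show 8 * m + 3 - (8 * m + 1 - 2 * y + 1) = 2 * y + 1 by omega]

theorem kap_h {x y : ℕ} (hx : x < 12 * m) :
    (y % 2 = 1 ∧ kap m τ sel (6 * m + y / 2) (hq m x y) = 6 * m + y / 2 ∧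
      kap m τ sel (6 * m + y / 2) (hq m x y + 1) = 6 * m + y / 2) ∨
    (y % 2 = 0 ∧ x < sel (y / 2) ∧ kap m τ sel (6 * m + y / 2) (hq m x y) = 6 * m + y / 2 ∧
      kap m τ sel (6 * m + y / 2) (hq m x y + 1) = 6 * m + y / 2) ∨
    (y % 2 = 0 ∧ x = sel (y / 2) ∧ kap m τ sel (6 * m + y / 2) (hq m x y) = 6 * m + y / 2 ∧
      kap m τ sel (6 * m + y / 2) (hq m x y + 1) = fc m τ sel x (2 * y + 2)) ∨
    (y % 2 = 0 ∧ sel (y / 2) < x ∧
      kap m τ sel (6 * m + y / 2) (hq m x y) = fc m τ sel (sel (y / 2)) (2 * y + 2) ∧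
      kap m τ sel (6 * m + y / 2) (hq m x y + 1) = fc m τ sel (sel (y / 2)) (2 * y + 2)) := by
  unfold hq
  split_ifs with h2
  · left
    refine ⟨h2, ?_, ?_⟩
    · rw [kap_left (by omega)]
    · rw [kap_left (by omega)]
  · right
    have h3 : y % 2 = 0 := by omega
    have e : 4 * (y / 2) + 2 = 2 * y + 2 := by omega
    rcases Nat.lt_trichotomy x (sel (y / 2)) with h4 | h4 | h4
    · left
      refine ⟨h3, h4, ?_, ?_⟩
      · rw [kap_left (by omega)]
      · rw [kap_left (by omega)]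
    · right; left
      refine ⟨h3, h4, ?_, ?_⟩
      · rw [kap_left (by omega)]
      · rw [kap_right (by omega), e, ← h4]
    · right; right
      refine ⟨h3, h4, ?_, ?_⟩
      · rw [kap_right (by omega), e]
      · rw [kap_right (by omega), e]

/-- The rule for the cells. -/
theorem cell (h : Sel m lt τ sel) {x y : ℕ} (hx : x < 12 * m) (hy : y < 2 * m) :
    kap m τ sel (x / 2) (vq m x y) ≠ kap m τ sel (6 * m + y / 2) (hq m x y) ∧
      ((kap m τ sel (x / 2) (vq m x y + 1) = kap m τ sel (x / 2) (vq m x y) ∧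
        kap m τ sel (6 * m + y / 2) (hq m x y + 1) = kap m τ sel (6 * m + y / 2) (hq m x y)) ∨
      (y % 2 = 0 ∧ x = sel (y / 2) ∧
        kap m τ sel (x / 2) (vq m x y + 1) = kap m τ sel (6 * m + y / 2) (hq m x y) ∧
        kap m τ sel (6 * m + y / 2) (hq m x y + 1) = kap m τ sel (x / 2) (vq m x y))) := by
  rcases kap_v (τ := τ) (sel := sel) hx hy with ⟨a1, a2, a3⟩ | ⟨a1, a2, a3⟩ <;>
    rcases kap_h (τ := τ) (sel := sel) (y := y) hx with ⟨b1, b2, b3⟩ | ⟨b1, b0, b2, b3⟩ | ⟨b1, b0, b2, b3⟩ |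
      ⟨b1, b0, b2, b3⟩ <;> rw [a2, a3, b2, b3]
  · exact ⟨by omega, Or.inl ⟨rfl, rfl⟩⟩
  · exact ⟨by omega, Or.inl ⟨rfl, rfl⟩⟩
  · have := h.dn (j := y / 2) (by omega)
    omega
  · refine ⟨?_, Or.inl ⟨rfl, rfl⟩⟩
    have hi := h.ini_sel (j := y / 2) (by omega)
    have hd := h.dn (j := y / 2) (by omega)
    rcases fc_spec m τ sel (sel (y / 2)) (2 * y + 2) with ⟨j1, c1, c2, c3, c4, c5⟩ | ⟨c1, c2⟩ <;>
      omega
  · refine ⟨?_, Or.inl ⟨?_, rfl⟩⟩
    · intro he
      have := fc_pos hx a1 he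
      omega
    · apply fc_congr
      intro j _ _
      omega
  · refine ⟨?_, Or.inl ⟨?_, rfl⟩⟩
    · intro he
      have := fc_pos hx a1 he
      omega
    · apply fc_congr
      intro j _ hj
      have : j ≠ y / 2 := by
        rintro rfl
        omega
      omega
  · refine ⟨?_, Or.inr ⟨b1, b0, ?_, rfl⟩⟩
    · intro he
      have := fc_pos hx a1 he
      omega
    · rw [b0, show 2 * y + 1 = 4 * (y / 2) + 1 by omega]
      exact fc_sel (by omega)
  · refine ⟨?_, Or.inl ⟨?_, rfl⟩⟩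
    · intro he
      have := fc_col hx a1 (h.lt12 (y / 2) (by omega)) (h.dn (by omega)) he
      omega
    · apply fc_congr
      intro j _ hj
      have : j ≠ y / 2 := by
        rintro rfl
        omega
      omega

theorem rnk_cell {x y : ℕ} (hx : x < 12 * m) (hy : y < 2 * m) (hd : x % 4 = 1 ∨ x % 4 = 2)
    (hy2 : y % 2 = 0) : rnk m (x / 2) (vq m x y) = rnk m (6 * m + y / 2) (hq m x y) := by
  have e : dc (x / 2) = x := by
    unfold dc
    omega
  unfold rnk vq hq
  rw [if_pos (by omega), if_neg (show ¬ (x % 4 = 0 ∨ x % 4 = 3) by omega), if_neg (by omega),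
    if_neg (by omega), if_neg (show ¬ (y % 2 = 1) by omega), if_neg (by omega), e]
  omega

theorem opt_down {x y : ℕ} (ho : netOpt m lt (2, x, y) = true) :
    (x % 4 = 1 ∨ x % 4 = 2) ∧ y % 2 = 0 := by
  constructor
  · by_contra hn
    rw [opt_col hn] at ho
    exact absurd ho (by simp)
  · by_contra hn
    rw [opt_odd (by omega)] at ho
    exact absurd ho (by simp)

theorem loop (h : Sel m lt τ sel) {j : ℕ} (hj : j < m) :
    kap m τ sel (6 * m + j) 1 = 6 * m + j ∧ kap m τ sel (6 * m + j) 2 = 6 * m + j ∧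
      kap m τ sel (6 * m + j) (48 * m + 5) = fc m τ sel (sel j) (4 * j + 2) ∧
      kap m τ sel (6 * m + j) (48 * m + 6) = fc m τ sel (sel j) (4 * j + 2) ∧
      fc m τ sel (sel j) (4 * j + 2) ≠ 6 * m + j := by
  have h1 := h.lt12 j hj
  refine ⟨kap_left (by omega), kap_left (by omega), kap_right (by omega), kap_right (by omega),
    ?_⟩
  intro he
  have := fc_pos h1 (h.dn hj) he
  omega

theorem top {i : ℕ} (hi : i < 3 * m) :
    kap m τ sel (2 * i) (4 * m + 1) = 2 * i ∧ kap m τ sel (2 * i + 1) (4 * m + 1) = 2 * i + 1 ∧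
      ((kap m τ sel (2 * i) (4 * m + 2) = 2 * i ∧
        kap m τ sel (2 * i + 1) (4 * m + 2) = 2 * i + 1) ∨
      (kap m τ sel (2 * i) (4 * m + 2) = 2 * i + 1 ∧
        kap m τ sel (2 * i + 1) (4 * m + 2) = 2 * i)) := by
  refine ⟨kap_up (by omega) le_rfl, kap_up (by omega) le_rfl, ?_⟩
  rw [kap_down (by omega) (by omega), kap_down (by omega) (by omega)]
  have e1 : dc (2 * i) = 4 * i + 1 := by
    unfold dc
    omega
  have e2 : dc (2 * i + 1) = 4 * i + 2 := by
    unfold dc
    omega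
  have hf : ∀ x, fc m τ sel x (8 * m + 3 - (4 * m + 2)) = ini τ x := by
    intro x
    rcases fc_spec m τ sel x (8 * m + 3 - (4 * m + 2)) with ⟨j1, c1, c2, c3, c4, c5⟩ | ⟨c1, c2⟩
    · omega
    · exact c2
  rw [e1, e2, hf, hf]
  obtain ⟨a1, a2, a3, a4, a5⟩ := ini_spec τ (x := 4 * i + 1) (by omega)
  obtain ⟨b1, b2, b3, b4, b5⟩ := ini_spec τ (x := 4 * i + 2) (by omega)
  rw [show (4 * i + 1) / 4 = i by omega] at a1 a2 a3 a4 a5
  rw [show (4 * i + 2) / 4 = i by omega] at b1 b2 b3 b4 b5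
  cases ht : τ i
  · right
    exact ⟨a3 (by omega) ht, b5 (by omega) ht⟩
  · left
    exact ⟨a2 (by omega) ht, b4 (by omega) ht⟩

/-- **Completeness.** -/
theorem cycLE (h : Sel m lt τ sel) :
    CycLE (fun a : (net m lt).Arc => (net m lt).tailA a.1)
      (fun a => (net m lt).headA a.1) (7 * m) := by
  refine Diagram.cycLE (d := net m lt) net_good (kap m τ sel) (rnk m) ?_ ?_ ?_ ?_ ?_ ?_ ?_ ?_
  · intro w hw
    change w < 7 * m at hw
    rcases Nat.lt_or_ge w (6 * m) with h1 | h1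
    · exact kap_up h1 (by omega)
    · obtain ⟨j, rfl⟩ : ∃ j, w = 6 * m + j := ⟨w - 6 * m, by omega⟩
      exact kap_left (by omega)
  · intro w hw
    change w < 7 * m at hw
    change kap m τ sel w (netLen m w) < 7 * m
    rcases Nat.lt_or_ge w (6 * m) with h1 | h1
    · rw [len_v h1, kap_down h1 (by omega)]
      have := dc_spec w
      exact fc_lt (by omega) this.1
    · obtain ⟨j, rfl⟩ : ∃ j, w = 6 * m + j := ⟨w - 6 * m, by omega⟩
      have h2 := h.lt12 j (by omega)
      rw [len_c, kap_right (by omega)]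
      exact fc_lt h2 (h.dn (by omega))
  · intro w hw w' hw' he
    change w < 7 * m at hw
    change w' < 7 * m at hw'
    change kap m τ sel w (netLen m w) = kap m τ sel w' (netLen m w') at he
    have hv : ∀ w, w < 6 * m → kap m τ sel w (netLen m w) = fc m τ sel (dc w) 0 := by
      intro w h1
      rw [len_v h1, kap_down h1 (by omega), show 8 * m + 3 - (8 * m + 3) = 0 by omega]
    have hc : ∀ j, j < m → kap m τ sel (6 * m + j) (netLen m (6 * m + j)) =
        fc m τ sel (sel j) (4 * j + 2) := by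
      intro j hj
      have h2 := h.lt12 j hj
      rw [len_c, kap_right (by omega)]
    rcases Nat.lt_or_ge w (6 * m) with h1 | h1 <;> rcases Nat.lt_or_ge w' (6 * m) with h2 | h2
    · rw [hv w h1, hv w' h2] at he
      have d1 := dc_spec w
      have d2 := dc_spec w'
      have := fc_col (by omega) d1.1 (by omega) d2.1 he
      omega
    · obtain ⟨j, rfl⟩ : ∃ j, w' = 6 * m + j := ⟨w' - 6 * m, by omega⟩
      rw [hv w h1, hc j (by omega)] at he
      have d1 := dc_spec w
      have h3 := h.lt12 j (by omega)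
      have := fc_col (by omega) d1.1 h3 (h.dn (by omega)) he
      rw [this] at he
      exact absurd he (fc_ne (by omega) (by omega) (by omega) h3 (h.dn (by omega)))
    · obtain ⟨j, rfl⟩ : ∃ j, w = 6 * m + j := ⟨w - 6 * m, by omega⟩
      rw [hv w' h2, hc j (by omega)] at he
      have d1 := dc_spec w'
      have h3 := h.lt12 j (by omega)
      have := fc_col h3 (h.dn (by omega)) (by omega) d1.1 he
      rw [← this] at he
      exact absurd he.symm (fc_ne (by omega) (by omega) (by omega) h3 (h.dn (by omega)))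
    · obtain ⟨j, rfl⟩ : ∃ j, w = 6 * m + j := ⟨w - 6 * m, by omega⟩
      obtain ⟨j', rfl⟩ : ∃ j, w' = 6 * m + j := ⟨w' - 6 * m, by omega⟩
      rw [hc j (by omega), hc j' (by omega)] at he
      have h3 := h.lt12 j (by omega)
      have h4 := h.lt12 j' (by omega)
      have h5 := fc_col h3 (h.dn (by omega)) h4 (h.dn (by omega)) he
      rcases Nat.lt_trichotomy j j' with h6 | h6 | h6
      · rw [h5] at he
        exact absurd he (fc_ne (by omega) (by omega) (by omega) h4 (h.dn (by omega)))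
      · rw [h6]
      · rw [← h5] at he
        exact absurd he.symm (fc_ne (by omega) (by omega) (by omega) h3 (h.dn (by omega)))
  · intro w q hw hq
    change w < 7 * m at hw
    change q + 1 < netLen m w at hq
    change rnk m w q < rnk m w (q + 1)
    unfold netLen at hq
    unfold rnk
    split_ifs at hq ⊢ <;> omega
  · -- gadgets which are visited once
    intro w q hok ho hu
    change netOpt m lt (netVis m w q).1 = true at ho
    have hu' : ∀ w' q', (net m lt).Ok w' q' → (netVis m w' q').1 = (netVis m w q).1 →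
      w' = w ∧ q' = q := hu
    rcases kinds hok with h1 | ⟨x, y, hx, hy, rfl, rfl, hv⟩ | ⟨x, y, hx, hy, rfl, rfl, hv⟩ |
      ⟨j, hj, rfl, rfl, hv⟩ | ⟨j, hj, rfl, rfl, hv⟩ | ⟨i, hi, rfl, rfl, hv⟩ |
      ⟨i, hi, rfl, rfl, hv⟩
    · exact port hok h1
    · have := hu' _ _ (ok_hor hx hy) (by rw [vis_hor hx, hv])
      omega
    · have := hu' _ _ (ok_vert hx hy) (by rw [vis_vert hx hy, hv])
      omega
    · rw [hv, opt_right le_rfl] at ho
      exact absurd ho (by simp)
    · rw [hv, opt_right le_rfl] at ho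
      exact absurd ho (by simp)
    · have := hu' (2 * i + 1) (4 * m + 1) (ok_v (by omega) (by omega))
        (by rw [hv, vis_p (by omega)]; simp only [Prod.mk.injEq, and_true, true_and]; omega)
      omega
    · have := hu' (2 * i) (4 * m + 1) (ok_v (by omega) (by omega))
        (by rw [hv, vis_p (by omega)]; simp only [Prod.mk.injEq, and_true, true_and]; omega)
      omega
  · -- crossings: different colours
    intro w q w' q' hok hok' hv' ho
    change netVis m w' q' = ((netVis m w q).1, !(netVis m w q).2) at hv'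
    change netOpt m lt (netVis m w q).1 = false at ho
    rcases kinds hok with h1 | ⟨x, y, hx, hy, rfl, rfl, hv⟩ | ⟨x, y, hx, hy, rfl, rfl, hv⟩ |
      ⟨j, hj, rfl, rfl, hv⟩ | ⟨j, hj, rfl, rfl, hv⟩ | ⟨i, hi, rfl, rfl, hv⟩ |
      ⟨i, hi, rfl, rfl, hv⟩
    · rw [opt_port h1] at ho
      exact absurd ho (by simp)
    · rw [hv] at hv'
      obtain ⟨rfl, rfl⟩ := net_inj hok' (ok_hor hx hy) (hv'.trans (vis_hor hx).symm)
      exact (h.cell hx hy).1
    · rw [hv] at hv'
      obtain ⟨rfl, rfl⟩ := net_inj hok' (ok_vert hx hy) (hv'.trans (vis_vert hx hy).symm)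
      exact (h.cell hx hy).1.symm
    · rw [hv] at hv'
      obtain ⟨rfl, rfl⟩ := net_inj hok' (ok_c hj (by omega)) (hv'.trans (vis_hc j (12 * m)).symm)
      obtain ⟨c1, c2, c3, c4, c5⟩ := h.loop hj
      rw [show 24 * m + 5 + 2 * (12 * m) = 48 * m + 5 by omega, c1, c3]
      exact c5.symm
    · rw [hv] at hv'
      obtain ⟨rfl, rfl⟩ := net_inj hok' (ok_c hj (by omega)) (hv'.trans (vis_1 j).symm)
      obtain ⟨c1, c2, c3, c4, c5⟩ := h.loop hj
      rw [c1, c3]
      exact c5
    · rw [hv] at ho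
      exact absurd ho (by simp [netOpt])
    · rw [hv] at ho
      exact absurd ho (by simp [netOpt])
  · -- crossings: the colours are kept
    intro w q hok ho
    change netOpt m lt (netVis m w q).1 = false at ho
    rcases kinds hok with h1 | ⟨x, y, hx, hy, rfl, rfl, hv⟩ | ⟨x, y, hx, hy, rfl, rfl, hv⟩ |
      ⟨j, hj, rfl, rfl, hv⟩ | ⟨j, hj, rfl, rfl, hv⟩ | ⟨i, hi, rfl, rfl, hv⟩ |
      ⟨i, hi, rfl, rfl, hv⟩
    · exact port hok h1
    · rw [hv] at ho
      rcases (h.cell hx hy).2 with c | ⟨c1, c2, _⟩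
      · exact c.1
      · exfalso
        have := h.opt (y / 2) (by omega)
        rw [← c2, show 2 * (y / 2) = y by omega, ho] at this
        exact absurd this (by simp)
    · rw [hv] at ho
      rcases (h.cell hx hy).2 with c | ⟨c1, c2, _⟩
      · exact c.2
      · exfalso
        have := h.opt (y / 2) (by omega)
        rw [← c2, show 2 * (y / 2) = y by omega, ho] at this
        exact absurd this (by simp)
    · obtain ⟨c1, c2, c3, c4, c5⟩ := h.loop hj
      rw [c1]
      exact c2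
    · obtain ⟨c1, c2, c3, c4, c5⟩ := h.loop hj
      rw [c3]
      exact c4
    · rw [hv] at ho
      exact absurd ho (by simp [netOpt])
    · rw [hv] at ho
      exact absurd ho (by simp [netOpt])
  · -- optional gadgets
    intro w q w' q' hok hok' hv' ho
    change netVis m w' q' = ((netVis m w q).1, !(netVis m w q).2) at hv'
    change netOpt m lt (netVis m w q).1 = true at ho
    rcases kinds hok with h1 | ⟨x, y, hx, hy, rfl, rfl, hv⟩ | ⟨x, y, hx, hy, rfl, rfl, hv⟩ |
      ⟨j, hj, rfl, rfl, hv⟩ | ⟨j, hj, rfl, rfl, hv⟩ | ⟨i, hi, rfl, rfl, hv⟩ |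
      ⟨i, hi, rfl, rfl, hv⟩
    · exfalso
      have e1 := port_role h1
      have e2 : (netVis m w' q').2 = false := port_role (by rw [hv']; exact h1)
      rw [hv', e1] at e2
      exact absurd e2 (by simp)
    · rw [hv] at hv' ho
      obtain ⟨rfl, rfl⟩ := net_inj hok' (ok_hor hx hy) (hv'.trans (vis_hor hx).symm)
      obtain ⟨d1, d2⟩ := opt_down ho
      obtain ⟨c1, c2⟩ := h.cell hx hy
      refine ⟨rnk_cell hx hy d1 d2, c1, ?_⟩
      rcases c2 with c2 | c2
      · exact Or.inl c2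
      · exact Or.inr ⟨c2.2.2.1, c2.2.2.2⟩
    · rw [hv] at hv' ho
      obtain ⟨rfl, rfl⟩ := net_inj hok' (ok_vert hx hy) (hv'.trans (vis_vert hx hy).symm)
      obtain ⟨d1, d2⟩ := opt_down ho
      obtain ⟨c1, c2⟩ := h.cell hx hy
      refine ⟨(rnk_cell hx hy d1 d2).symm, c1.symm, ?_⟩
      rcases c2 with c2 | c2
      · exact Or.inl ⟨c2.2, c2.1⟩
      · exact Or.inr ⟨c2.2.2.2, c2.2.2.1⟩
    · rw [hv, opt_right le_rfl] at ho
      exact absurd ho (by simp)
    · rw [hv, opt_right le_rfl] at ho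
      exact absurd ho (by simp)
    · rw [hv] at hv'
      have hp : netVis m (2 * i + 1) (4 * m + 1) = ((3, i, 0), true) := by
        rw [vis_p (by omega), show (2 * i + 1) / 2 = i by omega]
        congr 1
        rw [decide_eq_true_eq]
        omega
      obtain ⟨rfl, rfl⟩ := net_inj hok' (ok_v (lt := lt) (by omega) (by omega))
        (hv'.trans hp.symm)
      obtain ⟨c1, c2, c3⟩ := top (τ := τ) (sel := sel) hi
      refine ⟨?_, ?_, ?_⟩
      · unfold rnk
        rw [if_pos (by omega), if_pos le_rfl, if_pos (by omega), if_pos le_rfl]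
      · rw [c1, c2]
        omega
      · rw [c1, c2]
        exact c3
    · rw [hv] at hv'
      have hp : netVis m (2 * i) (4 * m + 1) = ((3, i, 0), false) := by
        rw [vis_p (by omega), show 2 * i / 2 = i by omega]
        congr 1
        rw [decide_eq_false_iff_not]
        omega
      obtain ⟨rfl, rfl⟩ := net_inj hok' (ok_v (lt := lt) (by omega) (by omega))
        (hv'.trans hp.symm)
      obtain ⟨c1, c2, c3⟩ := top (τ := τ) (sel := sel) hi
      refine ⟨?_, ?_, ?_⟩
      · unfold rnk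
        rw [if_pos (by omega), if_pos le_rfl, if_pos (by omega), if_pos le_rfl]
      · rw [c1, c2]
        omega
      · rw [c1, c2]
        rcases c3 with c3 | c3
        · exact Or.inl ⟨c3.2, c3.1⟩
        · exact Or.inr ⟨c3.2, c3.1⟩

end Sel

/-- **The digraph of a formula.** -/
theorem net_iff (hlt : ∀ j i, ¬ (lt j i true = true ∧ lt j i false = true)) :
    CycLE (fun a : (net m lt).Arc => (net m lt).tailA a.1)
      (fun a => (net m lt).headA a.1) (7 * m) ↔
    ∃ τ : ℕ → Bool, ∀ j < m, ∃ i < 3 * m, ∃ b, lt j i b = true ∧ τ i = b := by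
  constructor
  · intro h
    obtain ⟨Γ, κ, hκ⟩ := rules_net h
    exact hκ.sat hlt
  · rintro ⟨τ, hτ⟩
    classical
    have hsel : ∀ j, ∃ x, j < m → x < 12 * m ∧ netOpt m lt (2, x, 2 * j) = true ∧
        ((x % 4 = 1 ∧ τ (x / 4) = true) ∨ (x % 4 = 2 ∧ τ (x / 4) = false)) := by
      intro j
      by_cases hj : j < m
      · obtain ⟨i, hi, b, hb, hτb⟩ := hτ j hj
        cases b
        · refine ⟨4 * i + 2, fun _ => ⟨by omega, ?_, Or.inr ⟨by omega, ?_⟩⟩⟩
          · rw [opt_lit]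
            exact ⟨by omega, Or.inr ⟨by omega, by rw [show (4 * i + 2) / 4 = i by omega]; exact hb⟩⟩
          · rw [show (4 * i + 2) / 4 = i by omega]
            exact hτb
        · refine ⟨4 * i + 1, fun _ => ⟨by omega, ?_, Or.inl ⟨by omega, ?_⟩⟩⟩
          · rw [opt_lit]
            exact ⟨by omega, Or.inl ⟨by omega, by rw [show (4 * i + 1) / 4 = i by omega]; exact hb⟩⟩
          · rw [show (4 * i + 1) / 4 = i by omega]
            exact hτb
      · exact ⟨0, fun h => absurd h hj⟩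
    choose sel hs using hsel
    exact Sel.cycLE (τ := τ) (sel := sel) ⟨fun j hj => (hs j hj).1, fun j hj => (hs j hj).2.1,
      fun j hj => (hs j hj).2.2⟩

end Pool.Agent.K6.H49.DC
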