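import Mathlib

/-!
# Directed cycle decompositions of planar Eulerian digraphs: definitions

A digraph is given by the list of its arcs, an arc being the pair of its tail and its head.  Parallel
arcs are allowed, so the arcs are identified with the positions in the list.  The vertices are the
ends of arcs (isolated vertices play no role for the problem).
-/

set_option autoImplicit false

namespace Pool.Agent.K6.H49.DC

/-- For arcs `α` with the given tails and heads: the set `C` of arcs is the arc set of a directed
cycle, a closed directed walk of length at least `2` that does not repeat a vertex.  The arcs of the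
walk are listed by `l`; the head of every arc is the tail of the next one, cyclically, and the tails
are different. -/
def IsDirCycle {α V : Type} (tail head : α → V) (C : Set α) : Prop :=
  ∃ l : List α, 2 ≤ l.length ∧ (∀ a, a ∈ C ↔ a ∈ l) ∧ (l.map tail).Nodup ∧
    ∀ (i : ℕ) (h : i < l.length),
      head l[i] = tail (l[(i + 1) % l.length]'(Nat.mod_lt _ (Nat.zero_lt_of_lt h)))

/-- `P` is a directed cycle decomposition: a partition of the set of all arcs into arc sets of
directed cycles. -/
def IsDecomposition {α V : Type} (tail head : α → V) (P : Finset (Set α)) : Prop :=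
  (∀ C ∈ P, IsDirCycle tail head C) ∧ ∀ a, ∃! C, C ∈ P ∧ a ∈ C

/-- Some directed cycle decomposition has at most `k` members, that is `c(D) ≤ k`. -/
def CycLE {α V : Type} (tail head : α → V) (k : ℕ) : Prop :=
  ∃ P : Finset (Set α), IsDecomposition tail head P ∧ P.card ≤ k

/-- The tail of an arc of the digraph `D`. -/
def tl (D : List (ℕ × ℕ)) (i : Fin D.length) : ℕ := D[i].1

/-- The head of an arc of the digraph `D`. -/
def hd (D : List (ℕ × ℕ)) (i : Fin D.length) : ℕ := D[i].2

/-- `D` has no loops. -/
def Loopless (D : List (ℕ × ℕ)) : Prop := ∀ a ∈ D, a.1 ≠ a.2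

/-- `D` is Eulerian: every vertex has in-degree equal to out-degree. -/
def Eulerian (D : List (ℕ × ℕ)) : Prop :=
  ∀ v : ℕ, D.countP (fun a => decide (a.1 = v)) = D.countP (fun a => decide (a.2 = v))

/-- `v` is a vertex of `D`. -/
def IsVertex (D : List (ℕ × ℕ)) (v : ℕ) : Prop := ∃ a ∈ D, v = a.1 ∨ v = a.2

/-- `pos` is a plane straight-line drawing of the underlying simple graph of `D`: different vertices
have different positions, no vertex lies on an edge of which it is not an end, and two edges with
different pairs of ends meet at most in a common end. -/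
structure IsPlaneDrawing (D : List (ℕ × ℕ)) (pos : ℕ → ℝ × ℝ) : Prop where
  inj : ∀ u v, IsVertex D u → IsVertex D v → pos u = pos v → u = v
  vertex : ∀ a ∈ D, ∀ w, IsVertex D w → pos w ∈ segment ℝ (pos a.1) (pos a.2) →
    w = a.1 ∨ w = a.2
  edge : ∀ a ∈ D, ∀ b ∈ D, s(a.1, a.2) ≠ s(b.1, b.2) → ∀ p, p ∈ segment ℝ (pos a.1) (pos a.2) →
    p ∈ segment ℝ (pos b.1) (pos b.2) → ∃ w, p = pos w ∧ (w = a.1 ∨ w = a.2) ∧ (w = b.1 ∨ w = b.2)

/-- `D` is planar: its underlying undirected graph has a plane straight-line drawing.  (For finite
graphs this is the usual notion by Fáry's theorem; parallel edges do not matter for planarity.) -/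
def Planar (D : List (ℕ × ℕ)) : Prop := ∃ pos : ℕ → ℝ × ℝ, IsPlaneDrawing D pos

/-- The instances of the problem PLANAR-MIN-DCD: planar Eulerian digraphs with a number. -/
def IsInput (x : List (ℕ × ℕ) × ℕ) : Prop := Loopless x.1 ∧ Eulerian x.1 ∧ Planar x.1

/-- The question of the problem PLANAR-MIN-DCD: is `c(D) ≤ k`? -/
def MinDCD (x : List (ℕ × ℕ) × ℕ) : Prop := CycLE (tl x.1) (hd x.1) x.2

end Pool.Agent.K6.H49.DC
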