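import Pool.Agent.K6.H49.DC.Abs

/-!
# Wire diagrams

A wire diagram consists of wires, each of which is a sequence of visits of gadgets; a gadget is
visited at most twice, with the roles `false` and `true`.  There is one more vertex, at which all
wires start and end.  A gadget is either a single vertex (`opt`), or it consists of two vertices
joined by two arcs in opposite directions; then each visit enters at one vertex and leaves at the
other one.
-/

set_option autoImplicit false

namespace Pool.Agent.K6.H49.DC

/-- Wire diagrams. -/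
structure Diagram (G : Type) where
  nw : ℕ
  len : ℕ → ℕ
  vis : ℕ → ℕ → G × Bool
  opt : G → Bool

namespace Diagram

variable {G : Type} (d : Diagram G)

/-- The vertex at which a visit enters. -/
def inV (v : G × Bool) : G × Bool := if d.opt v.1 then (v.1, false) else v

/-- The vertex at which a visit leaves. -/
def outV (v : G × Bool) : G × Bool := if d.opt v.1 then (v.1, false) else (v.1, !v.2)

/-- Arcs: `(w, q, false)` leads to the visit `q` of the wire `w`, `(w, q, true)` is the arc inside
the gadget of this visit. -/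
def IsArc (a : ℕ × ℕ × Bool) : Prop :=
  a.1 < d.nw ∧ ((a.2.2 = false ∧ a.2.1 ≤ d.len a.1) ∨
    (a.2.2 = true ∧ a.2.1 < d.len a.1 ∧ d.opt (d.vis a.1 a.2.1).1 = false))

def tailA (a : ℕ × ℕ × Bool) : Option (G × Bool) :=
  if a.2.2 then some (d.vis a.1 a.2.1) else
    if a.2.1 = 0 then none else some (d.outV (d.vis a.1 (a.2.1 - 1)))

def headA (a : ℕ × ℕ × Bool) : Option (G × Bool) :=
  if a.2.2 then some ((d.vis a.1 a.2.1).1, !(d.vis a.1 a.2.1).2) else
    if a.2.1 = d.len a.1 then none else some (d.inV (d.vis a.1 a.2.1))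

/-- Valid visits. -/
def Ok (w q : ℕ) : Prop := w < d.nw ∧ q < d.len w

structure Good : Prop where
  len_pos : ∀ w < d.nw, 1 ≤ d.len w
  inj : ∀ w q w' q', d.Ok w q → d.Ok w' q' → d.vis w q = d.vis w' q' → w = w' ∧ q = q'
  cons : ∀ w q, w < d.nw → q + 1 < d.len w → (d.vis w q).1 ≠ (d.vis w (q + 1)).1

/-- The arcs as a type. -/
abbrev Arc : Type := {a : ℕ × ℕ × Bool // d.IsArc a}

variable {d}

theorem isArc_link {w q : ℕ} (hw : w < d.nw) (hq : q ≤ d.len w) : d.IsArc (w, q, false) :=
  ⟨hw, Or.inl ⟨rfl, hq⟩⟩

theorem isArc_inner {w q : ℕ} (h : d.Ok w q) (ho : d.opt (d.vis w q).1 = false) :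
    d.IsArc (w, q, true) := ⟨h.1, Or.inr ⟨rfl, h.2, ho⟩⟩

theorem headA_link {w q : ℕ} (h : d.Ok w q) :
    d.headA (w, q, false) = some (d.inV (d.vis w q)) := by
  unfold headA
  have := h.2
  simp [this.ne]

theorem tailA_link (w q : ℕ) :
    d.tailA (w, q + 1, false) = some (d.outV (d.vis w q)) := by
  unfold tailA
  simp

theorem outV_fst (v : G × Bool) : (d.outV v).1 = v.1 := by
  unfold outV
  split_ifs <;> rfl

theorem inV_fst (v : G × Bool) : (d.inV v).1 = v.1 := by
  unfold inV
  split_ifs <;> rfl

/-- The arcs which leave a vertex of a gadget. -/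
theorem tailA_eq {a : ℕ × ℕ × Bool} (ha : d.IsArc a) {v : G × Bool} (h : d.tailA a = some v) :
    (∃ w q, d.Ok w q ∧ d.opt v.1 = false ∧ a = (w, q, true) ∧ d.vis w q = v) ∨
      ∃ w q, d.Ok w q ∧ a = (w, q + 1, false) ∧ d.outV (d.vis w q) = v := by
  obtain ⟨w, q, b⟩ := a
  obtain ⟨hw, hq⟩ := ha
  simp only at hw hq
  unfold tailA at h
  cases b
  · right
    simp only [Bool.false_eq_true, false_and, or_false, true_and, if_false] at hq h
    by_cases h0 : q = 0
    · rw [if_pos h0] at h
      exact absurd h (by simp)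
    · rw [if_neg h0] at h
      obtain ⟨q', rfl⟩ : ∃ q', q = q' + 1 := ⟨q - 1, by omega⟩
      rw [Nat.add_sub_cancel] at h
      exact ⟨w, q', ⟨hw, by omega⟩, rfl, Option.some.inj h⟩
  · left
    simp only [reduceCtorEq, false_and, true_and, false_or, if_true] at hq h
    have h' := Option.some.inj h
    exact ⟨w, q, ⟨hw, hq.1⟩, by rw [← h']; exact hq.2, rfl, h'⟩

/-- The arcs which enter a vertex of a gadget. -/
theorem headA_eq {a : ℕ × ℕ × Bool} (ha : d.IsArc a) {v : G × Bool} (h : d.headA a = some v) :
    (∃ w q, d.Ok w q ∧ d.opt v.1 = false ∧ a = (w, q, true) ∧ d.vis w q = (v.1, !v.2)) ∨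
      ∃ w q, d.Ok w q ∧ a = (w, q, false) ∧ d.inV (d.vis w q) = v := by
  obtain ⟨w, q, b⟩ := a
  obtain ⟨hw, hq⟩ := ha
  simp only at hw hq
  unfold headA at h
  cases b
  · right
    simp only [Bool.false_eq_true, false_and, or_false, true_and, if_false] at hq h
    by_cases h0 : q = d.len w
    · rw [if_pos h0] at h
      exact absurd h (by simp)
    · rw [if_neg h0] at h
      exact ⟨w, q, ⟨hw, by omega⟩, rfl, Option.some.inj h⟩
  · left
    simp only [reduceCtorEq, false_and, true_and, false_or, if_true] at hq h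
    have h' := Option.some.inj h
    refine ⟨w, q, ⟨hw, hq.1⟩, ?_, rfl, ?_⟩
    · rw [← h']
      exact hq.2
    · rw [← h']
      simp

theorem headA_none {a : ℕ × ℕ × Bool} (ha : d.IsArc a) (h : d.headA a = none) :
    a = (a.1, d.len a.1, false) := by
  obtain ⟨w, q, b⟩ := a
  unfold headA at h
  cases b
  · simp only [Bool.false_eq_true, if_false] at h
    by_cases h0 : q = d.len w
    · simp [h0]
    · rw [if_neg h0] at h
      simp at h
  · simp at h

theorem tailA_none {a : ℕ × ℕ × Bool} (h : d.tailA a = none) : a = (a.1, 0, false) := by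
  obtain ⟨w, q, b⟩ := a
  unfold tailA at h
  cases b
  · simp only [Bool.false_eq_true, if_false] at h
    by_cases h0 : q = 0
    · simp [h0]
    · rw [if_neg h0] at h
      simp at h
  · simp at h

/-- The arcs which leave the common vertex of the wires. -/
noncomputable def starts (d : Diagram G) : Finset d.Arc :=
  Finset.univ.image fun w : Fin d.nw =>
    (⟨(w, 0, false), isArc_link w.2 (Nat.zero_le _)⟩ : d.Arc)

theorem card_starts : d.starts.card = d.nw := by
  classical
  unfold starts
  rw [Finset.card_image_of_injective, Finset.card_univ, Fintype.card_fin]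
  intro a b hab
  simp only [Subtype.mk.injEq, Prod.mk.injEq, and_true] at hab
  exact Fin.ext hab

theorem tail_of_mem_starts {a : d.Arc} (h : a ∈ d.starts) : d.tailA a.1 = none := by
  unfold starts at h
  rw [Finset.mem_image] at h
  obtain ⟨w, _, rfl⟩ := h
  simp [tailA]

theorem mem_starts {a : d.Arc} (h : d.tailA a.1 = none) : a ∈ d.starts := by
  unfold starts
  rw [Finset.mem_image]
  refine ⟨⟨a.1.1, a.2.1⟩, Finset.mem_univ _, ?_⟩
  apply Subtype.ext
  exact (tailA_none h).symm

/-- **The rules for the colours given by a decomposition.** -/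
theorem rules (hd : d.Good) (h : CycLE (fun a : d.Arc => d.tailA a.1) (fun a => d.headA a.1) d.nw) :
    ∃ (Γ : Type) (κ : ℕ → ℕ → Γ),
      (∀ w q, d.Ok w q → d.opt (d.vis w q).1 = true →
        (∀ w' q', d.Ok w' q' → (d.vis w' q').1 = (d.vis w q).1 → w' = w ∧ q' = q) →
        κ w (q + 1) = κ w q) ∧
      (∀ w q w' q', d.Ok w q → d.Ok w' q' → (d.vis w' q') = ((d.vis w q).1, !(d.vis w q).2) →
        d.opt (d.vis w q).1 = false → κ w (q + 1) = κ w q ∧ κ w q ≠ κ w' q') ∧
      (∀ w q w' q', d.Ok w q → d.Ok w' q' → (d.vis w' q') = ((d.vis w q).1, !(d.vis w q).2) →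
        d.opt (d.vis w q).1 = true → κ w q ≠ κ w' q' ∧
          ((κ w (q + 1) = κ w q ∧ κ w' (q' + 1) = κ w' q') ∨
            (κ w (q + 1) = κ w' q' ∧ κ w' (q' + 1) = κ w q))) := by
  classical
  obtain ⟨P, hP, hcard⟩ := h
  obtain ⟨K, hK1, hK2, hK3, hK4⟩ := exists_classes _ _ hP none d.starts
    (fun a ha => tail_of_mem_starts ha) (by rw [card_starts]; exact hcard)
  let κ : ℕ → ℕ → Set d.Arc := fun w q =>
    if h : d.IsArc (w, q, false) then K ⟨(w, q, false), h⟩ else ∅
  have hκ : ∀ w q (h : d.IsArc (w, q, false)), κ w q = K ⟨(w, q, false), h⟩ := fun w q h => by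
    simp only [κ, dif_pos h]
  -- the successor of a link to an optional gadget
  have hsucc : ∀ w q, d.Ok w q → d.opt (d.vis w q).1 = true → ∃ w' q', d.Ok w' q' ∧
      (d.vis w' q').1 = (d.vis w q).1 ∧ κ w' (q' + 1) = κ w q := by
    intro w q hok ho
    have ha := isArc_link hok.1 hok.2.le
    obtain ⟨b, hb1, hb2⟩ := hK1 ⟨(w, q, false), ha⟩
    simp only [headA_link hok] at hb1
    rcases tailA_eq b.2 hb1 with ⟨w', q', _, h2, _⟩ | ⟨w', q', h1, h2, h3⟩
    · rw [inV_fst, ho] at h2
      exact absurd h2 (by simp)
    · refine ⟨w', q', h1, ?_, ?_⟩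
      · rw [← outV_fst (d := d), h3, inV_fst]
      · rw [hκ _ _ (isArc_link h1.1 h1.2), hκ _ _ ha, ← hb2]
        congr 1
        exact Subtype.ext h2.symm
  refine ⟨Set d.Arc, κ, ?_, ?_, ?_⟩
  · intro w q hok ho hu
    obtain ⟨w', q', h1, h2, h3⟩ := hsucc w q hok ho
    obtain ⟨rfl, rfl⟩ := hu w' q' h1 h2
    exact h3
  · intro w q w' q' hok hok' hv ho
    have ho' : d.opt (d.vis w' q').1 = false := by rw [hv]; exact ho
    have ha := isArc_link hok.1 hok.2.le
    have hi := isArc_inner hok ho
    have ha' := isArc_link hok'.1 hok'.2.le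
    have hi' := isArc_inner hok' ho'
    have hn := isArc_link hok.1 hok.2
    set a : d.Arc := ⟨(w, q, false), ha⟩ with hadef
    set i : d.Arc := ⟨(w, q, true), hi⟩ with hidef
    set a' : d.Arc := ⟨(w', q', false), ha'⟩ with hadef'
    set i' : d.Arc := ⟨(w', q', true), hi'⟩ with hidef'
    set n : d.Arc := ⟨(w, q + 1, false), hn⟩ with hndef
    have hne : ¬ (w = w' ∧ q = q') := by
      rintro ⟨rfl, rfl⟩
      have := congrArg Prod.snd hv
      simp at this
    have hii' : K i ≠ K i' := by
      intro h
      have h1 : i ≠ i' := by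
        intro h2
        simp only [hidef, hidef', Subtype.mk.injEq, Prod.mk.injEq, and_true] at h2
        exact hne h2
      rcases hK4 i i' h1 (by simp [hidef, hidef', tailA, headA, hv])
        (by simp [hidef, hidef', tailA, headA, hv]) h with h2 | h2
      · simp [hidef, tailA] at h2
      · simp [hidef', tailA] at h2
    -- the link enters the inner arc
    have key : ∀ (w q w' q' : ℕ) (hok : d.Ok w q) (hok' : d.Ok w' q')
        (hv : d.vis w' q' = ((d.vis w q).1, !(d.vis w q).2)) (ho : d.opt (d.vis w q).1 = false)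
        (ho' : d.opt (d.vis w' q').1 = false),
        K ⟨_, isArc_inner hok ho⟩ ≠ K ⟨_, isArc_inner hok' ho'⟩ →
        K ⟨_, isArc_inner hok' ho'⟩ = K ⟨_, isArc_link hok'.1 hok'.2⟩ ∧
        K ⟨_, isArc_link hok.1 hok.2.le⟩ = K ⟨_, isArc_inner hok ho⟩ := by
      intro w q w' q' hok hok' hv ho ho' hdiff
      have hout : ∀ x : d.Arc, d.tailA x.1 = some (d.vis w q) →
          x = ⟨_, isArc_inner hok ho⟩ ∨ x = ⟨_, isArc_link hok'.1 hok'.2⟩ := by
        intro x hx
        rcases tailA_eq x.2 hx with ⟨w1, q1, h1, _, h2, h3⟩ | ⟨w1, q1, h1, h2, h3⟩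
        · left
          obtain ⟨rfl, rfl⟩ := hd.inj _ _ _ _ h1 hok h3
          exact Subtype.ext h2
        · right
          have h4 : d.vis w1 q1 = d.vis w' q' := by
            have e1 : (d.vis w1 q1).1 = (d.vis w q).1 := by rw [← outV_fst (d := d), h3]
            unfold outV at h3
            rw [e1, ho] at h3
            have e2 : (!(d.vis w1 q1).2) = (d.vis w q).2 := by
              have := congrArg Prod.snd h3
              simpa using this
            rw [hv]
            refine Prod.ext e1 ?_
            simp only [← e2, Bool.not_not]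
          obtain ⟨rfl, rfl⟩ := hd.inj _ _ _ _ h1 hok' h4
          exact Subtype.ext h2
      have hin : d.inV (d.vis w q) = d.vis w q := by
        unfold inV
        rw [ho]
        simp
      have h1 : K ⟨_, isArc_inner hok' ho'⟩ = K ⟨_, isArc_link hok'.1 hok'.2⟩ := by
        obtain ⟨b, hb1, hb2⟩ := hK1 ⟨_, isArc_inner hok' ho'⟩
        have hb1' : d.tailA b.1 = some (d.vis w q) := by
          rw [hb1]
          simp [headA, hv]
        rcases hout b hb1' with rfl | rfl
        · exact absurd hb2 hdiff
        · exact hb2.symm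
      refine ⟨h1, ?_⟩
      obtain ⟨b, hb1, hb2⟩ := hK1 ⟨_, isArc_link hok.1 hok.2.le⟩
      have hb1' : d.tailA b.1 = some (d.vis w q) := by
        rw [hb1, headA_link hok, hin]
      rcases hout b hb1' with rfl | rfl
      · exact hb2.symm
      · exfalso
        rw [← h1] at hb2
        refine hK3 _ _ ?_ ?_ hb2
        · intro h
          simp at h
        · simp only [headA_link hok, hin]
          simp [headA, hv]
    have hv' : d.vis w q = ((d.vis w' q').1, !(d.vis w' q').2) := by
      rw [hv]
      simp
    obtain ⟨k1, k2⟩ := key w q w' q' hok hok' hv ho ho' hii'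
    obtain ⟨k3, k4⟩ := key w' q' w q hok' hok hv' ho' ho (Ne.symm hii')
    rw [hκ _ _ hn, hκ _ _ ha, hκ _ _ ha']
    refine ⟨by rw [← k3, k2], ?_⟩
    rw [k2, k4]
    exact hii'
  · intro w q w' q' hok hok' hv ho
    have ho' : d.opt (d.vis w' q').1 = true := by rw [hv]; exact ho
    have ha := isArc_link hok.1 hok.2.le
    have ha' := isArc_link hok'.1 hok'.2.le
    have hne : ¬ (w = w' ∧ q = q') := by
      rintro ⟨rfl, rfl⟩
      have := congrArg Prod.snd hv
      simp at this
    have hdiff : κ w q ≠ κ w' q' := by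
      rw [hκ _ _ ha, hκ _ _ ha']
      refine hK3 _ _ ?_ ?_
      · intro h
        simp only [Subtype.mk.injEq, Prod.mk.injEq, and_true] at h
        exact hne h
      · simp only [headA_link hok, headA_link hok']
        unfold inV
        rw [ho, ho', hv]
        simp
    have huniq : ∀ w1 q1, d.Ok w1 q1 → (d.vis w1 q1).1 = (d.vis w q).1 →
        (w1 = w ∧ q1 = q) ∨ (w1 = w' ∧ q1 = q') := by
      intro w1 q1 h1 h2
      by_cases h3 : (d.vis w1 q1).2 = (d.vis w q).2
      · left
        exact hd.inj _ _ _ _ h1 hok (Prod.ext h2 h3)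
      · right
        refine hd.inj _ _ _ _ h1 hok' ?_
        rw [hv]
        refine Prod.ext h2 ?_
        simp only
        revert h3
        cases (d.vis w1 q1).2 <;> cases (d.vis w q).2 <;> simp
    refine ⟨hdiff, ?_⟩
    obtain ⟨w1, q1, h1, h2, h3⟩ := hsucc w q hok ho
    obtain ⟨w2, q2, h4, h5, h6⟩ := hsucc w' q' hok' ho'
    have h5' : (d.vis w2 q2).1 = (d.vis w q).1 := by rw [h5, hv]
    rcases huniq w1 q1 h1 h2 with ⟨rfl, rfl⟩ | ⟨rfl, rfl⟩ <;>
      rcases huniq w2 q2 h4 h5' with ⟨rfl, rfl⟩ | ⟨rfl, rfl⟩
    · exact absurd (h3.symm.trans h6) hdiff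
    · exact Or.inl ⟨h3, h6⟩
    · exact Or.inr ⟨h6, h3⟩
    · exact absurd (h3.symm.trans h6) hdiff

theorem finite_arc (d : Diagram G) : Finite d.Arc := by
  classical
  have hB : ∀ w < d.nw, d.len w ≤ ∑ w ∈ Finset.range d.nw, d.len w := fun w hw =>
    Finset.single_le_sum (f := d.len) (fun _ _ => Nat.zero_le _) (Finset.mem_range.2 hw)
  have : {a : ℕ × ℕ × Bool | d.IsArc a}.Finite := by
    refine Set.Finite.subset ((Set.finite_Iio d.nw).prod
      ((Set.finite_Iio (∑ w ∈ Finset.range d.nw, d.len w + 1)).prod (Set.finite_univ (α := Bool))))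
      ?_
    rintro ⟨w, q, b⟩ ⟨h1, h2⟩
    have h3 := hB w h1
    refine ⟨h1, ?_, trivial⟩
    simp only at h2
    simp only [Set.mem_Iio]
    rcases h2 with h2 | h2 <;> omega
  exact this.to_subtype

/-- **Colours give a decomposition.** -/
theorem cycLE (hd : d.Good) (κ : ℕ → ℕ → ℕ) (rk : ℕ → ℕ → ℕ)
    (h0 : ∀ w < d.nw, κ w 0 = w) (hlast : ∀ w < d.nw, κ w (d.len w) < d.nw)
    (hinj : ∀ w < d.nw, ∀ w' < d.nw, κ w (d.len w) = κ w' (d.len w') → w = w')
    (hrk : ∀ w q, w < d.nw → q + 1 < d.len w → rk w q < rk w (q + 1))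
    (h1 : ∀ w q, d.Ok w q → d.opt (d.vis w q).1 = true →
        (∀ w' q', d.Ok w' q' → (d.vis w' q').1 = (d.vis w q).1 → w' = w ∧ q' = q) →
        κ w (q + 1) = κ w q)
    (h2 : ∀ w q w' q', d.Ok w q → d.Ok w' q' → (d.vis w' q') = ((d.vis w q).1, !(d.vis w q).2) →
        d.opt (d.vis w q).1 = false → κ w q ≠ κ w' q')
    (h2' : ∀ w q, d.Ok w q → d.opt (d.vis w q).1 = false → κ w (q + 1) = κ w q)
    (h3 : ∀ w q w' q', d.Ok w q → d.Ok w' q' → (d.vis w' q') = ((d.vis w q).1, !(d.vis w q).2) →
        d.opt (d.vis w q).1 = true → rk w q = rk w' q' ∧ κ w q ≠ κ w' q' ∧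
          ((κ w (q + 1) = κ w q ∧ κ w' (q' + 1) = κ w' q') ∨
            (κ w (q + 1) = κ w' q' ∧ κ w' (q' + 1) = κ w q))) :
    CycLE (fun a : d.Arc => d.tailA a.1) (fun a => d.headA a.1) d.nw := by
  classical
  have := finite_arc d
  have hmain := cycLE_of_colours (fun a : d.Arc => d.tailA a.1) (fun a => d.headA a.1) none
    (fun a => κ a.1.1 a.1.2.1)
    (fun a => if a.1.2.2 then 2 * rk a.1.1 a.1.2.1 + 1 else
      if a.1.2.1 = 0 then 0 else 2 * rk a.1.1 (a.1.2.1 - 1) + 2) ?_ ?_ ?_ d.starts
    (fun a ha => mem_starts ha)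
  · rw [card_starts] at hmain
    exact hmain
  · rintro ⟨⟨w, q, b⟩, ha⟩
    cases b
    · -- a link
      by_cases hq : q = d.len w
      · subst hq
        have hw : w < d.nw := ha.1
        have hl := hlast w hw
        refine ⟨⟨(κ w (d.len w), 0, false), isArc_link hl (Nat.zero_le _)⟩, ?_, ?_, ?_⟩
        · simp [tailA, headA]
        · simp [h0 _ hl]
        · intro h
          exact absurd (by simp [headA]) h
      · have hok : d.Ok w q := by
          have h4 : q ≤ d.len w := by
            rcases ha.2 with h | h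
            · exact h.2
            · exact h.2.1.le
          exact ⟨ha.1, by omega⟩
        cases ho : d.opt (d.vis w q).1
        · refine ⟨⟨(w, q, true), isArc_inner hok ho⟩, ?_, rfl, fun _ => ?_⟩
          · rw [headA_link hok]
            simp [tailA, inV, ho]
          · simp only [Bool.false_eq_true, if_false, if_true]
            split_ifs with h
            · omega
            · have := hrk w (q - 1) hok.1 (by have := hok.2; omega)
              rw [show q - 1 + 1 = q by omega] at this
              omega
        · -- optional gadget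
          have hrank : ∀ w' q', rk w q = rk w' q' → (if q = 0 then 0 else 2 * rk w (q - 1) + 2) <
              2 * rk w' q' + 2 := by
            intro w' q' h
            split_ifs with h4
            · omega
            · have := hrk w (q - 1) hok.1 (by have := hok.2; omega)
              rw [show q - 1 + 1 = q by omega] at this
              omega
          by_cases hu : ∀ w' q', d.Ok w' q' → (d.vis w' q').1 = (d.vis w q).1 → w' = w ∧ q' = q
          · refine ⟨⟨(w, q + 1, false), isArc_link hok.1 hok.2⟩, ?_, h1 w q hok ho hu, fun _ => ?_⟩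
            · rw [headA_link hok, tailA_link]
              simp [inV, outV, ho]
            · simpa using hrank w q rfl
          · push Not at hu
            obtain ⟨w', q', hok', hv, hne⟩ := hu
            have hv' : d.vis w' q' = ((d.vis w q).1, !(d.vis w q).2) := by
              refine Prod.ext hv ?_
              by_contra h4
              have h5 : (d.vis w' q').2 = (d.vis w q).2 := by
                revert h4
                cases (d.vis w' q').2 <;> cases (d.vis w q).2 <;> simp
              obtain ⟨h6, h7⟩ := hd.inj _ _ _ _ hok' hok (Prod.ext hv h5)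
              exact hne h6 h7
            obtain ⟨hr, _, h4 | h4⟩ := h3 w q w' q' hok hok' hv' ho
            · refine ⟨⟨(w, q + 1, false), isArc_link hok.1 hok.2⟩, ?_, h4.1, fun _ => ?_⟩
              · rw [headA_link hok, tailA_link]
                simp [inV, outV, ho]
              · simpa using hrank w q rfl
            · refine ⟨⟨(w', q' + 1, false), isArc_link hok'.1 hok'.2⟩, ?_, h4.2, fun _ => ?_⟩
              · rw [headA_link hok, tailA_link]
                simp [inV, outV, ho, hv']
              · simpa using hrank w' q' hr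
    · -- an inner arc
      have hok : d.Ok w q := by
        rcases ha.2 with h | h
        · simp at h
        · exact ⟨ha.1, h.2.1⟩
      have ho : d.opt (d.vis w q).1 = false := by
        rcases ha.2 with h | h
        · simp at h
        · exact h.2.2
      refine ⟨⟨(w, q + 1, false), isArc_link hok.1 hok.2⟩, ?_, h2' w q hok ho, fun _ => ?_⟩
      · rw [tailA_link]
        simp [headA, outV, ho]
      · simp
  · rintro ⟨a, ha⟩ ⟨b, hb⟩ hh hc
    simp only at hh hc
    apply Subtype.ext
    simp only
    rcases hx : d.headA a with _ | v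
    · have e1 := headA_none ha hx
      rw [hx] at hh
      have e2 := headA_none hb hh.symm
      rw [e1, e2] at hc ⊢
      simp only at hc
      have := hinj _ ha.1 _ hb.1 hc
      rw [this]
    · rw [hx] at hh
      rcases headA_eq ha hx with ⟨w, q, hok, ho, rfl, hv⟩ | ⟨w, q, hok, rfl, hv⟩ <;>
        rcases headA_eq hb hh.symm with ⟨w', q', hok', ho', rfl, hv'⟩ | ⟨w', q', hok', rfl, hv'⟩
      · obtain ⟨rfl, rfl⟩ := hd.inj _ _ _ _ hok hok' (hv.trans hv'.symm)
        rfl
      · exfalso
        have h4 : d.vis w' q' = v := by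
          have h5 : (d.vis w' q').1 = v.1 := by rw [← inV_fst (d := d), hv']
          unfold inV at hv'
          rw [h5, ho] at hv'
          simpa using hv'
        refine h2 w q w' q' hok hok' ?_ ?_ hc
        · rw [h4, hv]
          simp
        · rw [hv]
          exact ho
      · exfalso
        have h4 : d.vis w q = v := by
          have h5 : (d.vis w q).1 = v.1 := by rw [← inV_fst (d := d), hv]
          unfold inV at hv
          rw [h5, ho'] at hv
          simpa using hv
        refine h2 w q w' q' hok hok' ?_ ?_ hc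
        · rw [h4, hv']
        · rw [h4]
          exact ho'
      · have e1 : (d.vis w q).1 = v.1 := by rw [← inV_fst (d := d), hv]
        have e2 : (d.vis w' q').1 = v.1 := by rw [← inV_fst (d := d), hv']
        by_cases h5 : (d.vis w q).2 = (d.vis w' q').2
        · obtain ⟨rfl, rfl⟩ := hd.inj _ _ _ _ hok hok' (Prod.ext (e1.trans e2.symm) h5)
          rfl
        · exfalso
          have h6 : d.vis w' q' = ((d.vis w q).1, !(d.vis w q).2) := by
            refine Prod.ext (e2.trans e1.symm) ?_
            revert h5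
            cases (d.vis w q).2 <;> cases (d.vis w' q').2 <;> simp
          cases ho : d.opt (d.vis w q).1
          · exact h2 w q w' q' hok hok' h6 ho hc
          · exact (h3 w q w' q' hok hok' h6 ho).2.1 hc
  · rintro ⟨⟨w, q, b⟩, ha⟩ hth
    simp only at hth
    cases b
    · by_cases hq : q = d.len w
      · subst hq
        have hpos := hd.len_pos w ha.1
        obtain ⟨l, hl⟩ : ∃ l, d.len w = l + 1 := ⟨d.len w - 1, by omega⟩
        have h4 : d.headA (w, d.len w, false) = none := by simp [headA]
        rw [h4, hl, tailA_link] at hth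
        simp at hth
      · have hok : d.Ok w q := by
          have h4 : q ≤ d.len w := by
            rcases ha.2 with h | h
            · exact h.2
            · exact h.2.1.le
          exact ⟨ha.1, by omega⟩
        rw [headA_link hok] at hth
        rcases q with _ | q
        · simp [tailA] at hth
        · rw [tailA_link] at hth
          have h4 := congrArg Prod.fst (Option.some.inj hth)
          rw [outV_fst, inV_fst] at h4
          exact hd.cons w q ha.1 hok.2 h4
    · simp only [tailA, headA, if_true, Option.some.injEq] at hth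
      have := congrArg Prod.snd hth
      simp at this

end Diagram

end Pool.Agent.K6.H49.DC
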