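import Pool.Agent.K6.H49.DC.Diag

/-!
# The digraph of a wire diagram, as a list of arcs
-/

set_option autoImplicit false

namespace Pool.Agent.K6.H49.DC

theorem cycLE_equiv {α β V : Type} (e : β ≃ α) {tail head : α → V} {k : ℕ}
    (h : CycLE tail head k) : CycLE (fun b => tail (e b)) (fun b => head (e b)) k := by
  classical
  obtain ⟨P, ⟨h1, h2⟩, h3⟩ := h
  refine ⟨P.image fun C => e ⁻¹' C, ⟨?_, ?_⟩, Finset.card_image_le.trans h3⟩
  · intro C hC
    rw [Finset.mem_image] at hC
    obtain ⟨C, hC, rfl⟩ := hC
    obtain ⟨l, hl0, hl1, hl2, hl3⟩ := h1 C hC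
    refine ⟨l.map e.symm, by simpa using hl0, ?_, ?_, ?_⟩
    · intro b
      rw [Set.mem_preimage, hl1, List.mem_map]
      constructor
      · intro hb
        exact ⟨e b, hb, by simp⟩
      · rintro ⟨a, ha, rfl⟩
        simpa using ha
    · rw [List.map_map]
      have : ((fun b => tail (e b)) ∘ e.symm) = tail := by
        funext a
        simp
      rw [this]
      exact hl2
    · intro i hi
      rw [List.length_map] at hi
      simp only [List.getElem_map, List.length_map, Equiv.apply_symm_apply]
      exact hl3 i hi
  · intro b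
    obtain ⟨C, ⟨hC1, hC2⟩, hC3⟩ := h2 (e b)
    refine ⟨e ⁻¹' C, ⟨Finset.mem_image_of_mem _ hC1, hC2⟩, ?_⟩
    rintro C' ⟨hC', hb⟩
    rw [Finset.mem_image] at hC'
    obtain ⟨C'', hC'', rfl⟩ := hC'
    rw [hC3 C'' ⟨hC'', hb⟩]

theorem cycLE_equiv_iff {α β V : Type} (e : β ≃ α) {tail head : α → V} {k : ℕ} :
    CycLE (fun b => tail (e b)) (fun b => head (e b)) k ↔ CycLE tail head k := by
  constructor
  · intro h
    have := cycLE_equiv e.symm h
    simpa using this
  · exact cycLE_equiv e

theorem isDirCycle_comp {α V W : Type} {tail head : α → V} (f : V → W) (X : Set V)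
    (hf : Set.InjOn f X) (ht : ∀ a, tail a ∈ X) (hh : ∀ a, head a ∈ X) (C : Set α) :
    IsDirCycle (fun a => f (tail a)) (fun a => f (head a)) C ↔ IsDirCycle tail head C := by
  constructor
  · rintro ⟨l, h0, h1, h2, h3⟩
    refine ⟨l, h0, h1, ?_, fun i hi => hf (hh _) (ht _) (h3 i hi)⟩
    have : l.map (fun a => f (tail a)) = (l.map tail).map f := by simp
    rw [this] at h2
    exact List.Nodup.of_map f h2
  · rintro ⟨l, h0, h1, h2, h3⟩
    refine ⟨l, h0, h1, ?_, fun i hi => by simp only [h3 i hi]⟩
    have : l.map (fun a => f (tail a)) = (l.map tail).map f := by simp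
    rw [this]
    refine h2.map_on fun x hx y hy hxy => ?_
    rw [List.mem_map] at hx hy
    obtain ⟨a, _, rfl⟩ := hx
    obtain ⟨b, _, rfl⟩ := hy
    exact hf (ht a) (ht b) hxy

theorem cycLE_comp {α V W : Type} {tail head : α → V} (f : V → W) (X : Set V)
    (hf : Set.InjOn f X) (ht : ∀ a, tail a ∈ X) (hh : ∀ a, head a ∈ X) (k : ℕ) :
    CycLE (fun a => f (tail a)) (fun a => f (head a)) k ↔ CycLE tail head k := by
  unfold CycLE IsDecomposition
  simp only [isDirCycle_comp f X hf ht hh]

namespace Diagram

variable {G : Type} (d : Diagram G)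

/-- The arcs of a visit. -/
def visArcs (w q : ℕ) : List (ℕ × ℕ × Bool) :=
  (w, q, false) :: (if d.opt (d.vis w q).1 then [] else [(w, q, true)])

/-- The list of the arcs. -/
def arcList : List (ℕ × ℕ × Bool) :=
  (List.range d.nw).flatMap fun w =>
    (List.range (d.len w)).flatMap (fun q => d.visArcs w q) ++ [(w, d.len w, false)]

/-- The digraph. -/
def digraph (code : Option (G × Bool) → ℕ) : List (ℕ × ℕ) :=
  d.arcList.map fun a => (code (d.tailA a), code (d.headA a))

theorem mem_visArcs {w q : ℕ} {a : ℕ × ℕ × Bool} : a ∈ d.visArcs w q ↔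
    a.1 = w ∧ a.2.1 = q ∧ (a.2.2 = true → d.opt (d.vis w q).1 = false) := by
  obtain ⟨w', q', b⟩ := a
  unfold visArcs
  cases h : d.opt (d.vis w q).1 <;> cases b <;> simp [Prod.ext_iff]

theorem mem_arcList {a : ℕ × ℕ × Bool} : a ∈ d.arcList ↔ d.IsArc a := by
  unfold arcList IsArc
  simp only [List.mem_flatMap, List.mem_range, List.mem_append, mem_visArcs, List.mem_singleton]
  obtain ⟨w', q', b⟩ := a
  constructor
  · rintro ⟨w, hw, ⟨q, hq, h1, h2, h3⟩ | h⟩
    · simp only at h1 h2 h3 ⊢
      subst h1 h2
      cases b
      · exact ⟨hw, Or.inl ⟨rfl, hq.le⟩⟩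
      · exact ⟨hw, Or.inr ⟨rfl, hq, h3 rfl⟩⟩
    · simp only [Prod.mk.injEq] at h
      obtain ⟨rfl, rfl, rfl⟩ := h
      exact ⟨hw, Or.inl ⟨rfl, le_rfl⟩⟩
  · rintro ⟨hw, ⟨h1, h2⟩ | ⟨h1, h2, h3⟩⟩
    · simp only at hw h1 h2
      subst h1
      refine ⟨w', hw, ?_⟩
      rcases Nat.lt_or_ge q' (d.len w') with h | h
      · exact Or.inl ⟨q', h, rfl, rfl, fun h => absurd h (by simp)⟩
      · right
        have : q' = d.len w' := by omega
        rw [this]
    · simp only at hw h1 h2 h3
      exact ⟨w', hw, Or.inl ⟨q', h2, rfl, rfl, fun _ => h3⟩⟩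

theorem nodup_arcList : d.arcList.Nodup := by
  unfold arcList
  rw [List.nodup_flatMap]
  refine ⟨?_, ?_⟩
  · intro w _
    rw [List.nodup_append]
    refine ⟨?_, List.nodup_singleton _, ?_⟩
    · rw [List.nodup_flatMap]
      refine ⟨?_, ?_⟩
      · intro q _
        unfold visArcs
        cases h : d.opt (d.vis w q).1 <;> simp
      · refine List.nodup_range.pairwise_of_forall_ne ?_
        intro q _ q' _ hqq
        change List.Disjoint _ _
        intro a ha ha'
        rw [mem_visArcs] at ha ha'
        exact hqq (ha.2.1.symm.trans ha'.2.1)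
    · intro a ha b hb hab
      rw [List.mem_flatMap] at ha
      obtain ⟨q, hq, ha⟩ := ha
      rw [mem_visArcs] at ha
      rw [List.mem_singleton] at hb
      rw [List.mem_range] at hq
      rw [hab, hb] at ha
      have := ha.2.1
      simp only at this
      omega
  · refine List.nodup_range.pairwise_of_forall_ne ?_
    intro w _ w' _ hww
    change List.Disjoint _ _
    intro a ha ha'
    rw [List.mem_append, List.mem_flatMap] at ha ha'
    have e1 : a.1 = w := by
      rcases ha with ⟨q, _, h⟩ | h
      · exact ((d.mem_visArcs).1 h).1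
      · rw [List.mem_singleton] at h
        rw [h]
    have e2 : a.1 = w' := by
      rcases ha' with ⟨q, _, h⟩ | h
      · exact ((d.mem_visArcs).1 h).1
      · rw [List.mem_singleton] at h
        rw [h]
    exact hww (e1.symm.trans e2)

/-- The vertices which occur. -/
def occ : Set (Option (G × Bool)) := {v | ∃ a, d.IsArc a ∧ (v = d.tailA a ∨ v = d.headA a)}

theorem digraph_get (code : Option (G × Bool) → ℕ) (j : ℕ) (h : j < (d.digraph code).length)
    (h' : j < d.arcList.length) : (d.digraph code)[j] =
      (code (d.tailA d.arcList[j]), code (d.headA d.arcList[j])) := by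
  simp [digraph]

theorem minDCD_iff (code : Option (G × Bool) → ℕ) (hc : Set.InjOn code d.occ) (k : ℕ) :
    MinDCD (d.digraph code, k) ↔ CycLE (fun a : d.Arc => d.tailA a.1) (fun a => d.headA a.1) k := by
  classical
  have hlen : (d.digraph code).length = d.arcList.length := by simp [digraph]
  let e : Fin (d.digraph code).length ≃ d.Arc :=
    (finCongr hlen).trans ((List.Nodup.getEquiv d.arcList d.nodup_arcList).trans
      (Equiv.subtypeEquivRight fun a => d.mem_arcList))
  have he : ∀ i, (e i).1 = d.arcList[(i : ℕ)]'(by rw [← hlen]; exact i.2) := fun i => rfl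
  have h1 : tl (d.digraph code) = fun i => code (d.tailA (e i).1) := by
    funext i
    rw [he]
    exact congrArg Prod.fst (d.digraph_get code i i.2 (by rw [← hlen]; exact i.2))
  have h2 : hd (d.digraph code) = fun i => code (d.headA (e i).1) := by
    funext i
    rw [he]
    exact congrArg Prod.snd (d.digraph_get code i i.2 (by rw [← hlen]; exact i.2))
  unfold MinDCD
  simp only [h1, h2]
  rw [cycLE_equiv_iff (tail := fun a : d.Arc => code (d.tailA a.1))
    (head := fun a : d.Arc => code (d.headA a.1)) e]
  exact cycLE_comp code d.occ hc (fun a : d.Arc => ⟨a.1, a.2, Or.inl rfl⟩)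
    (fun a : d.Arc => ⟨a.1, a.2, Or.inr rfl⟩) k

theorem eulerian (code : Option (G × Bool) → ℕ) : Eulerian (d.digraph code) := by
  intro v
  unfold digraph arcList
  rw [List.countP_map, List.countP_map, List.countP_flatMap, List.countP_flatMap]
  congr 1
  apply List.map_congr_left
  intro w _
  simp only [Function.comp_apply]
  rw [List.countP_append, List.countP_append]
  set tv : ℕ → ℕ := fun q => if code (d.tailA (w, q, false)) = v then 1 else 0 with htv
  have key : ∀ L ≤ d.len w,
      List.countP ((fun a : ℕ × ℕ => decide (a.1 = v)) ∘ fun a : ℕ × ℕ × Bool =>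
        (code (d.tailA a), code (d.headA a)))
        ((List.range L).flatMap fun q => d.visArcs w q) + tv L =
      List.countP ((fun a : ℕ × ℕ => decide (a.2 = v)) ∘ fun a : ℕ × ℕ × Bool =>
        (code (d.tailA a), code (d.headA a)))
        ((List.range L).flatMap fun q => d.visArcs w q) + tv 0 := by
    intro L
    induction L with
    | zero => intro _; simp
    | succ L ih =>
      intro hL
      have ih' := ih (by omega)
      rw [List.range_succ, List.flatMap_append, List.countP_append, List.countP_append]
      have hne : L ≠ d.len w := by omega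
      have h1 : d.headA (w, L, false) = some (d.inV (d.vis w L)) := by
        unfold headA
        simp [hne]
      have h2 := d.tailA_link w L
      have hmain : List.countP ((fun a : ℕ × ℕ => decide (a.1 = v)) ∘ fun a : ℕ × ℕ × Bool =>
          (code (d.tailA a), code (d.headA a))) (d.visArcs w L) + tv (L + 1) =
          List.countP ((fun a : ℕ × ℕ => decide (a.2 = v)) ∘ fun a : ℕ × ℕ × Bool =>
          (code (d.tailA a), code (d.headA a))) (d.visArcs w L) + tv L := by
        unfold visArcs
        simp only [htv]
        cases ho : d.opt (d.vis w L).1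
        · have h3 : d.headA (w, L, true) = some (d.outV (d.vis w L)) := by
            simp [headA, outV, ho]
          have h4 : d.tailA (w, L, true) = some (d.inV (d.vis w L)) := by
            simp [tailA, inV, ho]
          simp only [Bool.false_eq_true, if_false, List.countP_cons, List.countP_nil,
            Function.comp_apply, decide_eq_true_eq, h1, h2, h3, h4]
          omega
        · have h3 : d.inV (d.vis w L) = d.outV (d.vis w L) := by
            simp [inV, outV, ho]
          simp only [if_true, List.countP_cons, List.countP_nil,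
            Function.comp_apply, decide_eq_true_eq, h1, h2, h3]
          omega
      simp only [List.flatMap_cons, List.flatMap_nil, List.append_nil]
      omega
  have h := key (d.len w) le_rfl
  have h0 : d.tailA (w, 0, false) = none := by simp [tailA]
  have h1 : d.headA (w, d.len w, false) = none := by simp [headA]
  simp only [htv, h0] at h
  simp only [List.countP_cons, List.countP_nil, Function.comp_apply, decide_eq_true_eq, h1]
  omega

theorem loopless (hd : d.Good) (code : Option (G × Bool) → ℕ) (hc : Set.InjOn code d.occ) :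
    Loopless (d.digraph code) := by
  intro x hx
  unfold digraph at hx
  rw [List.mem_map] at hx
  obtain ⟨⟨w, q, b⟩, ha, rfl⟩ := hx
  rw [mem_arcList] at ha
  intro h
  have hth := hc ⟨_, ha, Or.inl rfl⟩ ⟨_, ha, Or.inr rfl⟩ h
  cases b
  · by_cases hq : q = d.len w
    · subst hq
      have hpos := hd.len_pos w ha.1
      obtain ⟨l, hl⟩ : ∃ l, d.len w = l + 1 := ⟨d.len w - 1, by omega⟩
      have h4 : d.headA (w, d.len w, false) = none := by simp [headA]
      rw [h4, hl, tailA_link] at hth
      simp at hth
    · have hok : d.Ok w q := by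
        have h4 : q ≤ d.len w := by
          rcases ha.2 with h | h
          · exact h.2
          · exact h.2.1.le
        exact ⟨ha.1, by omega⟩
      rw [headA_link hok] at hth
      rcases q with _ | q
      · simp [tailA] at hth
      · rw [tailA_link] at hth
        have h4 := congrArg Prod.fst (Option.some.inj hth)
        rw [outV_fst, inV_fst] at h4
        exact hd.cons w q ha.1 hok.2 h4
  · simp only [tailA, headA, if_true, Option.some.injEq] at hth
    have := congrArg Prod.snd hth
    simp at this

end Diagram

end Pool.Agent.K6.H49.DC
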