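import Pool.Agent.K6.H49.DC.Net
import Pool.Agent.Z85.LMD.Plane2

/-!
# The drawing: the segments meet only in common ends
-/

set_option autoImplicit false

namespace Pool.Agent.K6.H49.DC

open Pool.Agent.Z85.LMD

/-- The place in the cell of the vertex at which the horizontal wire enters. -/
def laN (ev up op : Bool) : ℕ × ℕ :=
  if op then (2, 2) else (if ev then 1 else 3, if up then 3 else 1)

/-- The place in the cell of the vertex at which the vertical wire enters. -/
def lbN (ev up op : Bool) : ℕ × ℕ :=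
  if op then (2, 2) else (if ev then 3 else 1, if up then 1 else 3)

/-- The edges in a cell. -/
def locE (ev up op : Bool) (t : ℕ) : (ℕ × ℕ) × (ℕ × ℕ) :=
  if t = 0 then (laN ev up op, lbN ev up op)
  else if t = 1 then (laN ev up op, (if ev then 0 else 4, 2))
  else if t = 2 then (laN ev up op, (2, if up then 4 else 0))
  else if t = 3 then (lbN ev up op, (2, if up then 0 else 4))
  else (lbN ev up op, (if ev then 4 else 0, 2))

/-- The point with the local coordinates `p` in the cell `(x, y)`. -/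
def shf (x y : ℕ) (p : ℕ × ℕ) : ℤ × ℤ := ((4 * x + p.1 : ℕ), (4 * y + 1 + p.2 : ℕ))

/-- The kinds of edges. -/
inductive Kd
  | cell (x y t : ℕ)
  | corner (j : ℕ)
  | left (j : ℕ)
  | top (i k : ℕ)
  | sv (x : ℕ)
  | sw (j : ℕ)
  | sh (j : ℕ)

/-- The column is directed upwards. -/
def isUp (x : ℕ) : Bool := decide (x % 4 = 0 ∨ x % 4 = 3)

/-- The row is even. -/
def isEv (y : ℕ) : Bool := decide (y % 2 = 0)

/-- The position of the common end of the wires. -/
def posS (m : ℕ) : ℤ × ℤ := ((64 * m + 10 : ℕ), 0)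

namespace Kd

/-- The first end. -/
def A (m : ℕ) (op : ℕ → ℕ → Bool) : Kd → ℤ × ℤ
  | cell x y t => shf x y (locE (isEv y) (isUp x) (op x y) t).1
  | corner j => ((48 * m + 2 : ℕ), (8 * j + 5 : ℕ))
  | left j => (0, (8 * j + 3 : ℕ))
  | top i _ => ((16 * i + 8 : ℕ), (8 * m + 3 : ℕ))
  | sv x => ((4 * x + 2 : ℕ), 1)
  | sw j => ((48 * m + 2 : ℕ), (8 * j + 1 : ℕ))
  | sh j => ((48 * m + 4 : ℕ), (8 * j + 3 : ℕ))

/-- The second end. -/
def B (m : ℕ) (op : ℕ → ℕ → Bool) : Kd → ℤ × ℤ
  | cell x y t => shf x y (locE (isEv y) (isUp x) (op x y) t).2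
  | corner j => ((48 * m : ℕ), (8 * j + 7 : ℕ))
  | left j => (0, (8 * j + 7 : ℕ))
  | top i k => ((16 * i + 4 * k + 2 : ℕ), (8 * m + 1 : ℕ))
  | sv _ => posS m
  | sw _ => posS m
  | sh _ => posS m

/-- The kinds which occur. -/
def Valid (m : ℕ) (op : ℕ → ℕ → Bool) : Kd → Prop
  | cell x y t => y < 2 * m ∧ (x < 12 * m ∨ (x = 12 * m ∧ y % 2 = 0)) ∧ t < 5 ∧
      (op x y = true → t ≠ 0)
  | corner j => j < m
  | left j => j < m
  | top i k => i < 3 * m ∧ k < 4
  | sv x => x < 12 * m
  | sw j => j < m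
  | sh j => j < m

end Kd

/-- Two segments meet only in common ends. -/
def Meet (A B C D : ℤ × ℤ) : Prop :=
  ∀ p : ℝ × ℝ, p ∈ segment ℝ (rp A) (rp B) → p ∈ segment ℝ (rp C) (rp D) →
    ∃ P, (P = A ∨ P = B) ∧ (P = C ∨ P = D) ∧ p = rp P

theorem Meet.symm {A B C D : ℤ × ℤ} (h : Meet A B C D) : Meet C D A B := by
  intro p h1 h2
  obtain ⟨P, h3, h4, h5⟩ := h p h2 h1
  exact ⟨P, h4, h3, h5⟩

theorem meet_sep {A B C D : ℤ × ℤ} (h : sep A B C D = true) : Meet A B C D := by
  intro p h1 h2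
  rcases sep_sound h h1 h2 with ⟨h3, h4⟩ | ⟨h3, h4⟩
  · exact ⟨A, Or.inl rfl, h4, h3⟩
  · exact ⟨B, Or.inr rfl, h4, h3⟩

theorem lf_neg (c p : ℤ × ℤ) : lf (-c) p = - lf c p := by
  unfold lf
  simp only [Prod.fst_neg, Prod.snd_neg]
  ring

theorem lfR_neg (c : ℤ × ℤ) (x : ℝ × ℝ) : lfR (-c) x = - lfR c x := by
  unfold lfR
  simp only [Prod.fst_neg, Prod.snd_neg]
  push_cast
  ring

/-- The point at which a segment touches a line. -/
theorem touch {c A B : ℤ × ℤ} {k : ℤ} (h1 : lf c A ≤ k) (h2 : lf c B ≤ k)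
    (h3 : lf c A < k ∨ lf c B < k) {x : ℝ × ℝ} (hx : x ∈ segment ℝ (rp A) (rp B))
    (h : (k : ℝ) ≤ lfR c x) : (x = rp A ∧ lf c A = k) ∨ (x = rp B ∧ lf c B = k) := by
  rcases lt_or_eq_of_le h1 with h4 | h4
  · rcases lt_or_eq_of_le h2 with h5 | h5
    · exact absurd (seg_lt h4 h5 hx) (not_lt.2 h)
    · right
      rw [segment_symm] at hx
      exact ⟨seg_touch (by rw [h5]; exact h4) hx (by rw [h5]; exact h), h5⟩
  · rcases lt_or_eq_of_le h2 with h5 | h5
    · left
      exact ⟨seg_touch (by rw [h4]; exact h5) hx (by rw [h4]; exact h), h4⟩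
    · omega

/-- Segments on different sides of a line. -/
theorem meet_line (c : ℤ × ℤ) (k : ℤ) {A B C D : ℤ × ℤ} (h1 : lf c A ≤ k) (h2 : lf c B ≤ k)
    (h3 : lf c A < k ∨ lf c B < k) (h4 : k ≤ lf c C) (h5 : k ≤ lf c D)
    (h6 : k < lf c C ∨ k < lf c D) : Meet A B C D := by
  intro p hp hq
  have hk1 : (k : ℝ) ≤ lfR c p := seg_ge h4 h5 hq
  have e1 := touch h1 h2 h3 hp hk1
  have hk2 : ((-k : ℤ) : ℝ) ≤ lfR (-c) p := by
    refine seg_ge (c := -c) (m := -k) ?_ ?_ hp
    · rw [lf_neg]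
      omega
    · rw [lf_neg]
      omega
  have e2 := touch (c := -c) (k := -k) (A := C) (B := D) (by rw [lf_neg]; omega)
    (by rw [lf_neg]; omega) (by rw [lf_neg, lf_neg]; omega) hq hk2
  rcases e1 with ⟨e1, -⟩ | ⟨e1, -⟩ <;> rcases e2 with ⟨e2, -⟩ | ⟨e2, -⟩
  · exact ⟨A, Or.inl rfl, Or.inl (rp_inj (e1.symm.trans e2)), e1⟩
  · exact ⟨A, Or.inl rfl, Or.inr (rp_inj (e1.symm.trans e2)), e1⟩
  · exact ⟨B, Or.inr rfl, Or.inl (rp_inj (e1.symm.trans e2)), e1⟩
  · exact ⟨B, Or.inr rfl, Or.inr (rp_inj (e1.symm.trans e2)), e1⟩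

/-- Strictly separated segments. -/
theorem meet_strict (c : ℤ × ℤ) (k : ℤ) {A B C D : ℤ × ℤ} (h1 : lf c A ≤ k) (h2 : lf c B ≤ k)
    (h4 : k < lf c C) (h5 : k < lf c D) : Meet A B C D := by
  intro p hp hq
  have e1 := seg_ge (c := c) (m := k + 1) (by omega) (by omega) hq
  have e2 := seg_ge (c := -c) (m := -k) (by rw [lf_neg]; omega) (by rw [lf_neg]; omega) hp
  rw [lfR_neg] at e2
  push_cast at e1 e2
  exfalso
  linarith

/-- Segments with a common end and different directions. -/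
theorem meet_cross {P Q S : ℤ × ℤ}
    (h : (P.1 - S.1) * (Q.2 - S.2) - (P.2 - S.2) * (Q.1 - S.1) ≠ 0) : Meet P S Q S := by
  intro p hp hq
  obtain ⟨a, b, ha, hb, hab, rfl⟩ := hp
  obtain ⟨a', b', ha', hb', hab', he⟩ := hq
  refine ⟨S, Or.inr rfl, Or.inr rfl, ?_⟩
  have h' : ((P.1 : ℝ) - S.1) * (Q.2 - S.2) - (P.2 - S.2) * (Q.1 - S.1) ≠ 0 := by
    exact_mod_cast h
  have e1 := congrArg Prod.fst he
  have e2 := congrArg Prod.snd he
  simp only [rp, Prod.fst_add, Prod.smul_fst, Prod.snd_add, Prod.smul_snd, smul_eq_mul] at e1 e2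
  have hb1 : b = 1 - a := by linarith
  have hb2 : b' = 1 - a' := by linarith
  have ha0 : a = 0 := by
    by_contra hne
    apply h'
    have h1 : a * (P.1 - S.1) = a' * (Q.1 - S.1) := by
      rw [hb1, hb2] at e1
      linarith
    have h2 : a * (P.2 - S.2) = a' * (Q.2 - S.2) := by
      rw [hb1, hb2] at e2
      linarith
    have h3 : a * (((P.1 : ℝ) - S.1) * (Q.2 - S.2) - (P.2 - S.2) * (Q.1 - S.1)) = 0 := by
      calc a * (((P.1 : ℝ) - S.1) * (Q.2 - S.2) - (P.2 - S.2) * (Q.1 - S.1)) =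
          (a * (P.1 - S.1)) * (Q.2 - S.2) - (a * (P.2 - S.2)) * (Q.1 - S.1) := by ring
        _ = 0 := by rw [h1, h2]; ring
    exact (mul_eq_zero.1 h3).resolve_left hne
  rw [ha0] at hb1 ⊢
  rw [hb1]
  simp

/-- A segment in a box which touches every side at most at one end. -/
structure InBox (A B : ℤ × ℤ) (X0 X1 Y0 Y1 : ℤ) : Prop where
  x0 : X0 ≤ A.1 ∧ X0 ≤ B.1 ∧ (X0 < A.1 ∨ X0 < B.1)
  x1 : A.1 ≤ X1 ∧ B.1 ≤ X1 ∧ (A.1 < X1 ∨ B.1 < X1)
  y0 : Y0 ≤ A.2 ∧ Y0 ≤ B.2 ∧ (Y0 < A.2 ∨ Y0 < B.2)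
  y1 : A.2 ≤ Y1 ∧ B.2 ≤ Y1 ∧ (A.2 < Y1 ∨ B.2 < Y1)

theorem lf_10 (p : ℤ × ℤ) : lf (1, 0) p = p.1 := by
  unfold lf
  ring

theorem lf_01 (p : ℤ × ℤ) : lf (0, 1) p = p.2 := by
  unfold lf
  ring

theorem meet_boxes {A B C D : ℤ × ℤ} {X0 X1 Y0 Y1 X0' X1' Y0' Y1' : ℤ}
    (h : InBox A B X0 X1 Y0 Y1) (h' : InBox C D X0' X1' Y0' Y1')
    (hd : X1 ≤ X0' ∨ X1' ≤ X0 ∨ Y1 ≤ Y0' ∨ Y1' ≤ Y0) : Meet A B C D := by
  obtain ⟨a1, a2, a3, a4⟩ := h
  obtain ⟨b1, b2, b3, b4⟩ := h'
  rcases hd with hd | hd | hd | hd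
  · refine meet_line (1, 0) X1 ?_ ?_ ?_ ?_ ?_ ?_ <;> simp only [lf_10] <;> omega
  · refine Meet.symm (meet_line (1, 0) X1' ?_ ?_ ?_ ?_ ?_ ?_) <;> simp only [lf_10] <;> omega
  · refine meet_line (0, 1) Y1 ?_ ?_ ?_ ?_ ?_ ?_ <;> simp only [lf_01] <;> omega
  · refine Meet.symm (meet_line (0, 1) Y1' ?_ ?_ ?_ ?_ ?_ ?_) <;> simp only [lf_01] <;> omega

/-- The finite check of the cells. -/
def zz (p : ℕ × ℕ) : ℤ × ℤ := ((p.1 : ℤ), (p.2 : ℤ))

theorem loc_sep0 : ∀ ev ∈ [true, false], ∀ up ∈ [true, false], ∀ op ∈ [true, false],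
    ∀ t ∈ List.range 5, ∀ s ∈ List.range 5, (t = s ∨ (op = true ∧ (t = 0 ∨ s = 0))) ∨
    sep (zz (locE ev up op t).1) (zz (locE ev up op t).2) (zz (locE ev up op s).1)
      (zz (locE ev up op s).2) = true := by decide +kernel

theorem loc_sep (ev up op : Bool) (t : ℕ) (ht : t < 5) (s : ℕ) (hs : s < 5) (hts : t ≠ s)
    (h : op = true → t ≠ 0 ∧ s ≠ 0) :
    sep (zz (locE ev up op t).1) (zz (locE ev up op t).2) (zz (locE ev up op s).1)
      (zz (locE ev up op s).2) = true := by
  rcases loc_sep0 ev (by cases ev <;> simp) up (by cases up <;> simp) op (by cases op <;> simp)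
    t (List.mem_range.2 ht) s (List.mem_range.2 hs) with (h1 | ⟨h1, h2⟩) | h1
  · exact absurd h1 hts
  · have := h h1
    omega
  · exact h1

theorem loc_box : ∀ ev up op : Bool, ∀ t < 5,
    (0 < (locE ev up op t).1.1 ∨ 0 < (locE ev up op t).2.1) ∧
    (0 < (locE ev up op t).1.2 ∨ 0 < (locE ev up op t).2.2) ∧
    (locE ev up op t).1.1 ≤ 4 ∧ (locE ev up op t).2.1 ≤ 4 ∧
    (locE ev up op t).1.2 ≤ 4 ∧ (locE ev up op t).2.2 ≤ 4 ∧
    ((locE ev up op t).1.1 < 4 ∨ (locE ev up op t).2.1 < 4) ∧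
    ((locE ev up op t).1.2 < 4 ∨ (locE ev up op t).2.2 < 4) ∧
    ((locE ev up op t).1.1 = 0 → (locE ev up op t).1.2 = 2) ∧
    ((locE ev up op t).2.1 = 0 → (locE ev up op t).2.2 = 2) := by decide +kernel

theorem shf_eq (x y : ℕ) (p : ℕ × ℕ) : shf x y p = zz p + ((4 * x : ℤ), (4 * y + 1 : ℤ)) := by
  unfold shf zz
  simp only [Prod.mk_add_mk, Prod.mk.injEq]
  constructor <;> push_cast <;> ring

variable {m : ℕ} {op : ℕ → ℕ → Bool}

theorem box_cell {x y t : ℕ} (h : (Kd.cell x y t).Valid m op) :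
    InBox ((Kd.cell x y t).A m op) ((Kd.cell x y t).B m op) (4 * x) (4 * x + 4) (4 * y + 1)
      (4 * y + 5) := by
  obtain ⟨h1, h2, h3, h4, h5, h6, h7, h8, -, -⟩ := loc_box (isEv y) (isUp x) (op x y) t h.2.2.1
  constructor <;> simp only [Kd.A, Kd.B, shf] <;> omega

theorem box_corner {j : ℕ} : InBox ((Kd.corner j).A m op) ((Kd.corner j).B m op) (48 * m)
    (48 * m + 2) (8 * j + 5) (8 * j + 9) := by
  constructor <;> simp only [Kd.A, Kd.B] <;> omega

theorem box_top {i k : ℕ} (h : (Kd.top i k).Valid m op) :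
    InBox ((Kd.top i k).A m op) ((Kd.top i k).B m op) (16 * i)
    (16 * i + 16) (8 * m + 1) (8 * m + 5) := by
  have := h.2
  constructor <;> simp only [Kd.A, Kd.B] <;> omega

theorem meet_cell_cell {x y t x' y' t' : ℕ} (h : (Kd.cell x y t).Valid m op)
    (h' : (Kd.cell x' y' t').Valid m op) (hne : Kd.cell x y t ≠ Kd.cell x' y' t') :
    Meet ((Kd.cell x y t).A m op) ((Kd.cell x y t).B m op) ((Kd.cell x' y' t').A m op)
      ((Kd.cell x' y' t').B m op) := by
  by_cases he : x = x' ∧ y = y'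
  · obtain ⟨rfl, rfl⟩ := he
    apply meet_sep
    simp only [Kd.A, Kd.B, shf_eq]
    rw [sep_shift]
    refine loc_sep _ _ _ t h.2.2.1 t' h'.2.2.1 ?_ fun ho => ⟨h.2.2.2 ho, h'.2.2.2 ho⟩
    rintro rfl
    exact hne rfl
  · refine meet_boxes (box_cell h) (box_cell h') ?_
    omega

theorem meet_left_box {j : ℕ} {A B : ℤ × ℤ} {X0 X1 Y0 Y1 : ℤ} (h : InBox A B X0 X1 Y0 Y1)
    (hX : 0 ≤ X0) (hA : A.1 = 0 → A.2 < 8 * j + 3 ∨ 8 * j + 7 < A.2 ∨ A.2 = 8 * j + 3 ∨
      A.2 = 8 * j + 7) (hB : B.1 = 0 → B.2 < 8 * j + 3 ∨ 8 * j + 7 < B.2 ∨ B.2 = 8 * j + 3 ∨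
      B.2 = 8 * j + 7) :
    Meet ((Kd.left j).A m op) ((Kd.left j).B m op) A B := by
  intro p hp hq
  have hx : lfR (-(1, 0)) p = 0 := by
    have e1 := seg_ge (c := (1, 0)) (m := 0) (by simp [lf, Kd.A]) (by simp [lf, Kd.B]) hp
    have e2 := seg_ge (c := (-(1, 0))) (m := 0) (by simp [lf, Kd.A]) (by simp [lf, Kd.B]) hp
    rw [lfR_neg] at e2 ⊢
    push_cast at e1 e2
    linarith
  have e3 := touch (c := -(1, 0)) (k := 0) (A := A) (B := B)
    (by rw [lf_neg, lf_10]; have := h.x0; omega) (by rw [lf_neg, lf_10]; have := h.x0; omega)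
    (by rw [lf_neg, lf_10, lf_neg, lf_10]; have := h.x0; omega) hq (by rw [hx]; simp)
  have hy1 := seg_ge (c := (0, 1)) (m := 8 * j + 3) (by rw [lf_01]; simp [Kd.A])
    (by rw [lf_01]; simp [Kd.B]) hp
  have hy2 := seg_ge (c := (-(0, 1))) (m := -(8 * j + 7)) (by rw [lf_neg, lf_01]; simp [Kd.A])
    (by rw [lf_neg, lf_01]; simp [Kd.B]) hp
  have fin : ∀ P : ℤ × ℤ, p = rp P → P.1 = 0 → (P.2 < 8 * j + 3 ∨ 8 * j + 7 < P.2 ∨
      P.2 = 8 * j + 3 ∨ P.2 = 8 * j + 7) →
      (P = (Kd.left j).A m op ∨ P = (Kd.left j).B m op) := by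
    intro P hP hP0 hc
    rw [hP, lfR_rp, lf_01] at hy1
    rw [hP, lfR_rp, lf_neg, lf_01] at hy2
    have hy1' : 8 * (j : ℤ) + 3 ≤ P.2 := by exact_mod_cast hy1
    have hy2' : -(8 * (j : ℤ) + 7) ≤ - P.2 := by exact_mod_cast hy2
    rcases hc with hc | hc | hc | hc
    · omega
    · omega
    · left
      refine Prod.ext ?_ ?_ <;> simp only [Kd.A]
      · exact hP0
      · rw [hc]
        push_cast
        ring
    · right
      refine Prod.ext ?_ ?_ <;> simp only [Kd.B]
      · exact hP0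
      · rw [hc]
        push_cast
        ring
  rcases e3 with ⟨e3, e4⟩ | ⟨e3, e4⟩
  · rw [lf_neg, lf_10] at e4
    exact ⟨A, fin A e3 (by omega) (hA (by omega)), Or.inl rfl, e3⟩
  · rw [lf_neg, lf_10] at e4
    exact ⟨B, fin B e3 (by omega) (hB (by omega)), Or.inr rfl, e3⟩

theorem meet_left_cell {j x y t : ℕ} (h : (Kd.cell x y t).Valid m op) :
    Meet ((Kd.left j).A m op) ((Kd.left j).B m op) ((Kd.cell x y t).A m op)
      ((Kd.cell x y t).B m op) := by
  obtain ⟨-, -, -, -, -, -, -, -, h9, h10⟩ := loc_box (isEv y) (isUp x) (op x y) t h.2.2.1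
  refine meet_left_box (box_cell h) (by omega) ?_ ?_ <;> simp only [Kd.A, Kd.B, shf] <;>
    intro h1
  · have := h9 (by omega)
    omega
  · have := h10 (by omega)
    omega

/-- All kinds of edges which are not incident with the common end of the wires lie above the line
`y = 1` and touch it at most at one end. -/
theorem above {e : Kd} (h : e.Valid m op) (hs : e.B m op ≠ posS m) :
    1 ≤ (e.A m op).2 ∧ 1 ≤ (e.B m op).2 ∧ (1 < (e.A m op).2 ∨ 1 < (e.B m op).2) := by
  cases e with
  | cell x y t =>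
    have := (box_cell h).y0
    omega
  | corner j =>
    have := (box_corner (m := m) (op := op) (j := j)).y0
    omega
  | left j =>
    simp only [Kd.A, Kd.B]
    omega
  | top i k =>
    have := (box_top h).y0
    omega
  | sv x => exact absurd rfl hs
  | sw x => exact absurd rfl hs
  | sh x => exact absurd rfl hs

theorem B_ne {e : Kd} (h : e.Valid m op)
    (he : (∃ x y t, e = Kd.cell x y t) ∨ (∃ j, e = Kd.corner j) ∨ (∃ j, e = Kd.left j) ∨
      ∃ i k, e = Kd.top i k) : e.B m op ≠ posS m := by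
  intro hB
  have h0 := congrArg Prod.snd hB
  simp only [posS] at h0
  rcases he with ⟨x, y, t, rfl⟩ | ⟨j, rfl⟩ | ⟨j, rfl⟩ | ⟨i, k, rfl⟩ <;>
    simp only [Kd.B, shf] at h0 <;> omega

theorem meet_sv {x : ℕ} {e : Kd} (h : e.Valid m op) (hs : e.B m op ≠ posS m) :
    Meet ((Kd.sv x).A m op) ((Kd.sv x).B m op) (e.A m op) (e.B m op) := by
  obtain ⟨h1, h2, h3⟩ := above h hs
  refine meet_line (0, 1) 1 ?_ ?_ ?_ ?_ ?_ ?_ <;> simp only [lf_01]
  · simp [Kd.A]
  · simp [Kd.B, posS]
  · simp [Kd.B, posS]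
  · exact h1
  · exact h2
  · exact h3

theorem meet_sh {j : ℕ} (_hj : j < m) {e : Kd} (h : e.Valid m op) (hs : e.B m op ≠ posS m) :
    Meet ((Kd.sh j).A m op) ((Kd.sh j).B m op) (e.A m op) (e.B m op) := by
  apply Meet.symm
  have hx : (e.A m op).1 ≤ 48 * m + 4 ∧ (e.B m op).1 ≤ 48 * m + 4 ∧
      ((e.A m op).1 < 48 * m + 4 ∨ (e.B m op).1 < 48 * m + 4) := by
    cases e with
    | cell x y t =>
      have := (box_cell h).x1
      have := h.2.1
      omega
    | corner j =>
      have := (box_corner (m := m) (op := op) (j := j)).x1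
      omega
    | left j =>
      simp only [Kd.A, Kd.B]
      omega
    | top i k =>
      have := (box_top h).x1
      have := h.1
      omega
    | sv x => exact absurd rfl hs
    | sw x => exact absurd rfl hs
    | sh x => exact absurd rfl hs
  refine meet_line (1, 0) (48 * m + 4) ?_ ?_ ?_ ?_ ?_ ?_ <;> simp only [lf_10]
  · exact hx.1
  · exact hx.2.1
  · exact hx.2.2
  · simp [Kd.A]
  · simp only [Kd.B, posS]
    omega
  · simp only [Kd.B, posS]
    omega

theorem meet_sw {j : ℕ} (_hj : j < m) {e : Kd} (h : e.Valid m op) (hs : e.B m op ≠ posS m) :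
    Meet ((Kd.sw j).A m op) ((Kd.sw j).B m op) (e.A m op) (e.B m op) := by
  by_cases hc : ∃ y t, e = Kd.cell (12 * m) y t
  · obtain ⟨y, t, rfl⟩ := hc
    have hb := box_cell h
    have hv : y % 2 = 0 := by
      have := h.2.1
      omega
    rcases Nat.lt_or_ge y (2 * j) with h1 | h1
    · apply Meet.symm
      have b2 := hb.x1
      have b4 := hb.y1
      refine meet_strict (1, 2) (48 * m + 16 * j) ?_ ?_ ?_ ?_ <;> simp only [lf]
      · push_cast at b2
        omega
      · push_cast at b2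
        omega
      · simp only [Kd.A]
        omega
      · simp only [Kd.B, posS]
        omega
    · have b3 := hb.y0
      refine meet_line (0, 1) (8 * j + 1) ?_ ?_ ?_ ?_ ?_ ?_ <;> simp only [lf_01]
      · simp [Kd.A]
      · simp only [Kd.B, posS]
        omega
      · simp only [Kd.B, posS]
        omega
      · omega
      · omega
      · omega
  · apply Meet.symm
    have hx : (e.A m op).1 ≤ 48 * m + 2 ∧ (e.B m op).1 ≤ 48 * m + 2 ∧
        ((e.A m op).1 < 48 * m + 2 ∨ (e.B m op).1 < 48 * m + 2) := by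
      cases e with
      | cell x y t =>
        have := (box_cell h).x1
        have h2 := h.2.1
        have : x ≠ 12 * m := fun hx => hc ⟨y, t, by rw [hx]⟩
        omega
      | corner j =>
        have := (box_corner (m := m) (op := op) (j := j)).x1
        omega
      | left j =>
        simp only [Kd.A, Kd.B]
        omega
      | top i k =>
        have := (box_top h).x1
        have := h.1
        omega
      | sv x => exact absurd rfl hs
      | sw x => exact absurd rfl hs
      | sh x => exact absurd rfl hs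
    refine meet_line (1, 0) (48 * m + 2) ?_ ?_ ?_ ?_ ?_ ?_ <;> simp only [lf_10]
    · exact hx.1
    · exact hx.2.1
    · exact hx.2.2
    · simp [Kd.A]
    · simp only [Kd.B, posS]
      omega
    · simp only [Kd.B, posS]
      omega

/-- Two edges at the common end of the wires. -/
theorem meet_spokes {e f : Kd} (h : e.Valid m op) (h' : f.Valid m op) (hne : e ≠ f)
    (hs : e.B m op = posS m) (hs' : f.B m op = posS m) :
    Meet (e.A m op) (e.B m op) (f.A m op) (f.B m op) := by
  rw [hs, hs']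
  have key : ∀ e : Kd, e.Valid m op → e.B m op = posS m →
      (∃ x, e = Kd.sv x) ∨ (∃ j, e = Kd.sw j) ∨ (∃ j, e = Kd.sh j) := by
    intro e h hs
    cases e with
    | cell x y t => exact absurd hs (B_ne h (Or.inl ⟨_, _, _, rfl⟩))
    | corner j => exact absurd hs (B_ne h (Or.inr (Or.inl ⟨_, rfl⟩)))
    | left j => exact absurd hs (B_ne h (Or.inr (Or.inr (Or.inl ⟨_, rfl⟩))))
    | top i k => exact absurd hs (B_ne h (Or.inr (Or.inr (Or.inr ⟨_, _, rfl⟩))))
    | sv x => exact Or.inl ⟨x, rfl⟩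
    | sw x => exact Or.inr (Or.inl ⟨x, rfl⟩)
    | sh x => exact Or.inr (Or.inr ⟨x, rfl⟩)
  rcases key e h hs with ⟨x, rfl⟩ | ⟨j, rfl⟩ | ⟨j, rfl⟩ <;>
    rcases key f h' hs' with ⟨x', rfl⟩ | ⟨j', rfl⟩ | ⟨j', rfl⟩ <;>
    apply meet_cross <;> simp only [Kd.A, posS] <;> push_cast <;> simp only [Kd.Valid] at h h'
  · have : (x : ℤ) ≠ x' := fun h => hne (by rw [Nat.cast_injective h])
    intro h0
    apply this
    linarith
  · intro h0
    have h1 : (0 : ℤ) ≤ 48 * m - 4 * x - 4 := by omega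
    have h2 : (0 : ℤ) ≤ j' := by omega
    have h3 : (0 : ℤ) ≤ m := by omega
    nlinarith [mul_nonneg h1 h2, mul_nonneg h2 h3]
  · intro h0
    have h1 : (0 : ℤ) ≤ 48 * m - 4 * x - 4 := by omega
    have h2 : (0 : ℤ) ≤ j' := by omega
    have h3 : (0 : ℤ) ≤ m := by omega
    nlinarith [mul_nonneg h1 h2, mul_nonneg h2 h3]
  · intro h0
    have h1 : (0 : ℤ) ≤ 48 * m - 4 * x' - 4 := by omega
    have h2 : (0 : ℤ) ≤ j := by omega
    have h3 : (0 : ℤ) ≤ m := by omega
    nlinarith [mul_nonneg h1 h2, mul_nonneg h2 h3]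
  · have : (j : ℤ) ≠ j' := fun h => hne (by rw [Nat.cast_injective h])
    intro h0
    have h3 : (0 : ℤ) ≤ m := by omega
    have h4 : (16 * (m : ℤ) + 8) * (8 * ((j : ℤ) - j')) = 0 := by linarith
    rcases mul_eq_zero.1 h4 with h5 | h5 <;> omega
  · intro h0
    have h3 : (0 : ℤ) ≤ m := by omega
    have h4 : (16 * (m : ℤ) + 8) * (8 * ((j : ℤ) - j') - 2) = 2 * (8 * j + 1) := by linarith
    rcases Nat.lt_or_ge j' j with h5 | h5
    · have h6 : (1 : ℤ) ≤ (j : ℤ) - j' := by omega
      nlinarith [mul_nonneg h3 (sub_nonneg.2 h6)]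
    · have h6 : (0 : ℤ) ≤ (j' : ℤ) - j := by omega
      nlinarith [mul_nonneg h3 h6]
  · intro h0
    have h1 : (0 : ℤ) ≤ 48 * m - 4 * x' - 4 := by omega
    have h2 : (0 : ℤ) ≤ j := by omega
    have h3 : (0 : ℤ) ≤ m := by omega
    nlinarith [mul_nonneg h1 h2, mul_nonneg h2 h3]
  · intro h0
    have h3 : (0 : ℤ) ≤ m := by omega
    have h4 : (16 * (m : ℤ) + 8) * (8 * ((j' : ℤ) - j) - 2) = 2 * (8 * j' + 1) := by linarith
    rcases Nat.lt_or_ge j j' with h5 | h5
    · have h6 : (1 : ℤ) ≤ (j' : ℤ) - j := by omega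
      nlinarith [mul_nonneg h3 (sub_nonneg.2 h6)]
    · have h6 : (0 : ℤ) ≤ (j : ℤ) - j' := by omega
      nlinarith [mul_nonneg h3 h6]
  · have : (j : ℤ) ≠ j' := fun h => hne (by rw [Nat.cast_injective h])
    intro h0
    have h3 : (0 : ℤ) ≤ m := by omega
    have h4 : (16 * (m : ℤ) + 6) * (8 * ((j : ℤ) - j')) = 0 := by linarith
    rcases mul_eq_zero.1 h4 with h5 | h5 <;> omega

theorem seg_AB_symm {A B C D : ℤ × ℤ} (h : Meet A B C D) : Meet B A C D := by
  intro p hp hq
  rw [segment_symm] at hp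
  obtain ⟨P, h1, h2, h3⟩ := h p hp hq
  exact ⟨P, h1.symm, h2, h3⟩

/-- **Different edges meet only in common ends.** -/
theorem meet_all {e f : Kd} (h : e.Valid m op) (h' : f.Valid m op) (hne : e ≠ f) :
    Meet (e.A m op) (e.B m op) (f.A m op) (f.B m op) := by
  by_cases hs : e.B m op = posS m
  · by_cases hs' : f.B m op = posS m
    · exact meet_spokes h h' hne hs hs'
    · cases e with
      | cell x y t => exact absurd hs (B_ne h (Or.inl ⟨_, _, _, rfl⟩))
      | corner j => exact absurd hs (B_ne h (Or.inr (Or.inl ⟨_, rfl⟩)))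
      | left j => exact absurd hs (B_ne h (Or.inr (Or.inr (Or.inl ⟨_, rfl⟩))))
      | top i k => exact absurd hs (B_ne h (Or.inr (Or.inr (Or.inr ⟨_, _, rfl⟩))))
      | sv x => exact meet_sv h' hs'
      | sw x => exact meet_sw h h' hs'
      | sh x => exact meet_sh h h' hs'
  · by_cases hs' : f.B m op = posS m
    · apply Meet.symm
      cases f with
      | cell x y t => exact absurd hs' (B_ne h' (Or.inl ⟨_, _, _, rfl⟩))
      | corner j => exact absurd hs' (B_ne h' (Or.inr (Or.inl ⟨_, rfl⟩)))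
      | left j => exact absurd hs' (B_ne h' (Or.inr (Or.inr (Or.inl ⟨_, rfl⟩))))
      | top i k => exact absurd hs' (B_ne h' (Or.inr (Or.inr (Or.inr ⟨_, _, rfl⟩))))
      | sv x => exact meet_sv h hs
      | sw x => exact meet_sw h' h hs
      | sh x => exact meet_sh h' h hs
    · cases e with
      | sv x => exact absurd rfl hs
      | sw x => exact absurd rfl hs
      | sh x => exact absurd rfl hs
      | cell x y t =>
        cases f with
        | sv x => exact absurd rfl hs'
        | sw x => exact absurd rfl hs'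
        | sh x => exact absurd rfl hs'
        | cell x' y' t' => exact meet_cell_cell h h' hne
        | corner j =>
          refine meet_boxes (box_cell h) box_corner ?_
          have := h.2.1
          omega
        | left j => exact (meet_left_cell h).symm
        | top i k =>
          refine meet_boxes (box_cell h) (box_top h') ?_
          have := h.1
          omega
      | corner j =>
        cases f with
        | sv x => exact absurd rfl hs'
        | sw x => exact absurd rfl hs'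
        | sh x => exact absurd rfl hs'
        | cell x' y' t' =>
          refine meet_boxes box_corner (box_cell h') ?_
          have := h'.2.1
          omega
        | corner j' =>
          refine meet_boxes box_corner box_corner ?_
          have : j ≠ j' := fun hj => hne (by rw [hj])
          omega
        | left j' =>
          apply Meet.symm
          refine meet_left_box box_corner (by omega) ?_ ?_ <;> simp only [Kd.A, Kd.B] <;>
            intro h1 <;> simp only [Kd.Valid] at h h' <;> omega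
        | top i k =>
          refine meet_boxes box_corner (box_top h') ?_
          simp only [Kd.Valid] at h h'
          omega
      | left j =>
        cases f with
        | sv x => exact absurd rfl hs'
        | sw x => exact absurd rfl hs'
        | sh x => exact absurd rfl hs'
        | cell x' y' t' => exact meet_left_cell h'
        | corner j' =>
          refine meet_left_box box_corner (by omega) ?_ ?_ <;> simp only [Kd.A, Kd.B] <;>
            intro h1 <;> simp only [Kd.Valid] at h h' <;> omega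
        | left j' =>
          have hj : j ≠ j' := fun hj => hne (by rw [hj])
          rcases Nat.lt_or_ge j j' with h1 | h1
          · refine meet_strict (0, 1) (8 * j + 7) ?_ ?_ ?_ ?_ <;> simp only [lf_01, Kd.A, Kd.B] <;>
              omega
          · apply Meet.symm
            refine meet_strict (0, 1) (8 * j' + 7) ?_ ?_ ?_ ?_ <;>
              simp only [lf_01, Kd.A, Kd.B] <;> omega
        | top i k =>
          refine meet_left_box (box_top h') (by omega) ?_ ?_ <;> simp only [Kd.A, Kd.B] <;>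
            intro h1 <;> omega
      | top i k =>
        cases f with
        | sv x => exact absurd rfl hs'
        | sw x => exact absurd rfl hs'
        | sh x => exact absurd rfl hs'
        | cell x' y' t' =>
          refine meet_boxes (box_top h) (box_cell h') ?_
          have := h'.1
          omega
        | corner j' =>
          refine meet_boxes (box_top h) box_corner ?_
          simp only [Kd.Valid] at h h'
          omega
        | left j' =>
          apply Meet.symm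
          refine meet_left_box (box_top h) (by omega) ?_ ?_ <;> simp only [Kd.A, Kd.B] <;>
            intro h1 <;> omega
        | top i' k' =>
          by_cases hi : i = i'
          · subst hi
            have hk : (k : ℤ) ≠ k' := fun hk => hne (by rw [Nat.cast_injective hk])
            have hm : Meet ((Kd.top i k).B m op) ((Kd.top i k).A m op) ((Kd.top i k').B m op)
                ((Kd.top i k').A m op) := by
              apply meet_cross
              simp only [Kd.A, Kd.B]
              push_cast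
              intro h0
              apply hk
              linarith
            exact (seg_AB_symm (seg_AB_symm hm).symm).symm
          · refine meet_boxes (box_top h) (box_top h') ?_
            omega

end Pool.Agent.K6.H49.DC
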