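import Pool.Agent.K6.H49.DC.Diag2

/-!
# The wire diagram of a formula

There are `m` clauses and `3 m` variables; `lt j i b` says that the literal of the variable `i` with
sign `b` occurs in the clause `j`.  The gadgets are `(0, x, y)` and `(1, x, y)` (vertices of degree
two on the left and on the lower side of the cell `(x, y)`), `(2, x, y)` (in the cell) and
`(3, i, 0)` (at the top of the four columns of the variable `i`).
-/

set_option autoImplicit false

namespace Pool.Agent.K6.H49.DC

abbrev Gd := ℕ × ℕ × ℕ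

/-- The column in which the wire `w` goes up. -/
def uc (w : ℕ) : ℕ := 2 * w + w % 2

/-- The column in which the wire `w` goes down. -/
def dc (w : ℕ) : ℕ := 2 * w + (1 - w % 2)

def netLen (m w : ℕ) : ℕ := if w < 6 * m then 8 * m + 3 else 48 * m + 7

def netVis (m w q : ℕ) : Gd × Bool :=
  if w < 6 * m then
    if q ≤ 4 * m then
      if q % 2 = 0 then ((1, uc w, q / 2), false) else ((2, uc w, q / 2), true)
    else if q = 4 * m + 1 then ((3, w / 2, 0), decide (w % 2 = 1))
    else if (8 * m + 2 - q) % 2 = 0 then ((1, dc w, (8 * m + 2 - q) / 2), false)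
    else ((2, dc w, (8 * m + 2 - q) / 2), true)
  else if q = 0 then ((1, 12 * m, 2 * (w - 6 * m)), false)
  else if q = 1 then ((2, 12 * m, 2 * (w - 6 * m)), true)
  else if q = 2 then ((1, 12 * m, 2 * (w - 6 * m) + 1), false)
  else if q ≤ 24 * m + 3 then
    if (24 * m + 3 - q) % 2 = 0 then
      ((0, (24 * m + 3 - q) / 2, 2 * (w - 6 * m) + 1), false)
    else ((2, (24 * m + 3 - q) / 2, 2 * (w - 6 * m) + 1), false)
  else if (q - (24 * m + 4)) % 2 = 0 then ((0, (q - (24 * m + 4)) / 2, 2 * (w - 6 * m)), false)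
  else ((2, (q - (24 * m + 4)) / 2, 2 * (w - 6 * m)), false)

def netOpt (m : ℕ) (lt : ℕ → ℕ → Bool → Bool) (g : Gd) : Bool :=
  if g.1 = 2 then decide (g.2.1 < 12 * m) && (decide (g.2.2 % 2 = 0) &&
    ((decide (g.2.1 % 4 = 1) && lt (g.2.2 / 2) (g.2.1 / 4) true) ||
      (decide (g.2.1 % 4 = 2) && lt (g.2.2 / 2) (g.2.1 / 4) false)))
  else true

/-- The wire diagram. -/
def net (m : ℕ) (lt : ℕ → ℕ → Bool → Bool) : Diagram Gd where
  nw := 7 * m
  len := netLen m
  vis := netVis m
  opt := netOpt m lt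

variable {m : ℕ} {lt : ℕ → ℕ → Bool → Bool}

theorem ok_iff {w q : ℕ} : (net m lt).Ok w q ↔ w < 7 * m ∧ q < netLen m w := Iff.rfl

/-- The wire and the position of a visit. -/
def netInv (m : ℕ) (v : Gd × Bool) : ℕ × ℕ :=
  if v.1.1 = 1 then
    if v.1.2.1 < 12 * m then (v.1.2.1 / 2, if v.1.2.1 % 4 = 0 ∨ v.1.2.1 % 4 = 3 then
      2 * v.1.2.2 else 8 * m + 2 - 2 * v.1.2.2)
    else (6 * m + v.1.2.2 / 2, if v.1.2.2 % 2 = 0 then 0 else 2)
  else if v.1.1 = 2 then
    if v.2 = true then
      if v.1.2.1 < 12 * m then (v.1.2.1 / 2, if v.1.2.1 % 4 = 0 ∨ v.1.2.1 % 4 = 3 then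
        2 * v.1.2.2 + 1 else 8 * m + 1 - 2 * v.1.2.2)
      else (6 * m + v.1.2.2 / 2, 1)
    else (6 * m + v.1.2.2 / 2, if v.1.2.2 % 2 = 1 then 24 * m + 2 - 2 * v.1.2.1 else
      24 * m + 5 + 2 * v.1.2.1)
  else if v.1.1 = 0 then (6 * m + v.1.2.2 / 2, if v.1.2.2 % 2 = 1 then
    24 * m + 3 - 2 * v.1.2.1 else 24 * m + 4 + 2 * v.1.2.1)
  else (2 * v.1.2.1 + (if v.2 = true then 1 else 0), 4 * m + 1)

theorem uc_spec (w : ℕ) : (uc w % 4 = 0 ∨ uc w % 4 = 3) ∧ uc w / 2 = w ∧ uc w < 2 * w + 2 := by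
  unfold uc
  rcases Nat.mod_two_eq_zero_or_one w with h | h <;> rw [h] <;> omega

theorem dc_spec (w : ℕ) : (dc w % 4 = 1 ∨ dc w % 4 = 2) ∧ dc w / 2 = w ∧ dc w < 2 * w + 2 := by
  unfold dc
  rcases Nat.mod_two_eq_zero_or_one w with h | h <;> rw [h] <;> omega

theorem netInv_vis {w q : ℕ} (hw : w < 7 * m) (hq : q < netLen m w) :
    netInv m (netVis m w q) = (w, q) := by
  have hu := uc_spec w
  have hd := dc_spec w
  unfold netLen at hq
  unfold netVis
  split_ifs at hq ⊢ <;> unfold netInv <;> simp only [Prod.mk.injEq, reduceCtorEq, if_true,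
    if_false, decide_eq_true_eq, Nat.reduceEqDiff, reduceIte] <;> split_ifs <;>
    (try simp only [Prod.mk.injEq]) <;> omega

theorem net_inj {w q w' q' : ℕ} (h : (net m lt).Ok w q) (h' : (net m lt).Ok w' q')
    (hv : netVis m w q = netVis m w' q') : w = w' ∧ q = q' := by
  have e1 := netInv_vis h.1 h.2
  have e2 := netInv_vis h'.1 h'.2
  rw [hv, e2] at e1
  simp only [Prod.mk.injEq] at e1
  exact ⟨e1.1.symm, e1.2.symm⟩

theorem net_cons {w q : ℕ} (hq : q + 1 < netLen m w) :
    (netVis m w q).1 ≠ (netVis m w (q + 1)).1 := by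
  intro hv
  unfold netLen at hq
  unfold netVis uc dc at hv
  split_ifs at hv hq <;> simp only [Prod.mk.injEq, reduceCtorEq, and_true, and_false, false_and,
    true_and, decide_eq_decide] at hv <;> omega

theorem net_good : (net m lt).Good where
  len_pos := by
    intro w _
    change 1 ≤ netLen m w
    unfold netLen
    split_ifs <;> omega
  inj := fun w q w' q' h h' hv => net_inj h h' hv
  cons := fun w q _ hq => net_cons hq

/-! ### The visits -/

theorem vis_v {w y : ℕ} (hw : w < 6 * m) (hy : y ≤ 2 * m) :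
    netVis m w (2 * y) = ((1, uc w, y), false) := by
  unfold netVis
  rw [if_pos hw, if_pos (by omega), if_pos (by omega), show 2 * y / 2 = y by omega]

theorem vis_u {w y : ℕ} (hw : w < 6 * m) (hy : y < 2 * m) :
    netVis m w (2 * y + 1) = ((2, uc w, y), true) := by
  unfold netVis
  rw [if_pos hw, if_pos (by omega), if_neg (by omega), show (2 * y + 1) / 2 = y by omega]

theorem vis_p {w : ℕ} (hw : w < 6 * m) :
    netVis m w (4 * m + 1) = ((3, w / 2, 0), decide (w % 2 = 1)) := by
  unfold netVis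
  rw [if_pos hw, if_neg (by omega), if_pos rfl]

theorem vis_w {w y : ℕ} (hw : w < 6 * m) (hy : y ≤ 2 * m) :
    netVis m w (8 * m + 2 - 2 * y) = ((1, dc w, y), false) := by
  unfold netVis
  rw [if_pos hw, if_neg (by omega), if_neg (by omega), if_pos (by omega),
    show (8 * m + 2 - (8 * m + 2 - 2 * y)) / 2 = y by omega]

theorem vis_d {w y : ℕ} (hw : w < 6 * m) (hy : y < 2 * m) :
    netVis m w (8 * m + 1 - 2 * y) = ((2, dc w, y), true) := by
  unfold netVis
  rw [if_pos hw, if_neg (by omega), if_neg (by omega), if_neg (by omega),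
    show (8 * m + 2 - (8 * m + 1 - 2 * y)) / 2 = y by omega]

theorem vis_0 (j : ℕ) : netVis m (6 * m + j) 0 = ((1, 12 * m, 2 * j), false) := by
  unfold netVis
  rw [if_neg (by omega), if_pos rfl, show 6 * m + j - 6 * m = j by omega]

theorem vis_1 (j : ℕ) : netVis m (6 * m + j) 1 = ((2, 12 * m, 2 * j), true) := by
  unfold netVis
  rw [if_neg (by omega), if_neg (by omega), if_pos rfl, show 6 * m + j - 6 * m = j by omega]

theorem vis_2 (j : ℕ) : netVis m (6 * m + j) 2 = ((1, 12 * m, 2 * j + 1), false) := by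
  unfold netVis
  rw [if_neg (by omega), if_neg (by omega), if_neg (by omega), if_pos rfl,
    show 6 * m + j - 6 * m = j by omega]

theorem vis_i (j : ℕ) {x : ℕ} (hx : x ≤ 12 * m) :
    netVis m (6 * m + j) (24 * m + 3 - 2 * x) = ((0, x, 2 * j + 1), false) := by
  unfold netVis
  rw [if_neg (by omega), if_neg (by omega), if_neg (by omega), if_neg (by omega),
    if_pos (by omega), if_pos (by omega), show 6 * m + j - 6 * m = j by omega,
    show (24 * m + 3 - (24 * m + 3 - 2 * x)) / 2 = x by omega]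

theorem vis_ic (j : ℕ) {x : ℕ} (hx : x < 12 * m) :
    netVis m (6 * m + j) (24 * m + 2 - 2 * x) = ((2, x, 2 * j + 1), false) := by
  unfold netVis
  rw [if_neg (by omega), if_neg (by omega), if_neg (by omega), if_neg (by omega),
    if_pos (by omega), if_neg (by omega), show 6 * m + j - 6 * m = j by omega,
    show (24 * m + 3 - (24 * m + 2 - 2 * x)) / 2 = x by omega]

theorem vis_h (j x : ℕ) :
    netVis m (6 * m + j) (24 * m + 4 + 2 * x) = ((0, x, 2 * j), false) := by
  unfold netVis
  rw [if_neg (by omega), if_neg (by omega), if_neg (by omega), if_neg (by omega),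
    if_neg (by omega), if_pos (by omega), show 6 * m + j - 6 * m = j by omega,
    show (24 * m + 4 + 2 * x - (24 * m + 4)) / 2 = x by omega]

theorem vis_hc (j x : ℕ) :
    netVis m (6 * m + j) (24 * m + 5 + 2 * x) = ((2, x, 2 * j), false) := by
  unfold netVis
  rw [if_neg (by omega), if_neg (by omega), if_neg (by omega), if_neg (by omega),
    if_neg (by omega), if_neg (by omega), show 6 * m + j - 6 * m = j by omega,
    show (24 * m + 5 + 2 * x - (24 * m + 4)) / 2 = x by omega]

theorem len_v {w : ℕ} (hw : w < 6 * m) : netLen m w = 8 * m + 3 := if_pos hw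

theorem len_c (j : ℕ) : netLen m (6 * m + j) = 48 * m + 7 := if_neg (by omega)

theorem port_role {w q : ℕ} (h : (netVis m w q).1.1 ≤ 1) : (netVis m w q).2 = false := by
  unfold netVis at *
  split_ifs at * <;> simp_all

theorem opt_port {g : Gd} (h : g.1 ≤ 1) : netOpt m lt g = true := by
  unfold netOpt
  rw [if_neg (by omega)]

theorem opt_odd {x y : ℕ} (h : y % 2 = 1) : netOpt m lt (2, x, y) = false := by
  unfold netOpt
  have : decide (y % 2 = 0) = false := by
    rw [decide_eq_false_iff_not]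
    omega
  simp [this]

theorem opt_col {x y : ℕ} (h : ¬ (x % 4 = 1 ∨ x % 4 = 2)) : netOpt m lt (2, x, y) = false := by
  unfold netOpt
  have h1 : decide (x % 4 = 1) = false := by
    rw [decide_eq_false_iff_not]
    omega
  have h2 : decide (x % 4 = 2) = false := by
    rw [decide_eq_false_iff_not]
    omega
  simp only [h1, h2]
  simp

theorem opt_right {x y : ℕ} (h : 12 * m ≤ x) : netOpt m lt (2, x, y) = false := by
  unfold netOpt
  have h1 : decide (x < 12 * m) = false := by
    rw [decide_eq_false_iff_not]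
    omega
  simp [h1]

theorem opt_lit {x j : ℕ} : netOpt m lt (2, x, 2 * j) = true ↔
    x < 12 * m ∧ ((x % 4 = 1 ∧ lt j (x / 4) true = true) ∨
      (x % 4 = 2 ∧ lt j (x / 4) false = true)) := by
  unfold netOpt
  have h1 : 2 * j % 2 = 0 := by omega
  have h2 : 2 * j / 2 = j := by omega
  simp [h1, h2]

end Pool.Agent.K6.H49.DC
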