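import Pool.Agent.K6.H49.DC.Geo
import Pool.Agent.K6.H49.DC.Cpl

/-!
# The digraph of a formula is planar
-/

set_option autoImplicit false

namespace Pool.Agent.K6.H49.DC

open Pool.Agent.Z85.LMD

variable {m : ℕ} {lt : ℕ → ℕ → Bool → Bool}

/-- The optional cells. -/
def opc (m : ℕ) (lt : ℕ → ℕ → Bool → Bool) (x y : ℕ) : Bool := netOpt m lt (2, x, y)

/-- The places in the cells. -/
def plc (m : ℕ) (lt : ℕ → ℕ → Bool → Bool) (x y : ℕ) (r : Bool) : ℕ × ℕ :=
  if r then lbN (isEv y) (isUp x) (opc m lt x y) else laN (isEv y) (isUp x) (opc m lt x y)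

/-- The positions of the vertices. -/
def posN (m : ℕ) (lt : ℕ → ℕ → Bool → Bool) : Option (Gd × Bool) → ℕ × ℕ
  | none => (64 * m + 10, 0)
  | some ((t, x, y), r) =>
    if t = 0 then (4 * x, 4 * y + 3)
    else if t = 1 then (4 * x + 2, 4 * y + 1)
    else if t = 2 then (4 * x + (plc m lt x y r).1, 4 * y + 1 + (plc m lt x y r).2)
    else (16 * x + 8, 8 * m + 3)

/-- The vertices which may occur. -/
def VV (m : ℕ) (lt : ℕ → ℕ → Bool → Bool) : Option (Gd × Bool) → Prop
  | none => True
  | some ((t, x, y), r) =>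
    (t = 0 ∧ x ≤ 12 * m + 1 ∧ y < 2 * m ∧ r = false) ∨
    (t = 1 ∧ x ≤ 12 * m ∧ y ≤ 2 * m ∧ r = false) ∨
    (t = 2 ∧ x ≤ 12 * m ∧ y < 2 * m ∧ (opc m lt x y = true → r = false)) ∨
    (t = 3 ∧ x < 3 * m ∧ y = 0 ∧ r = false)

theorem la_lb : ∀ ev up op : Bool,
    (1 ≤ (laN ev up op).1 ∧ (laN ev up op).1 ≤ 3 ∧ 1 ≤ (laN ev up op).2 ∧
      (laN ev up op).2 ≤ 3) ∧
    (1 ≤ (lbN ev up op).1 ∧ (lbN ev up op).1 ≤ 3 ∧ 1 ≤ (lbN ev up op).2 ∧
      (lbN ev up op).2 ≤ 3) ∧
    ((laN ev up op).1 = 2 ↔ (laN ev up op).2 = 2) ∧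
    ((lbN ev up op).1 = 2 ↔ (lbN ev up op).2 = 2) ∧
    (op = false → (laN ev up op).1 ≠ (lbN ev up op).1) ∧
    (op = true → laN ev up op = (2, 2) ∧ lbN ev up op = (2, 2)) := by decide +kernel

theorem plc_bd (x y : ℕ) (r : Bool) :
    1 ≤ (plc m lt x y r).1 ∧ (plc m lt x y r).1 ≤ 3 ∧ 1 ≤ (plc m lt x y r).2 ∧
      (plc m lt x y r).2 ≤ 3 ∧ ((plc m lt x y r).1 = 2 ↔ (plc m lt x y r).2 = 2) := by
  obtain ⟨h1, h2, h3, h4, -, -⟩ := la_lb (isEv y) (isUp x) (opc m lt x y)
  unfold plc
  cases r
  · simp only [Bool.false_eq_true, if_false]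
    exact ⟨h1.1, h1.2.1, h1.2.2.1, h1.2.2.2, h3⟩
  · simp only [if_true]
    exact ⟨h2.1, h2.2.1, h2.2.2.1, h2.2.2.2, h4⟩

theorem posN_inj {u v : Option (Gd × Bool)} (hu : VV m lt u) (hv : VV m lt v)
    (h : posN m lt u = posN m lt v) : u = v := by
  rcases u with _ | ⟨⟨t, x, y⟩, r⟩ <;> rcases v with _ | ⟨⟨t', x', y'⟩, r'⟩
  · rfl
  · have hb := plc_bd (m := m) (lt := lt) x' y' r'
    have := congrArg Prod.snd h
    simp only [posN] at this
    split_ifs at this <;> omega
  · have hb := plc_bd (m := m) (lt := lt) x y r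
    have := congrArg Prod.snd h
    simp only [posN] at this
    split_ifs at this <;> omega
  · have hb := plc_bd (m := m) (lt := lt) x y r
    have hb' := plc_bd (m := m) (lt := lt) x' y' r'
    have h1 := congrArg Prod.fst h
    have h2 := congrArg Prod.snd h
    unfold VV at hu hv
    rcases hu with ⟨rfl, a1, a2, a3⟩ | ⟨rfl, a1, a2, a3⟩ | ⟨rfl, a1, a2, a3⟩ |
      ⟨rfl, a1, a2, a3⟩ <;>
      rcases hv with ⟨rfl, b1, b2, b3⟩ | ⟨rfl, b1, b2, b3⟩ | ⟨rfl, b1, b2, b3⟩ |
      ⟨rfl, b1, b2, b3⟩ <;>
      simp only [posN, if_true, Nat.reduceEqDiff, OfNat.ofNat_ne_zero,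
        OfNat.ofNat_ne_one, one_ne_zero, if_false] at h1 h2
    · rw [show x = x' by omega, show y = y' by omega, a3, b3]
    · omega
    · omega
    · omega
    · omega
    · rw [show x = x' by omega, show y = y' by omega, a3, b3]
    · omega
    · omega
    · omega
    · omega
    · have hx : x = x' := by omega
      have hy : y = y' := by omega
      subst hx hy
      have hp : (plc m lt x y r).1 = (plc m lt x y r').1 := by omega
      obtain ⟨-, -, -, -, h5, -⟩ := la_lb (isEv y) (isUp x) (opc m lt x y)
      have hr : r = r' := by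
        cases ho : opc m lt x y
        · unfold plc at hp
          rw [ho] at hp h5
          cases r <;> cases r' <;> simp only [Bool.false_eq_true, if_false, if_true] at hp ⊢
          · exact absurd hp (h5 rfl)
          · exact absurd hp.symm (h5 rfl)
        · rw [a3 ho, b3 ho]
      rw [hr]
    · omega
    · omega
    · omega
    · omega
    · rw [show x = x' by omega, show y = y' by omega, a3, b3]

theorem posN_bd {v : Option (Gd × Bool)} (hv : VV m lt v) : (posN m lt v).2 < 8 * m + 4 := by
  rcases v with _ | ⟨⟨t, x, y⟩, r⟩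
  · simp only [posN]
    omega
  · have hb := plc_bd (m := m) (lt := lt) x y r
    simp only [VV] at hv
    simp only [posN]
    split_ifs <;> omega

/-- The gadgets of the visits. -/
theorem gad_ok {w q : ℕ} (h : (net m lt).Ok w q) :
    ((netVis m w q).1.1 = 0 ∧ (netVis m w q).1.2.1 ≤ 12 * m + 1 ∧ (netVis m w q).1.2.2 < 2 * m) ∨
    ((netVis m w q).1.1 = 1 ∧ (netVis m w q).1.2.1 ≤ 12 * m ∧ (netVis m w q).1.2.2 ≤ 2 * m) ∨
    ((netVis m w q).1.1 = 2 ∧ (netVis m w q).1.2.1 ≤ 12 * m ∧ (netVis m w q).1.2.2 < 2 * m) ∨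
    ((netVis m w q).1.1 = 3 ∧ (netVis m w q).1.2.1 < 3 * m ∧ (netVis m w q).1.2.2 = 0) := by
  obtain ⟨h1, h2⟩ := h
  change w < 7 * m at h1
  change q < netLen m w at h2
  have hu := uc_spec w
  have hd := dc_spec w
  unfold netLen at h2
  unfold netVis
  split_ifs at h2 ⊢ <;> dsimp only <;> omega

theorem VV_of {t x y : ℕ} {r : Bool}
    (h : (t = 0 ∧ x ≤ 12 * m + 1 ∧ y < 2 * m) ∨ (t = 1 ∧ x ≤ 12 * m ∧ y ≤ 2 * m) ∨
      (t = 2 ∧ x ≤ 12 * m ∧ y < 2 * m) ∨ (t = 3 ∧ x < 3 * m ∧ y = 0)) :
    VV m lt (some (if netOpt m lt (t, x, y) = true then ((t, x, y), false)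
      else ((t, x, y), r))) := by
  by_cases ho : netOpt m lt (t, x, y) = true
  · rw [if_pos ho]
    unfold VV
    rcases h with h | h | h | h
    · exact Or.inl ⟨h.1, h.2.1, h.2.2, rfl⟩
    · exact Or.inr (Or.inl ⟨h.1, h.2.1, h.2.2, rfl⟩)
    · exact Or.inr (Or.inr (Or.inl ⟨h.1, h.2.1, h.2.2, fun _ => rfl⟩))
    · exact Or.inr (Or.inr (Or.inr ⟨h.1, h.2.1, h.2.2, rfl⟩))
  · rw [if_neg ho]
    have ht : t = 2 := by
      by_contra hn
      apply ho
      unfold netOpt
      rw [if_neg hn]
    subst ht
    rcases h with h | h | h | h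
    · omega
    · omega
    · exact Or.inr (Or.inr (Or.inl ⟨rfl, h.2.1, h.2.2, fun h => absurd h ho⟩))
    · omega

theorem VV_in {w q : ℕ} (h : (net m lt).Ok w q) :
    VV m lt (some ((net m lt).inV (netVis m w q))) ∧
      VV m lt (some ((net m lt).outV (netVis m w q))) := by
  have hg := gad_ok h
  rcases hv : netVis m w q with ⟨⟨t, x, y⟩, r⟩
  rw [hv] at hg
  exact ⟨VV_of hg, VV_of hg⟩

theorem VV_arc {a : ℕ × ℕ × Bool} (h : (net m lt).IsArc a) :
    VV m lt ((net m lt).tailA a) ∧ VV m lt ((net m lt).headA a) := by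
  obtain ⟨w, q, b⟩ := a
  obtain ⟨hw, h⟩ := h
  simp only at hw h
  rcases h with ⟨rfl, hq⟩ | ⟨rfl, hq, ho⟩
  · constructor
    · rcases q with _ | q
      · simp only [Diagram.tailA, if_true, Bool.false_eq_true, if_false]
        trivial
      · rw [Diagram.tailA_link]
        exact (VV_in ⟨hw, by omega⟩).2
    · by_cases hq' : q = (net m lt).len w
      · have : (net m lt).headA (w, q, false) = none := by simp [Diagram.headA, hq']
        rw [this]
        trivial
      · have hok : (net m lt).Ok w q := ⟨hw, by omega⟩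
        rw [Diagram.headA_link hok]
        exact (VV_in hok).1
  · have hok : (net m lt).Ok w q := ⟨hw, hq⟩
    have h1 := VV_in hok
    have ho' : netOpt m lt (netVis m w q).1 = false := ho
    constructor
    · have : (net m lt).tailA (w, q, true) = some ((net m lt).inV (netVis m w q)) := by
        simp only [Diagram.tailA, Diagram.inV, if_true]
        change some (netVis m w q) = _
        simp only [show (net m lt).opt = netOpt m lt from rfl, ho', Bool.false_eq_true, if_false]
      rw [this]
      exact h1.1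
    · have : (net m lt).headA (w, q, true) = some ((net m lt).outV (netVis m w q)) := by
        simp only [Diagram.headA, Diagram.outV, if_true]
        change some ((netVis m w q).1, !(netVis m w q).2) = _
        simp only [show (net m lt).opt = netOpt m lt from rfl, ho', Bool.false_eq_true, if_false]
      rw [this]
      exact h1.2

/-! ### The positions of the ends of the arcs -/

theorem pos_port {t x y : ℕ} {r : Bool} (h : t ≠ 2) :
    posN m lt (some ((net m lt).inV ((t, x, y), r))) = posN m lt (some ((t, x, y), false)) ∧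
      posN m lt (some ((net m lt).outV ((t, x, y), r))) = posN m lt (some ((t, x, y), false)) := by
  have ho : netOpt m lt (t, x, y) = true := by
    unfold netOpt
    rw [if_neg h]
  have h1 : (net m lt).opt = netOpt m lt := rfl
  unfold Diagram.inV Diagram.outV
  simp only [h1, ho, if_true, and_self]

theorem pos_cell {x y : ℕ} :
    posN m lt (some ((net m lt).inV ((2, x, y), false))) =
      (4 * x + (laN (isEv y) (isUp x) (opc m lt x y)).1,
        4 * y + 1 + (laN (isEv y) (isUp x) (opc m lt x y)).2) ∧
    posN m lt (some ((net m lt).inV ((2, x, y), true))) =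
      (4 * x + (lbN (isEv y) (isUp x) (opc m lt x y)).1,
        4 * y + 1 + (lbN (isEv y) (isUp x) (opc m lt x y)).2) ∧
    posN m lt (some ((net m lt).outV ((2, x, y), false))) =
      (4 * x + (lbN (isEv y) (isUp x) (opc m lt x y)).1,
        4 * y + 1 + (lbN (isEv y) (isUp x) (opc m lt x y)).2) ∧
    posN m lt (some ((net m lt).outV ((2, x, y), true))) =
      (4 * x + (laN (isEv y) (isUp x) (opc m lt x y)).1,
        4 * y + 1 + (laN (isEv y) (isUp x) (opc m lt x y)).2) := by
  have h1 : (net m lt).opt = netOpt m lt := rfl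
  obtain ⟨-, -, -, -, -, h6⟩ := la_lb (isEv y) (isUp x) (opc m lt x y)
  unfold Diagram.inV Diagram.outV
  simp only [h1]
  cases ho : opc m lt x y
  · have ho' : netOpt m lt (2, x, y) = false := ho
    simp only [ho', Bool.false_eq_true, if_false, posN, plc, ho, if_true, Nat.reduceEqDiff,
      OfNat.ofNat_ne_zero, OfNat.ofNat_ne_one, Bool.not_false, Bool.not_true, and_self]
  · have ho' : netOpt m lt (2, x, y) = true := ho
    rw [ho] at h6
    obtain ⟨e1, e2⟩ := h6 rfl
    simp only [ho', if_true, posN, plc, ho, Nat.reduceEqDiff, if_false, Bool.false_eq_true,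
      OfNat.ofNat_ne_zero, OfNat.ofNat_ne_one, e1, e2, and_self]

/-- The arc lies on the edge. -/
def OnK (m : ℕ) (lt : ℕ → ℕ → Bool → Bool) (u v : Option (Gd × Bool)) (e : Kd) : Prop :=
  (zz (posN m lt u) = e.A m (opc m lt) ∧ zz (posN m lt v) = e.B m (opc m lt)) ∨
    (zz (posN m lt u) = e.B m (opc m lt) ∧ zz (posN m lt v) = e.A m (opc m lt))

theorem pos_0 {x y : ℕ} {r : Bool} : posN m lt (some ((0, x, y), r)) = (4 * x, 4 * y + 3) := rfl

theorem pos_1 {x y : ℕ} {r : Bool} :
    posN m lt (some ((1, x, y), r)) = (4 * x + 2, 4 * y + 1) := rfl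

theorem pos_3 {x y : ℕ} {r : Bool} :
    posN m lt (some ((3, x, y), r)) = (16 * x + 8, 8 * m + 3) := rfl

theorem onK_none_v {x : ℕ} : OnK m lt none (some ((1, x, 0), false)) (Kd.sv x) := by
  right
  constructor <;> rfl

/-- The kinds of the links. -/
theorem link_kind {w q : ℕ} (hw : w < 7 * m) (hq : q ≤ netLen m w) :
    ∃ e : Kd, e.Valid m (opc m lt) ∧ OnK m lt ((net m lt).tailA (w, q, false))
      ((net m lt).headA (w, q, false)) e := by
  have hlen : (net m lt).len w = netLen m w := rfl
  have T : ∀ q, (net m lt).tailA (w, q + 1, false) = some ((net m lt).outV (netVis m w q)) :=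
    fun q => Diagram.tailA_link w q
  have T0 : (net m lt).tailA (w, 0, false) = none := by simp [Diagram.tailA]
  have H : ∀ q, q < netLen m w →
      (net m lt).headA (w, q, false) = some ((net m lt).inV (netVis m w q)) :=
    fun q h => Diagram.headA_link ⟨hw, h⟩
  have H0 : (net m lt).headA (w, netLen m w, false) = none := by
    simp [Diagram.headA, hlen]
  rcases Nat.lt_or_ge w (6 * m) with h6 | h6
  · have hu := uc_spec w
    have hd := dc_spec w
    have hl := len_v h6
    have eu : isUp (uc w) = true := by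
      unfold isUp
      rw [decide_eq_true_eq]
      exact hu.1
    have ed : isUp (dc w) = false := by
      unfold isUp
      rw [decide_eq_false_iff_not]
      omega
    rcases Nat.lt_or_ge q (4 * m + 1) with h1 | h1
    · rcases Nat.even_or_odd' q with ⟨y, rfl | rfl⟩
      · rcases y with _ | y
        · -- the first link
          refine ⟨Kd.sv (uc w), ?_, ?_⟩
          · simp only [Kd.Valid]
            omega
          · rw [show 2 * 0 = 0 by rfl, T0, H 0 (by omega), show (0 : ℕ) = 2 * 0 by rfl,
              vis_v h6 (by omega)]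
            unfold OnK
            rw [(pos_port (by omega)).1, pos_1]
            right
            constructor <;> simp [Kd.A, Kd.B, zz, posN, posS]
        · refine ⟨Kd.cell (uc w) y 2, ?_, ?_⟩
          · refine ⟨by omega, by omega, by omega, fun _ => by omega⟩
          · rw [show 2 * (y + 1) = 2 * y + 1 + 1 by ring, T (2 * y + 1), vis_u h6 (by omega),
              show 2 * y + 1 + 1 = 2 * (y + 1) by ring, H _ (by omega), vis_v h6 (by omega)]
            unfold OnK
            rw [(pos_port (by omega)).1, pos_1, pos_cell.2.2.2]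
            left
            simp only [Kd.A, Kd.B, zz, shf, locE, eu]
            simp only [Nat.reduceEqDiff, if_false, if_true, OfNat.ofNat_ne_zero,
              OfNat.ofNat_ne_one, Prod.mk.injEq, true_and]
            omega
      · refine ⟨Kd.cell (uc w) y 3, ?_, ?_⟩
        · refine ⟨by omega, by omega, by omega, fun _ => by omega⟩
        · rw [T (2 * y), vis_v h6 (by omega), H _ (by omega), vis_u h6 (by omega)]
          unfold OnK
          rw [(pos_port (by omega)).2, pos_1, pos_cell.2.1]
          right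
          simp only [Kd.A, Kd.B, zz, shf, locE, eu]
          simp only [Nat.reduceEqDiff, if_false, if_true, OfNat.ofNat_ne_zero, OfNat.ofNat_ne_one,
            Prod.mk.injEq, one_ne_zero, Bool.false_eq_true]
          first | exact ⟨trivial, trivial⟩ | omega | (refine ⟨?_, ?_⟩ <;> first | trivial | omega)
    · rcases Nat.eq_or_lt_of_le h1 with h2 | h2
      · refine ⟨Kd.top (w / 2) (uc w % 4), ?_, ?_⟩
        · refine ⟨by omega, by omega⟩
        · rw [← h2, T (4 * m), show 4 * m = 2 * (2 * m) by ring, vis_v h6 (by omega),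
            show 2 * (2 * m) + 1 = 4 * m + 1 by ring, H _ (by omega), vis_p h6]
          unfold OnK
          rw [(pos_port (by omega)).1, (pos_port (by omega)).2, pos_1, pos_3]
          right
          simp only [Kd.A, Kd.B, zz]
          simp only [Prod.mk.injEq, and_true]
          omega
      · rcases Nat.eq_or_lt_of_le h2 with h3 | h3
        · refine ⟨Kd.top (w / 2) (dc w % 4), ?_, ?_⟩
          · refine ⟨by omega, by omega⟩
          · have e : q = 4 * m + 1 + 1 := h3.symm
            rw [e, T (4 * m + 1), vis_p h6,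
              show 4 * m + 1 + 1 = 8 * m + 2 - 2 * (2 * m) by omega, H _ (by omega),
              vis_w h6 (by omega)]
            unfold OnK
            rw [(pos_port (by omega)).1, (pos_port (by omega)).2, pos_1, pos_3]
            left
            simp only [Kd.A, Kd.B, zz]
            simp only [Prod.mk.injEq, and_true, true_and]
            omega
        · rcases Nat.mod_two_eq_zero_or_one q with h5 | h5
          · obtain ⟨y, rfl, hy⟩ : ∃ y, q = 8 * m + 2 - 2 * y ∧ y < 2 * m :=
              ⟨(8 * m + 2 - q) / 2, by omega, by omega⟩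
            refine ⟨Kd.cell (dc w) y 2, ?_, ?_⟩
            · refine ⟨by omega, by omega, by omega, fun _ => by omega⟩
            · rw [show 8 * m + 2 - 2 * y = 8 * m + 1 - 2 * y + 1 by omega, T,
                vis_d h6 (by omega), show 8 * m + 1 - 2 * y + 1 = 8 * m + 2 - 2 * y by omega,
                H _ (by omega), vis_w h6 (by omega)]
              unfold OnK
              rw [(pos_port (by omega)).1, pos_1, pos_cell.2.2.2]
              left
              simp only [Kd.A, Kd.B, zz, shf, locE, ed]
              simp only [Nat.reduceEqDiff, if_false, if_true, OfNat.ofNat_ne_zero, OfNat.ofNat_ne_one,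
                Prod.mk.injEq, one_ne_zero, Bool.false_eq_true]
              first | exact ⟨trivial, trivial⟩ | omega | (refine ⟨?_, ?_⟩ <;> first | trivial | omega)
          · by_cases h7 : q = 8 * m + 3
            · refine ⟨Kd.sv (dc w), ?_, ?_⟩
              · simp only [Kd.Valid]
                omega
              · rw [h7, T (8 * m + 2), ← hl, H0, show 8 * m + 2 = 8 * m + 2 - 2 * 0 by omega,
                  vis_w h6 (by omega)]
                unfold OnK
                rw [(pos_port (by omega)).2, pos_1]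
                left
                constructor <;> simp [Kd.A, Kd.B, zz, posN, posS]
            · obtain ⟨y, rfl, hy⟩ : ∃ y, q = 8 * m + 1 - 2 * y ∧ y < 2 * m :=
                ⟨(8 * m + 1 - q) / 2, by omega, by omega⟩
              refine ⟨Kd.cell (dc w) y 3, ?_, ?_⟩
              · refine ⟨by omega, by omega, by omega, fun _ => by omega⟩
              · rw [show 8 * m + 1 - 2 * y = 8 * m + 2 - 2 * (y + 1) + 1 by omega, T,
                  vis_w h6 (by omega),
                  show 8 * m + 2 - 2 * (y + 1) + 1 = 8 * m + 1 - 2 * y by omega,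
                  H _ (by omega), vis_d h6 (by omega)]
                unfold OnK
                rw [(pos_port (by omega)).2, pos_1, pos_cell.2.1]
                right
                simp only [Kd.A, Kd.B, zz, shf, locE, ed]
                simp only [Nat.reduceEqDiff, if_false, if_true, OfNat.ofNat_ne_zero,
                  OfNat.ofNat_ne_one, Prod.mk.injEq, and_true, Bool.false_eq_true]
                first | omega | (refine ⟨?_, ?_⟩ <;> first | trivial | omega)
  · obtain ⟨j, rfl⟩ : ∃ j, w = 6 * m + j := ⟨w - 6 * m, by omega⟩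
    have hj : j < m := by omega
    have hl := len_c (m := m) j
    have eu : isUp (12 * m) = true := by
      unfold isUp
      rw [decide_eq_true_eq]
      omega
    have ev : isEv (2 * j) = true := by
      unfold isEv
      rw [decide_eq_true_eq]
      omega
    have eo : isEv (2 * j + 1) = false := by
      unfold isEv
      rw [decide_eq_false_iff_not]
      omega
    rcases Nat.lt_or_ge q 4 with h1 | h1
    · interval_cases q
      · refine ⟨Kd.sw j, hj, ?_⟩
        rw [T0, H 0 (by omega), vis_0]
        unfold OnK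
        rw [(pos_port (by omega)).1, pos_1]
        right
        constructor
        · simp [Kd.B, zz, posN, posS]
        · simp only [Kd.A, zz]
          simp only [Prod.mk.injEq]
          omega
      · refine ⟨Kd.cell (12 * m) (2 * j) 3, ?_, ?_⟩
        · refine ⟨by omega, by omega, by omega, fun _ => by omega⟩
        · rw [T 0, vis_0, H _ (by omega), vis_1]
          unfold OnK
          rw [(pos_port (by omega)).2, pos_1, pos_cell.2.1]
          right
          simp only [Kd.A, Kd.B, zz, shf, locE, eu]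
          simp only [Nat.reduceEqDiff, if_false, if_true, OfNat.ofNat_ne_zero, OfNat.ofNat_ne_one,
            Prod.mk.injEq, one_ne_zero, Bool.false_eq_true]
          first | exact ⟨trivial, trivial⟩ | omega | (refine ⟨?_, ?_⟩ <;> first | trivial | omega)
      · refine ⟨Kd.cell (12 * m) (2 * j) 2, ?_, ?_⟩
        · refine ⟨by omega, by omega, by omega, fun _ => by omega⟩
        · rw [T 1, vis_1, H _ (by omega), vis_2]
          unfold OnK
          rw [(pos_port (by omega)).1, pos_1, pos_cell.2.2.2]
          left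
          simp only [Kd.A, Kd.B, zz, shf, locE, eu]
          simp only [Nat.reduceEqDiff, if_false, if_true, OfNat.ofNat_ne_zero,
            OfNat.ofNat_ne_one, Prod.mk.injEq, true_and]
          omega
      · refine ⟨Kd.corner j, hj, ?_⟩
        rw [T 2, vis_2, H _ (by omega), show 3 = 24 * m + 3 - 2 * (12 * m) by omega,
          vis_i j le_rfl]
        unfold OnK
        rw [(pos_port (by omega)).1, (pos_port (by omega)).2, pos_1, pos_0]
        left
        simp only [Kd.A, Kd.B, zz, Prod.mk.injEq]
        omega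
    · rcases Nat.lt_or_ge q (24 * m + 4) with h2 | h2
      · rcases Nat.mod_two_eq_zero_or_one q with h5 | h5
        · obtain ⟨x, rfl, hx⟩ : ∃ x, q = 24 * m + 2 - 2 * x ∧ x < 12 * m :=
            ⟨(24 * m + 2 - q) / 2, by omega, by omega⟩
          refine ⟨Kd.cell x (2 * j + 1) 1, ?_, ?_⟩
          · refine ⟨by omega, by omega, by omega, fun _ => by omega⟩
          · rw [show 24 * m + 2 - 2 * x = 24 * m + 3 - 2 * (x + 1) + 1 by omega, T,
              vis_i j (by omega), show 24 * m + 3 - 2 * (x + 1) + 1 = 24 * m + 2 - 2 * x by omega,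
              H _ (by omega), vis_ic j hx]
            unfold OnK
            rw [(pos_port (by omega)).2, pos_0, pos_cell.1]
            right
            simp only [Kd.A, Kd.B, zz, shf, locE, eo]
            simp only [one_ne_zero, if_false, if_true, Prod.mk.injEq, and_true, Bool.false_eq_true]
            omega
        · obtain ⟨x, rfl, hx⟩ : ∃ x, q = 24 * m + 3 - 2 * x ∧ x < 12 * m :=
            ⟨(24 * m + 3 - q) / 2, by omega, by omega⟩
          refine ⟨Kd.cell x (2 * j + 1) 4, ?_, ?_⟩
          · refine ⟨by omega, by omega, by omega, fun _ => by omega⟩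
          · rw [show 24 * m + 3 - 2 * x = 24 * m + 2 - 2 * x + 1 by omega, T,
              vis_ic j hx, show 24 * m + 2 - 2 * x + 1 = 24 * m + 3 - 2 * x by omega,
              H _ (by omega), vis_i j (by omega)]
            unfold OnK
            rw [(pos_port (by omega)).1, pos_0, pos_cell.2.2.1]
            left
            simp only [Kd.A, Kd.B, zz, shf, locE, eo]
            simp only [Nat.reduceEqDiff, if_false, if_true, OfNat.ofNat_ne_zero, OfNat.ofNat_ne_one,
              Prod.mk.injEq, one_ne_zero, Bool.false_eq_true]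
            first | exact ⟨trivial, trivial⟩ | omega | (refine ⟨?_, ?_⟩ <;> first | trivial | omega)
      · rcases Nat.mod_two_eq_zero_or_one q with h5 | h5
        · obtain ⟨x, rfl, hx⟩ : ∃ x, q = 24 * m + 4 + 2 * x ∧ x ≤ 12 * m + 1 :=
            ⟨(q - (24 * m + 4)) / 2, by omega, by omega⟩
          rcases x with _ | x
          · refine ⟨Kd.left j, hj, ?_⟩
            rw [show 24 * m + 4 + 2 * 0 = 24 * m + 3 - 2 * 0 + 1 by omega, T,
              vis_i j (by omega), show 24 * m + 3 - 2 * 0 + 1 = 24 * m + 4 + 2 * 0 by omega,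
              H _ (by omega), vis_h]
            unfold OnK
            rw [(pos_port (by omega)).1, (pos_port (by omega)).2, pos_0, pos_0]
            right
            simp only [Kd.A, Kd.B, zz, Prod.mk.injEq]
            omega
          · refine ⟨Kd.cell x (2 * j) 4, ?_, ?_⟩
            · refine ⟨by omega, by omega, by omega, fun _ => by omega⟩
            · rw [show 24 * m + 4 + 2 * (x + 1) = 24 * m + 5 + 2 * x + 1 by omega, T,
                vis_hc, show 24 * m + 5 + 2 * x + 1 = 24 * m + 4 + 2 * (x + 1) by omega,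
                H _ (by omega), vis_h]
              unfold OnK
              rw [(pos_port (by omega)).1, pos_0, pos_cell.2.2.1]
              left
              simp only [Kd.A, Kd.B, zz, shf, locE, ev]
              simp only [Nat.reduceEqDiff, if_false, if_true, OfNat.ofNat_ne_zero,
                OfNat.ofNat_ne_one, Prod.mk.injEq, true_and]
              first | omega | (refine ⟨?_, ?_⟩ <;> first | trivial | omega)
        · by_cases h7 : q = 48 * m + 7
          · refine ⟨Kd.sh j, hj, ?_⟩
            rw [h7, T (48 * m + 6), ← hl, H0,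
              show 48 * m + 6 = 24 * m + 4 + 2 * (12 * m + 1) by omega, vis_h]
            unfold OnK
            rw [(pos_port (by omega)).2, pos_0]
            left
            constructor
            · simp only [Kd.A, zz]
              simp only [Prod.mk.injEq]
              omega
            · simp [Kd.B, zz, posN, posS]
          · obtain ⟨x, rfl, hx⟩ : ∃ x, q = 24 * m + 5 + 2 * x ∧ x ≤ 12 * m :=
              ⟨(q - (24 * m + 5)) / 2, by omega, by omega⟩
            refine ⟨Kd.cell x (2 * j) 1, ?_, ?_⟩
            · refine ⟨by omega, by omega, by omega, fun _ => by omega⟩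
            · rw [show 24 * m + 5 + 2 * x = 24 * m + 4 + 2 * x + 1 by omega, T,
                vis_h, show 24 * m + 4 + 2 * x + 1 = 24 * m + 5 + 2 * x by omega,
                H _ (by omega), vis_hc]
              unfold OnK
              rw [(pos_port (by omega)).2, pos_0, pos_cell.1]
              right
              simp only [Kd.A, Kd.B, zz, shf, locE, ev]
              simp only [Nat.reduceEqDiff, if_false, if_true, OfNat.ofNat_ne_zero, OfNat.ofNat_ne_one,
                Prod.mk.injEq, one_ne_zero, Bool.false_eq_true]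
              first | exact ⟨trivial, trivial⟩ | omega | (refine ⟨?_, ?_⟩ <;> first | trivial | omega)

/-- The kinds of all arcs. -/
theorem arc_kind {a : ℕ × ℕ × Bool} (h : (net m lt).IsArc a) :
    ∃ e : Kd, e.Valid m (opc m lt) ∧ OnK m lt ((net m lt).tailA a) ((net m lt).headA a) e := by
  obtain ⟨w, q, b⟩ := a
  obtain ⟨hw, h⟩ := h
  simp only at hw h
  rcases h with ⟨rfl, hq⟩ | ⟨rfl, hq, ho⟩
  · exact link_kind hw hq
  · have hok : (net m lt).Ok w q := ⟨hw, hq⟩
    have ho' : netOpt m lt (netVis m w q).1 = false := ho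
    have e1 : (net m lt).tailA (w, q, true) = some (netVis m w q) := rfl
    have e2 : (net m lt).headA (w, q, true) = some ((netVis m w q).1, !(netVis m w q).2) := rfl
    have main : ∀ x y r, netVis m w q = ((2, x, y), r) →
        (y < 2 * m ∧ (x < 12 * m ∨ (x = 12 * m ∧ y % 2 = 0))) →
        ∃ e : Kd, e.Valid m (opc m lt) ∧
          OnK m lt ((net m lt).tailA (w, q, true)) ((net m lt).headA (w, q, true)) e := by
      intro x y r hv hxy
      rw [hv] at ho'
      refine ⟨Kd.cell x y 0, ⟨hxy.1, hxy.2, by omega, fun h => ?_⟩, ?_⟩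
      · rw [show opc m lt x y = netOpt m lt (2, x, y) from rfl, ho'] at h
        exact absurd h (by simp)
      · rw [e1, e2, hv]
        unfold OnK
        simp only [posN, plc, Kd.A, Kd.B, zz, shf, locE, Nat.reduceEqDiff, if_false, if_true,
          OfNat.ofNat_ne_zero, OfNat.ofNat_ne_one]
        cases r
        · left
          simp
        · right
          simp
    rcases kinds hok with h1 | ⟨x, y, hx, hy, -, -, hv⟩ | ⟨x, y, hx, hy, -, -, hv⟩ |
      ⟨j, hj, -, -, hv⟩ | ⟨j, hj, -, -, hv⟩ | ⟨i, hi, -, -, hv⟩ | ⟨i, hi, -, -, hv⟩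
    · rw [opt_port h1] at ho'
      exact absurd ho' (by simp)
    · exact main x y _ hv ⟨hy, Or.inl hx⟩
    · exact main x y _ hv ⟨hy, Or.inl hx⟩
    · exact main _ _ _ hv ⟨by omega, Or.inr ⟨rfl, by omega⟩⟩
    · exact main _ _ _ hv ⟨by omega, Or.inr ⟨rfl, by omega⟩⟩
    · rw [hv] at ho'
      exact absurd ho' (by simp [netOpt])
    · rw [hv] at ho'
      exact absurd ho' (by simp [netOpt])

/-! ### The digraph -/

/-- The codes of the vertices. -/
def vcode (m : ℕ) (lt : ℕ → ℕ → Bool → Bool) (v : Option (Gd × Bool)) : ℕ :=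
  (posN m lt v).1 * (8 * m + 4) + (posN m lt v).2

/-- The positions of the codes. -/
noncomputable def vpos (m n : ℕ) : ℝ × ℝ := rp (zz (n / (8 * m + 4), n % (8 * m + 4)))

theorem vpos_vcode {v : Option (Gd × Bool)} (hv : VV m lt v) :
    vpos m (vcode m lt v) = rp (zz (posN m lt v)) := by
  have h := posN_bd hv
  unfold vpos vcode
  congr 2
  refine Prod.ext ?_ ?_
  · simp only
    rw [mul_comm, Nat.mul_add_div (by omega), Nat.div_eq_of_lt h, add_zero]
  · simp only
    rw [mul_comm, Nat.mul_add_mod, Nat.mod_eq_of_lt h]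

theorem zz_inj {p q : ℕ × ℕ} (h : zz p = zz q) : p = q := by
  unfold zz at h
  simp only [Prod.mk.injEq, Nat.cast_inj] at h
  exact Prod.ext h.1 h.2

theorem VV_occ {v : Option (Gd × Bool)} (h : v ∈ (net m lt).occ) : VV m lt v := by
  obtain ⟨a, ha, rfl | rfl⟩ := h
  · exact (VV_arc ha).1
  · exact (VV_arc ha).2

theorem vcode_inj : Set.InjOn (vcode m lt) (net m lt).occ := by
  intro u hu v hv h
  have e1 := vpos_vcode (VV_occ hu)
  have e2 := vpos_vcode (VV_occ hv)
  rw [h, e2] at e1
  exact (posN_inj (VV_occ hv) (VV_occ hu) (zz_inj (rp_inj e1))).symm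

theorem isVertex_iff {n : ℕ} (h : IsVertex ((net m lt).digraph (vcode m lt)) n) :
    ∃ v ∈ (net m lt).occ, n = vcode m lt v := by
  obtain ⟨a, ha, h⟩ := h
  unfold Diagram.digraph at ha
  rw [List.mem_map] at ha
  obtain ⟨α, hα, rfl⟩ := ha
  rw [Diagram.mem_arcList] at hα
  rcases h with rfl | rfl
  · exact ⟨_, ⟨α, hα, Or.inl rfl⟩, rfl⟩
  · exact ⟨_, ⟨α, hα, Or.inr rfl⟩, rfl⟩

theorem isPlane : IsPlaneDrawing ((net m lt).digraph (vcode m lt)) (vpos m) := by
  have hinj : ∀ u v, IsVertex ((net m lt).digraph (vcode m lt)) u →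
      IsVertex ((net m lt).digraph (vcode m lt)) v → vpos m u = vpos m v → u = v := by
    intro u v hu hv h
    obtain ⟨u', hu', rfl⟩ := isVertex_iff hu
    obtain ⟨v', hv', rfl⟩ := isVertex_iff hv
    rw [vpos_vcode (VV_occ hu'), vpos_vcode (VV_occ hv')] at h
    rw [posN_inj (VV_occ hu') (VV_occ hv') (zz_inj (rp_inj h))]
  have hedge : ∀ a ∈ (net m lt).digraph (vcode m lt), ∀ b ∈ (net m lt).digraph (vcode m lt),
      s(a.1, a.2) ≠ s(b.1, b.2) → ∀ p, p ∈ segment ℝ (vpos m a.1) (vpos m a.2) →
      p ∈ segment ℝ (vpos m b.1) (vpos m b.2) →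
      ∃ w, p = vpos m w ∧ (w = a.1 ∨ w = a.2) ∧ (w = b.1 ∨ w = b.2) := by
    intro a ha b hb hab p hp hq
    unfold Diagram.digraph at ha hb
    rw [List.mem_map] at ha hb
    obtain ⟨α, hα, rfl⟩ := ha
    obtain ⟨β, hβ, rfl⟩ := hb
    rw [Diagram.mem_arcList] at hα hβ
    simp only at hab hp hq ⊢
    have t1 := (VV_arc hα).1
    have t2 := (VV_arc hα).2
    have s1 := (VV_arc hβ).1
    have s2 := (VV_arc hβ).2
    rw [vpos_vcode t1, vpos_vcode t2] at hp
    rw [vpos_vcode s1, vpos_vcode s2] at hq
    obtain ⟨e, he, hoe⟩ := arc_kind hα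
    obtain ⟨f, hf, hof⟩ := arc_kind hβ
    by_cases hef : e = f
    · exfalso
      apply hab
      subst hef
      have hz : ∀ {u v : Option (Gd × Bool)}, VV m lt u → VV m lt v →
          zz (posN m lt u) = zz (posN m lt v) → vcode m lt u = vcode m lt v := by
        intro u v hu hv h
        rw [posN_inj hu hv (zz_inj h)]
      rcases hoe with ⟨c1, c2⟩ | ⟨c1, c2⟩ <;> rcases hof with ⟨d1, d2⟩ | ⟨d1, d2⟩
      · rw [hz t1 s1 (c1.trans d1.symm), hz t2 s2 (c2.trans d2.symm)]
      · rw [hz t1 s2 (c1.trans d2.symm), hz t2 s1 (c2.trans d1.symm), Sym2.eq_swap]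
      · rw [hz t1 s2 (c1.trans d2.symm), hz t2 s1 (c2.trans d1.symm), Sym2.eq_swap]
      · rw [hz t1 s1 (c1.trans d1.symm), hz t2 s2 (c2.trans d2.symm)]
    · have hm := meet_all he hf hef
      have hp' : p ∈ segment ℝ (rp (e.A m (opc m lt))) (rp (e.B m (opc m lt))) := by
        rcases hoe with ⟨c1, c2⟩ | ⟨c1, c2⟩
        · rw [← c1, ← c2]
          exact hp
        · rw [← c1, ← c2, segment_symm]
          exact hp
      have hq' : p ∈ segment ℝ (rp (f.A m (opc m lt))) (rp (f.B m (opc m lt))) := by
        rcases hof with ⟨c1, c2⟩ | ⟨c1, c2⟩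
        · rw [← c1, ← c2]
          exact hq
        · rw [← c1, ← c2, segment_symm]
          exact hq
      obtain ⟨P, h1, h2, h3⟩ := hm p hp' hq'
      have k1 : P = zz (posN m lt ((net m lt).tailA α)) ∨
          P = zz (posN m lt ((net m lt).headA α)) := by
        rcases hoe with ⟨c1, c2⟩ | ⟨c1, c2⟩
        · rw [c1, c2]
          exact h1
        · rw [c1, c2]
          exact h1.symm
      have k2 : P = zz (posN m lt ((net m lt).tailA β)) ∨
          P = zz (posN m lt ((net m lt).headA β)) := by
        rcases hof with ⟨c1, c2⟩ | ⟨c1, c2⟩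
        · rw [c1, c2]
          exact h2
        · rw [c1, c2]
          exact h2.symm
      have fin : ∀ u, VV m lt u → P = zz (posN m lt u) →
          vcode m lt u = vcode m lt ((net m lt).tailA β) ∨
            vcode m lt u = vcode m lt ((net m lt).headA β) := by
        intro u hu hP
        rcases k2 with k2 | k2
        · left
          rw [posN_inj hu s1 (zz_inj (hP.symm.trans k2))]
        · right
          rw [posN_inj hu s2 (zz_inj (hP.symm.trans k2))]
      rcases k1 with k1 | k1
      · refine ⟨vcode m lt ((net m lt).tailA α), ?_, Or.inl rfl, fin _ t1 k1⟩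
        rw [vpos_vcode t1, ← k1]
        exact h3
      · refine ⟨vcode m lt ((net m lt).headA α), ?_, Or.inr rfl, fin _ t2 k1⟩
        rw [vpos_vcode t2, ← k1]
        exact h3
  refine ⟨hinj, ?_, hedge⟩
  intro a ha w hw hp
  obtain ⟨b, hb, hwb⟩ := hw
  have hwV : IsVertex ((net m lt).digraph (vcode m lt)) w := ⟨b, hb, hwb⟩
  by_cases hab : s(a.1, a.2) = s(b.1, b.2)
  · rw [Sym2.eq_iff] at hab
    rcases hab with ⟨h1, h2⟩ | ⟨h1, h2⟩
    · rw [h1, h2]
      exact hwb
    · rw [h1, h2]
      exact hwb.symm
  · have hq : vpos m w ∈ segment ℝ (vpos m b.1) (vpos m b.2) := by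
      rcases hwb with rfl | rfl
      · exact left_mem_segment _ _ _
      · exact right_mem_segment _ _ _
    obtain ⟨w', h1, h2, -⟩ := hedge a ha b hb hab _ hp hq
    have hw' : IsVertex ((net m lt).digraph (vcode m lt)) w' := ⟨a, ha, h2⟩
    rw [hinj w w' hwV hw' h1]
    exact h2

/-- **The reduction.** -/
theorem net_main (hlt : ∀ j i, ¬ (lt j i true = true ∧ lt j i false = true)) :
    IsInput ((net m lt).digraph (vcode m lt), 7 * m) ∧
    (MinDCD ((net m lt).digraph (vcode m lt), 7 * m) ↔
      ∃ τ : ℕ → Bool, ∀ j < m, ∃ i < 3 * m, ∃ b, lt j i b = true ∧ τ i = b) := by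
  refine ⟨⟨(net m lt).loopless net_good _ vcode_inj, (net m lt).eulerian _, _, isPlane⟩, ?_⟩
  rw [(net m lt).minDCD_iff _ vcode_inj]
  exact net_iff hlt

end Pool.Agent.K6.H49.DC
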