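import Pool.Agent.K6.H49.DC.Pln
import Pool.Agent.H671R2.PolyAuto
import Pool.Agent.NPC.Sat2
import Pool.Agent.NPC.Dec

/-!
# The reduction from 3SAT
-/

set_option autoImplicit false

namespace Pool.Agent.K6.H49.DC

open Pool.Agent.NPC

abbrev Cl : Type := (Bool × ℕ) × (Bool × ℕ) × (Bool × ℕ)
abbrev Fm : Type := List Cl

/-- The literal of `i` with sign `b` occurs in the clause. -/
def litq (c : Cl) (i : ℕ) (b : Bool) : Bool :=
  decide (c.1 = (b, i)) || decide (c.2.1 = (b, i)) || decide (c.2.2 = (b, i))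

def dflt : Cl := ((false, 0), (false, 0), (false, 0))

/-- The literal of `i` with sign `b` occurs in the clause `j`. -/
def flt (φ : Fm) (j i : ℕ) (b : Bool) : Bool := litq (φ.getD j dflt) i b

theorem flt_both {φ : Fm} (h : Distinct3 φ) (j i : ℕ) :
    ¬ (flt φ j i true = true ∧ flt φ j i false = true) := by
  unfold flt
  rcases Nat.lt_or_ge j φ.length with hj | hj
  · rw [List.getD_eq_getElem _ _ hj]
    have hd := h _ (List.getElem_mem hj)
    generalize φ[j] = c at hd ⊢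
    obtain ⟨⟨b1, x1⟩, ⟨b2, x2⟩, b3, x3⟩ := c
    simp only at hd
    unfold litq
    simp only [Bool.or_eq_true, decide_eq_true_eq, Prod.mk.injEq]
    rintro ⟨h1, h2⟩
    rcases h1 with (⟨rfl, rfl⟩ | ⟨rfl, rfl⟩) | ⟨rfl, rfl⟩ <;>
      rcases h2 with (⟨h2, h3⟩ | ⟨h2, h3⟩) | ⟨h2, h3⟩ <;> first | omega | simp at h2
  · rw [List.getD_eq_default _ _ hj]
    unfold litq dflt
    simp

theorem sat_iff {φ : Fm} (hb : Bounded3 φ) : SAT3 φ ↔
    ∃ τ : ℕ → Bool, ∀ j < φ.length, ∃ i < 3 * φ.length, ∃ b, flt φ j i b = true ∧ τ i = b := by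
  unfold SAT3 Sat3V
  constructor
  · rintro ⟨τ, hτ⟩
    refine ⟨τ, fun j hj => ?_⟩
    have hc := hτ _ (List.getElem_mem hj)
    have hb' := hb _ (List.getElem_mem hj)
    unfold flt
    rw [List.getD_eq_getElem _ _ hj]
    generalize φ[j] = c at hc hb' ⊢
    obtain ⟨⟨b1, x1⟩, ⟨b2, x2⟩, b3, x3⟩ := c
    simp only at hc hb'
    unfold litq
    rcases hc with hc | hc | hc
    · exact ⟨x1, hb'.1, b1, by simp, hc⟩
    · exact ⟨x2, hb'.2.1, b2, by simp, hc⟩
    · exact ⟨x3, hb'.2.2, b3, by simp, hc⟩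
  · rintro ⟨τ, hτ⟩
    refine ⟨τ, fun c hc => ?_⟩
    obtain ⟨j, hj, rfl⟩ := List.mem_iff_getElem.1 hc
    obtain ⟨i, _, b, h1, h2⟩ := hτ j hj
    unfold flt at h1
    rw [List.getD_eq_getElem _ _ hj] at h1
    generalize φ[j] = c at h1 ⊢
    obtain ⟨⟨b1, x1⟩, ⟨b2, x2⟩, b3, x3⟩ := c
    unfold litq at h1
    simp only [Bool.or_eq_true, decide_eq_true_eq, Prod.mk.injEq] at h1 ⊢
    rcases h1 with (⟨rfl, rfl⟩ | ⟨rfl, rfl⟩) | ⟨rfl, rfl⟩
    · exact Or.inl h2
    · exact Or.inr (Or.inl h2)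
    · exact Or.inr (Or.inr h2)

/-- The instance. -/
def red (φ : Fm) : List (ℕ × ℕ) × ℕ :=
  ((net φ.length (flt φ)).digraph (vcode φ.length (flt φ)), 7 * φ.length)

/-! ### Polynomial time -/

def posX (op : Bool) (v : Gd × Bool) : ℕ :=
  if v.1.1 = 0 then 4 * v.1.2.1
  else if v.1.1 = 1 then 4 * v.1.2.1 + 2
  else if v.1.1 = 2 then 4 * v.1.2.1 +
    (if v.2 then lbN (isEv v.1.2.2) (isUp v.1.2.1) op
      else laN (isEv v.1.2.2) (isUp v.1.2.1) op).1
  else 16 * v.1.2.1 + 8

def posY (m : ℕ) (op : Bool) (v : Gd × Bool) : ℕ :=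
  if v.1.1 = 0 then 4 * v.1.2.2 + 3
  else if v.1.1 = 1 then 4 * v.1.2.2 + 1
  else if v.1.1 = 2 then 4 * v.1.2.2 + 1 +
    (if v.2 then lbN (isEv v.1.2.2) (isUp v.1.2.1) op
      else laN (isEv v.1.2.2) (isUp v.1.2.1) op).2
  else 8 * m + 3

/-- The code of a vertex of a gadget. -/
def cd (m : ℕ) (op : Bool) (v : Gd × Bool) : ℕ := posX op v * (8 * m + 4) + posY m op v

theorem cd_eq (m : ℕ) (lt : ℕ → ℕ → Bool → Bool) (v : Gd × Bool) :
    vcode m lt (some v) = cd m (netOpt m lt (2, v.1.2.1, v.1.2.2)) v := by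
  obtain ⟨⟨t, x, y⟩, r⟩ := v
  unfold vcode cd posX posY
  simp only [posN, plc, opc]
  split_ifs <;> rfl

def oG (φ : Fm) (g : Gd) : Bool := netOpt φ.length (flt φ) g

def cdF (φ : Fm) (v : Gd × Bool) : ℕ := cd φ.length (oG φ (2, v.1.2.1, v.1.2.2)) v

def outF (φ : Fm) (v : Gd × Bool) : Gd × Bool := if oG φ v.1 then (v.1, false) else (v.1, !v.2)

def inF (φ : Fm) (v : Gd × Bool) : Gd × Bool := if oG φ v.1 then (v.1, false) else v

def tc (φ : Fm) (a : ℕ × ℕ × Bool) : ℕ :=
  if a.2.2 then cdF φ (netVis φ.length a.1 a.2.1)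
  else if a.2.1 = 0 then (64 * φ.length + 10) * (8 * φ.length + 4)
  else cdF φ (outF φ (netVis φ.length a.1 (a.2.1 - 1)))

def hc (φ : Fm) (a : ℕ × ℕ × Bool) : ℕ :=
  if a.2.2 then cdF φ ((netVis φ.length a.1 a.2.1).1, !(netVis φ.length a.1 a.2.1).2)
  else if a.2.1 = netLen φ.length a.1 then (64 * φ.length + 10) * (8 * φ.length + 4)
  else cdF φ (inF φ (netVis φ.length a.1 a.2.1))

theorem tc_eq (φ : Fm) (a : ℕ × ℕ × Bool) :
    vcode φ.length (flt φ) ((net φ.length (flt φ)).tailA a) = tc φ a := by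
  unfold tc Diagram.tailA
  split_ifs with h1 h2
  · exact cd_eq _ _ _
  · rfl
  · exact cd_eq _ _ _

theorem hc_eq (φ : Fm) (a : ℕ × ℕ × Bool) :
    vcode φ.length (flt φ) ((net φ.length (flt φ)).headA a) = hc φ a := by
  unfold hc Diagram.headA
  have h1 : (net φ.length (flt φ)).len = netLen φ.length := rfl
  rw [h1]
  split_ifs with h1 h2
  · exact cd_eq _ _ _
  · rfl
  · exact cd_eq _ _ _

/-- The arcs. -/
def arcs (φ : Fm) : List (ℕ × ℕ × Bool) :=
  (List.range (7 * φ.length)).flatMap fun w =>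
    (List.range (netLen φ.length w)).flatMap (fun q =>
      (w, q, false) :: (if oG φ (netVis φ.length w q).1 then [] else [(w, q, true)])) ++
      [(w, netLen φ.length w, false)]

theorem red_eq (φ : Fm) : red φ = ((arcs φ).map fun a => (tc φ a, hc φ a), 7 * φ.length) := by
  unfold red Diagram.digraph
  have h : (net φ.length (flt φ)).arcList = arcs φ := rfl
  rw [h]
  simp only [tc_eq, hc_eq]

section
variable {α : Type} [TEnc α]

theorem poly_len {φ : α → Fm} (hφ : Poly φ) : Poly (fun a => (φ a).length) := by fun_prop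

theorem poly_oG {φ : α → Fm} {g : α → Gd} (hφ : Poly φ) (hg : Poly g) :
    Poly (fun a => oG (φ a) (g a)) := by
  unfold oG netOpt flt litq
  fun_prop

theorem poly_uc {w : α → ℕ} (hw : Poly w) : Poly (fun a => uc (w a)) := by
  unfold uc
  fun_prop

theorem poly_dc {w : α → ℕ} (hw : Poly w) : Poly (fun a => dc (w a)) := by
  unfold dc
  fun_prop

attribute [local fun_prop] poly_oG poly_uc poly_dc

theorem poly_netVis {m w q : α → ℕ} (hm : Poly m) (hw : Poly w) (hq : Poly q) :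
    Poly (fun a => netVis (m a) (w a) (q a)) := by
  unfold netVis
  fun_prop

theorem poly_netLen {m w : α → ℕ} (hm : Poly m) (hw : Poly w) :
    Poly (fun a => netLen (m a) (w a)) := by
  unfold netLen
  fun_prop

theorem poly_laN {a b c : α → Bool} (ha : Poly a) (hb : Poly b) (hc : Poly c) :
    Poly (fun x => laN (a x) (b x) (c x)) := by
  unfold laN
  fun_prop

theorem poly_lbN {a b c : α → Bool} (ha : Poly a) (hb : Poly b) (hc : Poly c) :
    Poly (fun x => lbN (a x) (b x) (c x)) := by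
  unfold lbN
  fun_prop

theorem poly_isUp {x : α → ℕ} (hx : Poly x) : Poly (fun a => isUp (x a)) := by
  unfold isUp
  fun_prop

theorem poly_isEv {x : α → ℕ} (hx : Poly x) : Poly (fun a => isEv (x a)) := by
  unfold isEv
  fun_prop

attribute [local fun_prop] poly_netVis poly_netLen poly_laN poly_lbN poly_isUp poly_isEv

theorem poly_posX {op : α → Bool} {v : α → Gd × Bool} (ho : Poly op) (hv : Poly v) :
    Poly (fun a => posX (op a) (v a)) := by
  unfold posX
  fun_prop

theorem poly_posY {m : α → ℕ} {op : α → Bool} {v : α → Gd × Bool} (hm : Poly m) (ho : Poly op)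
    (hv : Poly v) : Poly (fun a => posY (m a) (op a) (v a)) := by
  unfold posY
  fun_prop

attribute [local fun_prop] poly_posX poly_posY

theorem poly_cdF {φ : α → Fm} {v : α → Gd × Bool} (hφ : Poly φ) (hv : Poly v) :
    Poly (fun a => cdF (φ a) (v a)) := by
  unfold cdF cd
  fun_prop

theorem poly_outF {φ : α → Fm} {v : α → Gd × Bool} (hφ : Poly φ) (hv : Poly v) :
    Poly (fun a => outF (φ a) (v a)) := by
  unfold outF
  fun_prop

theorem poly_inF {φ : α → Fm} {v : α → Gd × Bool} (hφ : Poly φ) (hv : Poly v) :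
    Poly (fun a => inF (φ a) (v a)) := by
  unfold inF
  fun_prop

attribute [local fun_prop] poly_cdF poly_outF poly_inF

theorem poly_tc {φ : α → Fm} {a : α → ℕ × ℕ × Bool} (hφ : Poly φ) (ha : Poly a) :
    Poly (fun x => tc (φ x) (a x)) := by
  unfold tc
  fun_prop

theorem poly_hc {φ : α → Fm} {a : α → ℕ × ℕ × Bool} (hφ : Poly φ) (ha : Poly a) :
    Poly (fun x => hc (φ x) (a x)) := by
  unfold hc
  fun_prop

end

attribute [local fun_prop] poly_oG poly_netVis

theorem poly_arcs : Poly arcs := by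
  have hl : UPoly (fun φ : Fm => φ.length) := UPoly.length Poly.id
  have h1 : Poly (fun φ : Fm => List.range (7 * φ.length)) :=
    UPoly.range (UPoly.mul (UPoly.const 7) hl)
  have h2 : Poly (fun p : Fm × ℕ => List.range (netLen p.1.length p.2)) := by
    refine UPoly.range (UPoly.of_le (n := fun p : Fm × ℕ => 48 * p.1.length + 7) ?_ ?_ ?_)
    · exact poly_netLen (poly_len (Poly.fst Poly.id)) (Poly.snd Poly.id)
    · exact UPoly.add (UPoly.mul (UPoly.const 48) (hl.comp (Poly.fst Poly.id))) (UPoly.const 7)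
    · intro p
      unfold netLen
      split_ifs <;> omega
  have h3 : Poly (fun p : (Fm × ℕ) × ℕ => ((p.1.2, p.2, false) : ℕ × ℕ × Bool) ::
      (if oG p.1.1 (netVis p.1.1.length p.1.2 p.2).1 then [] else [(p.1.2, p.2, true)])) := by
    refine Poly.cons (by fun_prop) (Poly.ite ?_ (NPC.Poly.const []) ?_)
    · fun_prop
    · fun_prop
  have h4 : Poly (fun p : Fm × ℕ => (List.range (netLen p.1.length p.2)).flatMap (fun q =>
      ((p.2, q, false) : ℕ × ℕ × Bool) ::
        (if oG p.1 (netVis p.1.length p.2 q).1 then [] else [(p.2, q, true)]))) :=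
    NPC.Poly.flatMap (F := fun (p : Fm × ℕ) (q : ℕ) => ((p.2, q, false) : ℕ × ℕ × Bool) ::
        (if oG p.1 (netVis p.1.length p.2 q).1 then [] else [(p.2, q, true)])) h2 h3
  have h5 : Poly (fun p : Fm × ℕ => [((p.2, netLen p.1.length p.2, false) : ℕ × ℕ × Bool)]) := by
    refine Poly.cons (Poly.pair (Poly.snd Poly.id) (Poly.pair
      (poly_netLen (poly_len (Poly.fst Poly.id)) (Poly.snd Poly.id)) (NPC.Poly.const false)))
      (NPC.Poly.const [])
  exact NPC.Poly.flatMap (F := fun (φ : Fm) (w : ℕ) =>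
    (List.range (netLen φ.length w)).flatMap (fun q =>
      (w, q, false) :: (if oG φ (netVis φ.length w q).1 then [] else [(w, q, true)])) ++
      [(w, netLen φ.length w, false)]) h1 (Poly.append h4 h5)

theorem poly_red : Poly red := by
  have h1 : Poly (fun φ : Fm => (arcs φ).map fun a => (tc φ a, hc φ a)) :=
    NPC.Poly.map (F := fun (φ : Fm) (a : ℕ × ℕ × Bool) => (tc φ a, hc φ a)) poly_arcs
      (Poly.pair (poly_tc (Poly.fst Poly.id) (Poly.snd Poly.id))
        (poly_hc (Poly.fst Poly.id) (Poly.snd Poly.id)))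
  exact (Poly.pair h1 (Poly.mul (NPC.Poly.const 7) (poly_len Poly.id))).congr fun φ =>
    (red_eq φ).symm

/-- **Hardness of the promise problem.** -/
theorem hardPr_minDCD : HardPr IsInput MinDCD :=
  hardPr_SAT3b.trans poly_red (fun φ hφ => (net_main (flt_both hφ.1)).1)
    fun φ hφ => (sat_iff hφ.2.1).trans (net_main (flt_both hφ.1)).2.symm

theorem hardI_planar : HardI (fun x : List (ℕ × ℕ) × ℕ => IsInput x ∧ MinDCD x) := by
  intro L hL
  obtain ⟨f, hf, hpr, hfL⟩ := hardPr_minDCD L hL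
  exact ⟨f, hf, fun x => (hfL x).trans ⟨fun h => ⟨hpr x, h⟩, fun h => h.2⟩⟩

end Pool.Agent.K6.H49.DC
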