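import Pool.Agent.K6.H49.DC.Net

/-!
# A decomposition of the digraph of a formula gives a satisfying assignment
-/

set_option autoImplicit false

namespace Pool.Agent.K6.H49.DC

variable {m : ℕ} {lt : ℕ → ℕ → Bool → Bool}

/-- The position of the vertical visit of the cell `(x, y)`; the wire is `x / 2`. -/
def vq (m x y : ℕ) : ℕ := if x % 4 = 0 ∨ x % 4 = 3 then 2 * y + 1 else 8 * m + 1 - 2 * y

/-- The position of the horizontal visit of the cell `(x, y)`; the wire is `6 m + y / 2`. -/
def hq (m x y : ℕ) : ℕ := if y % 2 = 1 then 24 * m + 2 - 2 * x else 24 * m + 5 + 2 * x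

theorem vis_vert {x y : ℕ} (hx : x < 12 * m) (hy : y < 2 * m) :
    netVis m (x / 2) (vq m x y) = ((2, x, y), true) := by
  unfold vq
  split_ifs with h
  · rw [vis_u (by omega) hy]
    have : uc (x / 2) = x := by
      unfold uc
      omega
    rw [this]
  · rw [vis_d (by omega) hy]
    have : dc (x / 2) = x := by
      unfold dc
      omega
    rw [this]

theorem vis_hor {x y : ℕ} (hx : x < 12 * m) :
    netVis m (6 * m + y / 2) (hq m x y) = ((2, x, y), false) := by
  unfold hq
  split_ifs with h
  · rw [vis_ic _ hx, show 2 * (y / 2) + 1 = y by omega]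
  · rw [vis_hc, show 2 * (y / 2) = y by omega]

theorem ok_vert {x y : ℕ} (hx : x < 12 * m) (hy : y < 2 * m) :
    (net m lt).Ok (x / 2) (vq m x y) := by
  refine ⟨?_, ?_⟩
  · change x / 2 < 7 * m
    omega
  · change vq m x y < netLen m (x / 2)
    rw [len_v (by omega)]
    unfold vq
    split_ifs <;> omega

theorem ok_hor {x y : ℕ} (hx : x < 12 * m) (hy : y < 2 * m) :
    (net m lt).Ok (6 * m + y / 2) (hq m x y) := by
  refine ⟨?_, ?_⟩
  · change 6 * m + y / 2 < 7 * m
    omega
  · change hq m x y < netLen m (6 * m + y / 2)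
    rw [len_c]
    unfold hq
    split_ifs <;> omega

theorem ok_v {w q : ℕ} (hw : w < 6 * m) (hq : q < 8 * m + 3) : (net m lt).Ok w q := by
  refine ⟨?_, ?_⟩
  · change w < 7 * m
    omega
  · change q < netLen m w
    rw [len_v hw]
    exact hq

theorem ok_c {j q : ℕ} (hj : j < m) (hq : q < 48 * m + 7) : (net m lt).Ok (6 * m + j) q := by
  refine ⟨?_, ?_⟩
  · change 6 * m + j < 7 * m
    omega
  · change q < netLen m (6 * m + j)
    rw [len_c]
    exact hq

/-- The rules of the network. -/
structure Rules (m : ℕ) (lt : ℕ → ℕ → Bool → Bool) {Γ : Type} (κ : ℕ → ℕ → Γ) : Prop where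
  port : ∀ w q, (net m lt).Ok w q → (netVis m w q).1.1 ≤ 1 → κ w (q + 1) = κ w q
  cross : ∀ w q w' q' x y, (net m lt).Ok w q → (net m lt).Ok w' q' →
    netVis m w q = ((2, x, y), true) → netVis m w' q' = ((2, x, y), false) →
    netOpt m lt (2, x, y) = false →
    κ w (q + 1) = κ w q ∧ κ w' (q' + 1) = κ w' q' ∧ κ w q ≠ κ w' q'
  swap : ∀ w q w' q' g, (net m lt).Ok w q → (net m lt).Ok w' q' →
    netVis m w q = (g, true) → netVis m w' q' = (g, false) →
    netOpt m lt g = true → κ w q ≠ κ w' q' ∧
      ((κ w (q + 1) = κ w q ∧ κ w' (q' + 1) = κ w' q') ∨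
        (κ w (q + 1) = κ w' q' ∧ κ w' (q' + 1) = κ w q))

theorem rules_net
    (h : CycLE (fun a : (net m lt).Arc => (net m lt).tailA a.1)
      (fun a => (net m lt).headA a.1) (7 * m)) :
    ∃ (Γ : Type) (κ : ℕ → ℕ → Γ), Rules m lt κ := by
  obtain ⟨Γ, κ, h1, h2, h3⟩ := Diagram.rules (d := net m lt) net_good h
  refine ⟨Γ, κ, ⟨?_, ?_, ?_⟩⟩
  · intro w q hok hp
    refine h1 w q hok (opt_port hp) fun w' q' hok' hv => ?_
    have hv1 : (netVis m w' q').1 = (netVis m w q).1 := hv
    have e1 := port_role hp
    have e2 : (netVis m w' q').2 = false := port_role (by rw [hv1]; exact hp)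
    exact net_inj hok' hok (Prod.ext hv1 (e2.trans e1.symm))
  · intro w q w' q' x y hok hok' hv hv' ho
    have a1 : (net m lt).vis w q = ((2, x, y), true) := hv
    have a2 : (net m lt).vis w' q' = ((2, x, y), false) := hv'
    obtain ⟨k1, k2⟩ := h2 w q w' q' hok hok' (by rw [a1, a2]; rfl) (by rw [a1]; exact ho)
    obtain ⟨k3, -⟩ := h2 w' q' w q hok' hok (by rw [a1, a2]; rfl) (by rw [a2]; exact ho)
    exact ⟨k1, k3, k2⟩
  · intro w q w' q' g hok hok' hv hv' ho
    have a1 : (net m lt).vis w q = (g, true) := hv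
    have a2 : (net m lt).vis w' q' = (g, false) := hv'
    exact h3 w q w' q' hok hok' (by rw [a1, a2]; rfl) (by rw [a1]; exact ho)

namespace Rules

variable {Γ : Type} {κ : ℕ → ℕ → Γ}

theorem cell (h : Rules m lt κ) {x y : ℕ} (hx : x < 12 * m) (hy : y < 2 * m)
    (ho : netOpt m lt (2, x, y) = false) :
    κ (x / 2) (vq m x y + 1) = κ (x / 2) (vq m x y) ∧
      κ (6 * m + y / 2) (hq m x y + 1) = κ (6 * m + y / 2) (hq m x y) ∧
      κ (x / 2) (vq m x y) ≠ κ (6 * m + y / 2) (hq m x y) :=
  h.cross _ _ _ _ x y (ok_vert hx hy) (ok_hor hx hy) (vis_vert hx hy) (vis_hor hx) ho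

theorem cellO (h : Rules m lt κ) {x y : ℕ} (hx : x < 12 * m) (hy : y < 2 * m)
    (ho : netOpt m lt (2, x, y) = true) :
    κ (x / 2) (vq m x y) ≠ κ (6 * m + y / 2) (hq m x y) ∧
      ((κ (x / 2) (vq m x y + 1) = κ (x / 2) (vq m x y) ∧
        κ (6 * m + y / 2) (hq m x y + 1) = κ (6 * m + y / 2) (hq m x y)) ∨
      (κ (x / 2) (vq m x y + 1) = κ (6 * m + y / 2) (hq m x y) ∧
        κ (6 * m + y / 2) (hq m x y + 1) = κ (x / 2) (vq m x y))) :=
  h.swap _ _ _ _ (2, x, y) (ok_vert hx hy) (ok_hor hx hy) (vis_vert hx hy) (vis_hor hx) ho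

/-- A wire of a variable keeps its colour on the way up. -/
theorem up (h : Rules m lt κ) {w : ℕ} (hw : w < 6 * m) :
    ∀ q, q ≤ 4 * m + 1 → κ w q = κ w 0 := by
  intro q
  induction q with
  | zero => intro _; rfl
  | succ q ih =>
    intro hq
    rw [← ih (by omega)]
    rcases Nat.even_or_odd' q with ⟨y, rfl | rfl⟩
    · exact h.port _ _ (ok_v hw (by omega)) (by rw [vis_v hw (by omega)])
    · have hu := uc_spec w
      have hc := h.cell (x := uc w) (y := y) (by omega) (by omega)
        (opt_col (by omega))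
      have e : vq m (uc w) y = 2 * y + 1 := by
        unfold vq
        rw [if_pos hu.1]
      rw [e, hu.2.1] at hc
      exact hc.1

/-- The wire of a clause keeps its colour until it comes back. -/
theorem back (h : Rules m lt κ) {j : ℕ} (hj : j < m) :
    ∀ q, q ≤ 24 * m + 5 → κ (6 * m + j) q = κ (6 * m + j) 0 := by
  intro q
  induction q with
  | zero => intro _; rfl
  | succ q ih =>
    intro hb
    rw [← ih (by omega)]
    rcases Nat.lt_or_ge q 3 with h3 | h3
    · interval_cases q
      · exact h.port _ _ (ok_c hj (by omega)) (by rw [vis_0])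
      · have ho : netOpt m lt (2, 12 * m, 2 * j) = false := opt_right le_rfl
        exact (h.cross _ _ _ _ _ _ (ok_c hj (by omega)) (ok_c hj (by omega)) (vis_1 j)
          (vis_hc j (12 * m)) ho).1
      · exact h.port _ _ (ok_c hj (by omega)) (by rw [vis_2])
    · rcases Nat.lt_or_ge q (24 * m + 4) with h4 | h4
      · rcases Nat.mod_two_eq_zero_or_one (24 * m + 3 - q) with h5 | h5
        · obtain ⟨x, hx⟩ : ∃ x, q = 24 * m + 3 - 2 * x ∧ x ≤ 12 * m :=
            ⟨(24 * m + 3 - q) / 2, by omega, by omega⟩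
          obtain ⟨rfl, hx⟩ := hx
          exact h.port _ _ (ok_c hj (by omega)) (by rw [vis_i j hx]; simp)
        · obtain ⟨x, hx⟩ : ∃ x, q = 24 * m + 2 - 2 * x ∧ x < 12 * m :=
            ⟨(24 * m + 2 - q) / 2, by omega, by omega⟩
          obtain ⟨rfl, hx⟩ := hx
          have hc := h.cell (x := x) (y := 2 * j + 1) hx (by omega) (opt_odd (by omega))
          have e : hq m x (2 * j + 1) = 24 * m + 2 - 2 * x := by
            unfold hq
            rw [if_pos (by omega)]
          rw [e, show (2 * j + 1) / 2 = j by omega] at hc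
          exact hc.2.1
      · have : q = 24 * m + 4 + 2 * 0 := by omega
        rw [this]
        exact h.port _ _ (ok_c hj (by omega)) (by rw [vis_h j 0]; simp)

/-- After an optional gadget, the wire of the clause does not have the colour of the wire in the
last column of the variable. -/
theorem noA (h : Rules m lt κ) (hlt : ∀ j i, ¬ (lt j i true = true ∧ lt j i false = true))
    {x j : ℕ} (hj : j < m) (ho : netOpt m lt (2, x, 2 * j) = true) :
    κ (6 * m + j) (24 * m + 6 + 2 * x) ≠ κ (2 * (x / 4) + 1) 0 := by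
  obtain ⟨hx, hl⟩ := opt_lit.1 ho
  -- the crossing with the wire going up in the last column
  have last : κ (6 * m + j) (24 * m + 4 + 2 * (4 * (x / 4) + 3)) ≠ κ (2 * (x / 4) + 1) 0 := by
    have hc := h.cell (x := 4 * (x / 4) + 3) (y := 2 * j) (by omega) (by omega)
      (opt_col (by omega))
    have e1 : vq m (4 * (x / 4) + 3) (2 * j) = 2 * (2 * j) + 1 := by
      unfold vq
      rw [if_pos (by omega)]
    have e2 : hq m (4 * (x / 4) + 3) (2 * j) = 24 * m + 5 + 2 * (4 * (x / 4) + 3) := by
      unfold hq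
      rw [if_neg (by omega)]
    rw [e1, e2, show (4 * (x / 4) + 3) / 2 = 2 * (x / 4) + 1 by omega,
      show 2 * j / 2 = j by omega] at hc
    have hp := h.port (6 * m + j) (24 * m + 4 + 2 * (4 * (x / 4) + 3)) (ok_c hj (by omega))
      (by rw [vis_h]; simp)
    rw [← hp, show 24 * m + 4 + 2 * (4 * (x / 4) + 3) + 1 = 24 * m + 5 + 2 * (4 * (x / 4) + 3)
      by omega]
    rw [h.up (w := 2 * (x / 4) + 1) (by omega) (2 * (2 * j) + 1) (by omega)] at hc
    exact fun he => hc.2.2 he.symm
  rcases hl with ⟨h1, h2⟩ | ⟨h1, h2⟩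
  · have ho' : netOpt m lt (2, x + 1, 2 * j) = false := by
      by_contra hn
      rw [Bool.not_eq_false, opt_lit] at hn
      obtain ⟨_, hn | hn⟩ := hn
      · omega
      · rw [show (x + 1) / 4 = x / 4 by omega] at hn
        exact hlt j (x / 4) ⟨h2, hn.2⟩
    have hc := h.cell (x := x + 1) (y := 2 * j) (by omega) (by omega) ho'
    have e2 : hq m (x + 1) (2 * j) = 24 * m + 5 + 2 * (x + 1) := by
      unfold hq
      rw [if_neg (by omega)]
    rw [e2, show 2 * j / 2 = j by omega] at hc
    have hp := h.port (6 * m + j) (24 * m + 4 + 2 * (x + 1)) (ok_c hj (by omega))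
      (by rw [vis_h]; simp)
    rw [show 24 * m + 6 + 2 * x = 24 * m + 4 + 2 * (x + 1) by omega, ← hp,
      show 24 * m + 4 + 2 * (x + 1) + 1 = 24 * m + 5 + 2 * (x + 1) by omega, ← hc.2.1,
      show 24 * m + 5 + 2 * (x + 1) + 1 = 24 * m + 4 + 2 * (4 * (x / 4) + 3) by omega]
    exact last
  · rw [show 24 * m + 6 + 2 * x = 24 * m + 4 + 2 * (4 * (x / 4) + 3) by omega]
    exact last

/-- The colour of the wire in the last column of a variable stays in its column. -/
theorem down (h : Rules m lt κ) (hlt : ∀ j i, ¬ (lt j i true = true ∧ lt j i false = true))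
    {w : ℕ} (hw : w < 6 * m) (hA : κ w (4 * m + 2) = κ (2 * (w / 2) + 1) 0) :
    ∀ q, 4 * m + 2 ≤ q → q ≤ 8 * m + 3 → κ w q = κ (2 * (w / 2) + 1) 0 := by
  intro q hb
  induction q, hb using Nat.le_induction with
  | base => intro _; exact hA
  | succ q hb ih =>
    intro hb2
    rw [← ih (by omega)]
    rcases Nat.mod_two_eq_zero_or_one q with h5 | h5
    · obtain ⟨y, hy⟩ : ∃ y, q = 8 * m + 2 - 2 * y ∧ y ≤ 2 * m :=
        ⟨(8 * m + 2 - q) / 2, by omega, by omega⟩
      obtain ⟨rfl, hy⟩ := hy
      exact h.port _ _ (ok_v hw (by omega)) (by rw [vis_w hw hy])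
    · obtain ⟨y, hy⟩ : ∃ y, q = 8 * m + 1 - 2 * y ∧ y < 2 * m :=
        ⟨(8 * m + 1 - q) / 2, by omega, by omega⟩
      obtain ⟨rfl, hy⟩ := hy
      have hd := dc_spec w
      have e1 : vq m (dc w) y = 8 * m + 1 - 2 * y := by
        unfold vq
        rw [if_neg (by omega)]
      cases ho : netOpt m lt (2, dc w, y)
      · have hc := h.cell (x := dc w) (y := y) (by omega) hy ho
        rw [e1, hd.2.1] at hc
        exact hc.1
      · have hy2 : y % 2 = 0 := by
          by_contra hn
          rw [opt_odd (by omega)] at ho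
          exact absurd ho (by simp)
        obtain ⟨j, rfl⟩ : ∃ j, y = 2 * j := ⟨y / 2, by omega⟩
        have hc := h.cellO (x := dc w) (y := 2 * j) (by omega) hy ho
        have e2 : hq m (dc w) (2 * j) = 24 * m + 5 + 2 * dc w := by
          unfold hq
          rw [if_neg (by omega)]
        rw [e1, e2, hd.2.1, show 2 * j / 2 = j by omega] at hc
        rcases hc.2 with hc | hc
        · exact hc.1
        · exfalso
          refine h.noA hlt (j := j) (by omega) ho ?_
          rw [show 24 * m + 6 + 2 * dc w = 24 * m + 5 + 2 * dc w + 1 by omega, hc.2,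
            ih (by omega), show dc w / 4 = w / 2 by omega]

/-- **Soundness.** -/
theorem sat (h : Rules m lt κ) (hlt : ∀ j i, ¬ (lt j i true = true ∧ lt j i false = true)) :
    ∃ τ : ℕ → Bool, ∀ j < m, ∃ i < 3 * m, ∃ b, lt j i b = true ∧ τ i = b := by
  classical
  refine ⟨fun i => decide (κ (2 * i) (4 * m + 2) ≠ κ (2 * i + 1) 0), fun j hj => ?_⟩
  by_contra hcon
  push Not at hcon
  have key : ∀ x, x ≤ 12 * m → κ (6 * m + j) (24 * m + 5 + 2 * x) = κ (6 * m + j) 0 := by
    intro x
    induction x with
    | zero => intro _; exact h.back hj _ (by omega)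
    | succ x ih =>
      intro hx
      rw [← ih (by omega)]
      have hp := h.port (6 * m + j) (24 * m + 4 + 2 * (x + 1)) (ok_c hj (by omega))
        (by rw [vis_h]; simp)
      have e2 : hq m x (2 * j) = 24 * m + 5 + 2 * x := by
        unfold hq
        rw [if_neg (by omega)]
      rw [show 24 * m + 5 + 2 * (x + 1) = 24 * m + 4 + 2 * (x + 1) + 1 by omega, hp,
        show 24 * m + 4 + 2 * (x + 1) = 24 * m + 5 + 2 * x + 1 by omega]
      cases ho : netOpt m lt (2, x, 2 * j)
      · have hc := h.cell (x := x) (y := 2 * j) (by omega) (by omega) ho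
        rw [e2, show 2 * j / 2 = j by omega] at hc
        exact hc.2.1
      · have hc := h.cellO (x := x) (y := 2 * j) (by omega) (by omega) ho
        obtain ⟨_, hl⟩ := opt_lit.1 ho
        have hx4 : ¬ (x % 4 = 0 ∨ x % 4 = 3) := by
          rcases hl with hl | hl <;> omega
        have e1 : vq m x (2 * j) = 8 * m + 1 - 2 * (2 * j) := by
          unfold vq
          rw [if_neg hx4]
        -- the column has the colour of the wire in the last column
        have hcol : κ (x / 2) (4 * m + 2) = κ (2 * (x / 4) + 1) 0 := by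
          have ht := h.swap (2 * (x / 4) + 1) (4 * m + 1) (2 * (x / 4)) (4 * m + 1)
            (3, x / 4, 0) (ok_v (by omega) (by omega)) (ok_v (by omega) (by omega))
            (by rw [vis_p (by omega), show (2 * (x / 4) + 1) / 2 = x / 4 by omega]
                congr 1
                rw [decide_eq_true_eq]
                omega)
            (by rw [vis_p (by omega), show (2 * (x / 4)) / 2 = x / 4 by omega]
                congr 1
                rw [decide_eq_false_iff_not]
                omega)
            rfl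
          rw [h.up (w := 2 * (x / 4) + 1) (by omega) (4 * m + 1) le_rfl] at ht
          rcases hl with ⟨h1, h2⟩ | ⟨h1, h2⟩
          · have := hcon (x / 4) (by omega) true h2
            simp only [ne_eq, decide_not, Bool.not_eq_true, Bool.not_eq_false',
              decide_eq_true_eq] at this
            rw [show x / 2 = 2 * (x / 4) by omega]
            exact this
          · have := hcon (x / 4) (by omega) false h2
            simp only [ne_eq, decide_not, Bool.not_eq_false, Bool.not_eq_true',
              decide_eq_false_iff_not] at this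
            rw [show x / 2 = 2 * (x / 4) + 1 by omega]
            rcases ht.2 with ht | ht
            · exact ht.1
            · exact absurd ht.2 this
        have hd := h.down hlt (w := x / 2) (by omega)
          (by rw [hcol, show x / 2 / 2 = x / 4 by omega]) (8 * m + 1 - 2 * (2 * j)) (by omega)
          (by omega)
        rw [e1, e2, show 2 * j / 2 = j by omega] at hc
        rcases hc.2 with hc | hc
        · exact hc.2
        · exfalso
          refine h.noA hlt (j := j) hj ho ?_
          rw [show 24 * m + 6 + 2 * x = 24 * m + 5 + 2 * x + 1 by omega, hc.2, hd,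
            show x / 2 / 2 = x / 4 by omega]
  have ho : netOpt m lt (2, 12 * m, 2 * j) = false := opt_right le_rfl
  have hc := h.cross _ _ _ _ _ _ (ok_c hj (by omega)) (ok_c hj (by omega)) (vis_1 j)
    (vis_hc j (12 * m)) ho
  rw [key (12 * m) le_rfl, h.back hj 1 (by omega)] at hc
  exact hc.2.2 rfl

end Rules

end Pool.Agent.K6.H49.DC
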